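import Pool.Agent.H945R2.D.Props2

set_option autoImplicit false

namespace Pool.Agent.H945R2.D

namespace ARIaux

theorem mem_sq {O : Type} [CommRing O] [IsDedekindDomain O] (𝔭 : Ideal O) [𝔭.IsPrime]
    (h0 : 𝔭 ≠ ⊥) {x s : O} (hx : x ∈ 𝔭) (hs : s ∉ 𝔭) (h : s * x ∈ 𝔭 ^ 2) : x ∈ 𝔭 ^ 2 := by
  have hmax : 𝔭.IsMaximal := Ideal.IsPrime.isMaximal inferInstance h0
  obtain ⟨y, i, hi, hyi⟩ := hmax.exists_inv hs
  have h1 : x = y * (s * x) + i * x := by
    calc x = 1 * x := (one_mul x).symm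
      _ = (y * s + i) * x := by rw [hyi]
      _ = y * (s * x) + i * x := by ring
  rw [h1]
  refine Ideal.add_mem _ (Ideal.mul_mem_left _ _ h) ?_
  rw [pow_two]
  exact Ideal.mul_mem_mul hi hx

theorem irr {O : Type} [CommRing O] [IsDedekindDomain O] (𝔭 : Ideal O) [𝔭.IsPrime]
    (h0 : 𝔭 ≠ ⊥) {R : Type} [CommRing R] [IsDomain R] [Algebra O R]
    [IsLocalization.AtPrime R 𝔭] {x : O} (hx : x ∈ 𝔭) (hx2 : x ∉ 𝔭 ^ 2) :
    Irreducible (algebraMap O R x) := by
  have hloc : IsLocalRing R := IsLocalization.AtPrime.isLocalRing R 𝔭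
  have hmem : ∀ y : R, ¬ IsUnit y → y ∈ Ideal.map (algebraMap O R) 𝔭 := by
    intro y hy
    rw [IsLocalization.AtPrime.map_eq_maximalIdeal 𝔭 R]
    exact (IsLocalRing.mem_maximalIdeal y).2 hy
  refine ⟨?_, ?_⟩
  · intro hu
    have := (IsLocalization.AtPrime.isUnit_to_map_iff R 𝔭 x).1 hu
    exact this hx
  · intro y z hyz
    by_contra hcon
    rw [not_or] at hcon
    apply hx2
    have h1 : algebraMap O R x ∈ Ideal.map (algebraMap O R) (𝔭 ^ 2) := by
      rw [Ideal.map_pow, pow_two, hyz]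
      exact Ideal.mul_mem_mul (hmem y hcon.1) (hmem z hcon.2)
    rw [IsLocalization.mem_map_algebraMap_iff 𝔭.primeCompl R] at h1
    obtain ⟨⟨i, s⟩, h2⟩ := h1
    rw [← map_mul, IsLocalization.eq_iff_exists 𝔭.primeCompl R] at h2
    obtain ⟨c, hc⟩ := h2
    have hcs : (c : O) * (s : O) ∉ 𝔭 := by
      intro h3
      rcases Ideal.IsPrime.mem_or_mem inferInstance h3 with h4 | h4
      · exact c.2 h4
      · exact s.2 h4
    refine mem_sq 𝔭 h0 hx hcs ?_
    have h5 : (c : O) * (s : O) * x = c * i := by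
      rw [← hc]; ring
    rw [h5]
    exact Ideal.mul_mem_left _ _ i.2

end ARIaux

theorem ARI_ok : S_ARI := by
  classical
  intro O _ _ ι _ p a h 𝔭 _ R _ _ _ _
  have hnat : algebraMap O R (p : O) = (p : R) := map_natCast _ _
  refine ⟨?_, ?_⟩
  · intro hp
    have h0 : 𝔭 ≠ ⊥ := by
      rintro rfl
      apply h ⊥ inferInstance
      rw [Ideal.mem_bot.1 hp, zero_mul]
      exact Ideal.zero_mem _
    refine ⟨h0, ?_, ?_⟩
    · rw [← hnat]
      refine ARIaux.irr 𝔭 h0 hp ?_
      intro h1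
      exact h 𝔭 inferInstance (Ideal.mul_mem_right _ _ h1)
    · intro i
      have hi : a i ∉ 𝔭 := by
        intro hi
        apply h 𝔭 inferInstance
        rw [pow_two]
        refine Ideal.mul_mem_mul hp ?_
        rw [← Finset.mul_prod_erase _ _ (Finset.mem_univ i)]
        exact Ideal.mul_mem_right _ _ hi
      exact IsLocalization.map_units R (⟨a i, hi⟩ : 𝔭.primeCompl)
  · intro hp
    refine ⟨?_, ?_⟩
    · rw [← hnat]
      exact IsLocalization.map_units R (⟨(p : O), hp⟩ : 𝔭.primeCompl)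
    · by_cases hall : ∀ i, a i ∉ 𝔭
      · left
        intro i
        exact IsLocalization.map_units R (⟨a i, hall i⟩ : 𝔭.primeCompl)
      · right
        push Not at hall
        obtain ⟨i₁, hi₁⟩ := hall
        have h0 : 𝔭 ≠ ⊥ := by
          rintro rfl
          apply h ⊥ inferInstance
          rw [Finset.prod_eq_zero (Finset.mem_univ i₁) (Ideal.mem_bot.1 hi₁), mul_zero]
          exact Ideal.zero_mem _
        refine ⟨IsLocalization.AtPrime.isDiscreteValuationRing_of_dedekind_domain O h0 R, i₁,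
          ARIaux.irr 𝔭 h0 hi₁ ?_, ?_⟩
        · intro h1
          apply h 𝔭 inferInstance
          refine Ideal.mul_mem_left _ _ ?_
          rw [← Finset.mul_prod_erase _ _ (Finset.mem_univ i₁)]
          exact Ideal.mul_mem_right _ _ h1
        · intro i hi
          have hi' : a i ∉ 𝔭 := by
            intro hi'
            apply h 𝔭 inferInstance
            refine Ideal.mul_mem_left _ _ ?_
            rw [← Finset.mul_prod_erase _ _ (Finset.mem_univ i₁),
              ← Finset.mul_prod_erase _ _ (Finset.mem_erase.2 ⟨hi, Finset.mem_univ i⟩),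
              ← mul_assoc, pow_two]
            exact Ideal.mul_mem_right _ _ (Ideal.mul_mem_mul hi₁ hi')
          exact IsLocalization.map_units R (⟨a i, hi'⟩ : 𝔭.primeCompl)

end Pool.Agent.H945R2.D
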