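import Pool.Agent.H945R2.D.Props

/-! BL: the blow-up lemmas (helper459 for helper945). -/

set_option autoImplicit false

namespace Pool.Agent.H945R2.D

open Pool.Agent.H918R2.Quad

theorem BLaux.exists_U_of_sum {F κ : Type} [Field F] [DecidableEq κ] (𝒪 : Subring F)
    (hl : IsLoc 𝒪) (f : κ → F) (s : Finset κ) (hf : ∀ k ∈ s, f k ∈ 𝒪)
    (h : U 𝒪 (∑ k ∈ s, f k)) : ∃ k ∈ s, U 𝒪 (f k) := by
  induction s using Finset.induction_on with
  | empty => exact absurd (by simpa using h) (not_U_zero (𝒪 := 𝒪))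
  | insert k s hk ih =>
    rw [Finset.sum_insert hk] at h
    rcases hl _ _ (hf k (Finset.mem_insert_self _ _))
      (𝒪.sum_mem fun k' hk' => hf k' (Finset.mem_insert_of_mem hk')) h with h1 | h1
    · exact ⟨k, Finset.mem_insert_self _ _, h1⟩
    · obtain ⟨k', hk', h2⟩ := ih (fun k' hk' => hf k' (Finset.mem_insert_of_mem hk')) h1
      exact ⟨k', Finset.mem_insert_of_mem hk', h2⟩

theorem BL1_ok : S_BL1 := by
  intro R F _ _ _ 𝒪 hl 𝒲 hW κ _ Φ z hz hPr hE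
  classical
  obtain ⟨g, hg, hg0, hgΦ⟩ := hPr
  obtain ⟨m, hm0, hm1, hm2⟩ := hE
  obtain ⟨w, hw, hgw⟩ := hm1 g hg
  have hy : ∀ k, z k * m / g ∈ 𝒪 := by
    intro k
    obtain ⟨h, hh, o, ho, he⟩ := hm2 k
    have : z k * m / g = h / g * o := by
      rw [mul_comm (z k), he]; ring
    rw [this]
    exact 𝒪.mul_mem (hgΦ h hh) ho
  have hsum : ∑ k, w k * (z k * m / g) = 1 := by
    have h1 : ∑ k, w k * (z k * m / g) = (m * ∑ k, w k * z k) / g := by
      rw [Finset.mul_sum, Finset.sum_div]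
      refine Finset.sum_congr rfl fun k _ => ?_
      ring
    rw [h1, ← hgw, div_self hg0]
  obtain ⟨k₀, _, hk₀⟩ := BLaux.exists_U_of_sum 𝒪 hl (fun k => w k * (z k * m / g)) Finset.univ
    (fun k _ => 𝒪.mul_mem (hW _ (hw k)) (hy k)) (by rw [hsum]; exact U_one)
  have hU : U 𝒪 (z k₀ * m / g) := hk₀.of_mul_right (hW _ (hw k₀)) (hy k₀)
  have hz0 : z k₀ ≠ 0 := by
    intro h0
    apply hU.1
    rw [h0, zero_mul, zero_div]
  refine ⟨k₀, hz0, fun k => ?_⟩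
  have : z k / z k₀ = (z k * m / g) * (z k₀ * m / g)⁻¹ := by
    field_simp
  rw [this]
  exact 𝒪.mul_mem (hy k) hU.2.2

theorem BL2_ok : S_BL2 := by
  intro R F _ _ _ 𝒪 𝒲 𝒲' hW' hle κ _ Φ z k₀ hz0 hzk hE
  obtain ⟨m, hm0, hm1, hm2⟩ := hE
  have hm' : m * z k₀ ≠ 0 := mul_ne_zero hm0 hz0
  have hmem : ∀ h ∈ Φ, h / (m * z k₀) ∈ 𝒲' := by
    intro h hh
    obtain ⟨w, hw, rfl⟩ := hm1 h hh
    have : m * ∑ k, w k * z k = (m * z k₀) * ∑ k, w k * (z k / z k₀) := by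
      rw [Finset.mul_sum, Finset.mul_sum]
      refine Finset.sum_congr rfl fun k _ => ?_
      field_simp
    rw [this, mul_div_cancel_left₀ _ hm']
    exact 𝒲'.sum_mem fun k _ => 𝒲'.mul_mem (hle (hw k)) (hzk k)
  refine ⟨m * z k₀, hm', hmem, ?_⟩
  obtain ⟨h, hh, o, ho, he⟩ := hm2 k₀
  have hh0 : h ≠ 0 := by
    rintro rfl
    rw [zero_mul] at he
    exact hm' he
  refine ⟨h, hh, div_ne_zero hh0 hm', hW' _ (hmem h hh), ?_⟩
  have : (h / (m * z k₀))⁻¹ = o := by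
    rw [inv_div, he, mul_div_cancel_left₀ _ hh0]
  rw [this]
  exact ho

end Pool.Agent.H945R2.D
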