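import Pool.Agent.H945R2.D.Props

/-! Task CH1: chart theorem 1. -/

set_option autoImplicit false

open scoped Pointwise

namespace Pool.Agent.H945R2.D

open Pool.Agent.H918R2.Quad MvPolynomial

namespace CH1aux

variable {R F ι : Type} [CommRing R] [Field F] [Algebra R F] [Fintype ι] [DecidableEq ι]

/-- Values of the coordinates. -/
def vals {s d : ι} (a b : F) (t : ι → F) : Idx s d → F :=
  fun k => k.elim a (fun k' => k'.elim b (fun i => t i))

variable (R) in
/-- The coordinates. -/
noncomputable def TT (s d : ι) : ι → MvPolynomial (Idx s d) R :=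
  Tc s d (fun _ => 0) (fun k => X (some (some k))) (X none * X (some none))

theorem TT_s (s d : ι) : TT R s d s = 1 := by
  unfold TT Tc
  rw [dif_pos rfl]

theorem TT_d (s d : ι) (h : s ≠ d) : TT R s d d =
    X none * X (some none) - 1 - ∑ k : Rest s d, X (some (some k)) := by
  unfold TT Tc
  rw [dif_neg h.symm, dif_pos rfl]
  congr 1
  refine Finset.sum_congr rfl fun k _ => ?_
  rw [zero_add]

theorem TT_k (s d : ι) (k : Rest s d) : TT R s d k = X (some (some k)) := by
  unfold TT Tc
  rw [dif_neg k.2.1, dif_neg k.2.2, zero_add]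

/-- The third relation. -/
noncomputable def EE (s d : ι) (p j : ℕ) (g : MvPolynomial ι R) : MvPolynomial (Idx s d) R :=
  aeval (TT R s d) g + X none ^ (p - 1 - j) * X (some none) ^ (p - j)

theorem heT (hS : S_SUMT) (s d : ι) (hsd : s ≠ d) (a b : F) (t : ι → F) (hs : t s = 1)
    (hL : ∑ i, t i = a * b) (i : ι) :
    aeval (vals a b t) (TT R s d i) = t i := by
  have heX : ∀ k : Idx s d, aeval (R := R) (vals a b t) (X k) = vals a b t k :=
    fun k => aeval_X _ k
  have hsum2 : ∑ i, t i = t s + t d + ∑ k : Rest s d, t k :=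
    (hS (ι := ι) (B := F) s d hsd (fun _ => 0) (fun _ => 0) 0).2 t
  by_cases h : i = s
  · rw [h, TT_s, map_one, hs]
  · by_cases h' : i = d
    · rw [h', TT_d s d hsd, map_sub, map_sub, map_mul, map_one, map_sum, heX, heX]
      have e1 : ∀ k : Rest s d, aeval (R := R) (vals a b t) (X (some (some k))) = t k :=
        fun k => heX _
      simp only [e1]
      have e2 : (vals a b t (none : Idx s d)) = a := rfl
      have e3 : (vals a b t (some none : Idx s d)) = b := rfl
      rw [e2, e3, ← hL, hsum2, hs]
      ring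
    · have := TT_k (R := R) s d ⟨i, h, h'⟩
      have e4 : TT R s d i = X (some (some ⟨i, h, h'⟩)) := this
      rw [e4, heX]
      rfl

/-- Presentation of the chart. -/
theorem core [IsDomain R] [IsDiscreteValuationRing R]
    (hRA : S_RA) (hS : S_SUMT) (hP : S_PRE) (hFAB : S_FAB) (hFRC : S_FRC)
    (𝒪 : Subring F) (p j : ℕ) (co : ι → R)
    (g : MvPolynomial ι R) (t : ι → F) (s d : ι) (a b : F) (D : Data 𝒪 p j co g t s a b)
    (hsd : s ≠ d)
    (hloc2 : IsLocOf 𝒪 (Algebra.adjoin R ({a, b} ∪ Set.range t) : Set F))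
    (H : ∀ (A : Type) [CommRing A] [Algebra R A] (pr : MvPolynomial (Idx s d) R →ₐ[R] A)
      (q : Ideal A) [q.IsPrime], pr (X none) ∈ q → pr (C (p : R)) ∈ q →
      (∀ w, pr w ∈ q ↔ ¬ U 𝒪 (aeval (vals a b t) w)) →
      ∃ i, pr (pderiv (some i) (EE s d p j g)) ∉ q) : IsRegularLocalRing 𝒪 := by
  let W := MvPolynomial (Idx s d) R
  let eW : W →ₐ[R] F := aeval (vals a b t)
  have heC : ∀ r, eW (C r) = algebraMap R F r := fun r => aeval_C _ r
  have heX : ∀ k, eW (X k) = vals a b t k := fun k => aeval_X _ k
  have heT : ∀ i, eW (TT R s d i) = t i := heT hS s d hsd a b t D.hs D.hL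
  have hsumT : ∑ i, TT R s d i = X none * X (some none) := by
    unfold TT
    exact (hS s d hsd (fun _ => 0) _ _).1
  have heE : eW (EE s d p j g) = 0 := by
    unfold EE
    rw [map_add, map_mul, map_pow, map_pow, heX, heX, ← D.hG]
    have e1 : eW (aeval (TT R s d) g) = aeval t g := by
      rw [comp_aeval_apply]
      congr 2
      funext i
      exact heT i
    rw [e1]
    rfl
  have hrel : eW (C (p : R) - X none * (X none ^ j * X (some none) ^ j)) = 0 := by
    rw [map_sub, heC, map_mul, map_mul, map_pow, map_pow, heX, heX, map_natCast]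
    have e2 : (vals a b t (none : Idx s d)) = a := rfl
    have e3 : (vals a b t (some none : Idx s d)) = b := rfl
    rw [e2, e3, D.hp]
    ring
  let I : Ideal W := Ideal.span {C (p : R) - X none * (X none ^ j * X (some none) ^ j),
    EE s d p j g}
  have hI : ∀ w ∈ I, eW w = 0 := by
    intro w hw
    obtain ⟨x, y, rfl⟩ := Ideal.mem_span_pair.1 hw
    rw [map_add, map_mul, map_mul, hrel, heE, mul_zero, mul_zero, add_zero]
  have heW : ∀ w, eW w ∈ 𝒪 := by
    intro w
    induction w using MvPolynomial.induction_on with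
    | C r => rw [heC]; exact D.hR r
    | add p q hp hq => rw [map_add]; exact 𝒪.add_mem hp hq
    | mul_X p k hp =>
      rw [map_mul, heX]
      refine 𝒪.mul_mem hp ?_
      rcases k with _ | _ | k
      · exact D.ha
      · exact D.hb
      · exact D.ht _
  have hrange : (eW.range : Set F) = (Algebra.adjoin R ({a, b} ∪ Set.range t) : Set F) := by
    apply Set.Subset.antisymm
    · rintro _ ⟨w, rfl⟩
      have e5 : ∀ w : W, eW w ∈ Algebra.adjoin R ({a, b} ∪ Set.range t) := by
        intro w
        induction w using MvPolynomial.induction_on with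
        | C r => rw [heC]; exact Subalgebra.algebraMap_mem _ r
        | add p q hp hq => rw [map_add]; exact Subalgebra.add_mem _ hp hq
        | mul_X p k hp =>
          rw [map_mul, heX]
          refine Subalgebra.mul_mem _ hp ?_
          apply Algebra.subset_adjoin
          rcases k with _ | _ | k
          · exact Or.inl (Or.inl rfl)
          · exact Or.inl (Or.inr rfl)
          · exact Or.inr ⟨_, rfl⟩
      exact e5 w
    · have e6 : Algebra.adjoin R ({a, b} ∪ Set.range t) ≤ eW.range := by
        apply Algebra.adjoin_le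
        rintro x (hx | ⟨i, rfl⟩)
        · rcases hx with rfl | rfl
          · exact ⟨X none, heX _⟩
          · exact ⟨X (some none), heX _⟩
        · exact ⟨TT R s d i, heT i⟩
      exact e6
  obtain ⟨A, _, _, pr, hpr, hprk, hpr0⟩ := exists_quot (R := R) I
  have hker : ∀ w, pr w = 0 → eW w = 0 := fun w hw => hI w ((hpr0 w).1 hw)
  have hprE : pr (EE s d p j g) = 0 := (hpr0 _).2 (Ideal.subset_span (Or.inr rfl))
  have hprp : pr (C (p : R)) = pr (X none * (X none ^ j * X (some none) ^ j)) := by
    have h1 : pr (C (p : R) - X none * (X none ^ j * X (some none) ^ j)) = 0 :=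
      (hpr0 _).2 (Ideal.subset_span (Or.inl rfl))
    rw [map_sub] at h1
    exact sub_eq_zero.mp h1
  have hCp : (C (p : R) : W) = (p : W) := map_natCast _ p
  have hprsum : pr (∑ i, TT R s d i) = pr (X none * X (some none)) := by rw [hsumT]
  have hprp' : pr (p : W) = pr (X none ^ (j + 1) * X (some none) ^ j) := by
    rw [← hCp, hprp]
    congr 1
    ring
  have hfab := hFAB 𝒪 p j co g t s a b D pr eW hker (TT R s d) (X none) (X (some none)) heT
    (heX _) (heX _) (TT_s s d) hprsum hprp'
  refine hP 𝒪 p j co g t s a b D pr hpr eW hker heW ?_ (TT R s d) (X none) (X (some none)) heT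
    (heX _) (heX _) (TT_s s d) hprsum hprp' ?_ ?_ ?_
  · rw [hrange]
    exact hloc2
  · exact hprE
  · have h7 := (hFRC pr eW hker (fun i : {i : ι // i ≠ s} => TT R s d i)).2.2.2.2.2.2
    refine h7 (Set.range X) adjoin_range_X ?_
    rintro _ ⟨k, rfl⟩
    rcases k with _ | _ | k
    · exact hfab.1
    · exact hfab.2.1
    · have := hfab.2.2 k
      rw [TT_k] at this
      exact this
  · intro q hq hqm
    have hXn : pr (X none) ∈ q := by
      rw [hqm, heX]
      exact D.haU
    have hpq : pr (C (p : R)) ∈ q := by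
      rw [hprp, map_mul]
      exact q.mul_mem_right _ hXn
    obtain ⟨i, hi⟩ := H A pr q hXn hpq hqm
    exact hRA (p : R) D.irr (pr : W →+* A) hpr (X none ^ j * X (some none) ^ j) (EE s d p j g) hprk
      q hXn i hi

/-- The derivative of the third relation. -/
theorem deriv [IsDomain R] (hS : S_SUMT) (p : ℕ) (co : ι → R) (g : MvPolynomial ι R)
    (hc : Coef p co g) (s d : ι) (hsd : s ≠ d)
    (δ : Derivation R (MvPolynomial (Idx s d) R) (MvPolynomial (Idx s d) R)) :
    δ (aeval (TT R s d) g) = ∑ i, C (co i) * (TT R s d i ^ (p - 1) * δ (TT R s d i)) -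
      (X none * X (some none)) ^ (p - 1) * δ (X none * X (some none)) := by
  have hsumT : ∑ i, TT R s d i = X none * X (some none) := by
    unfold TT
    exact (hS s d hsd (fun _ => 0) _ _).1
  have h1 : C (p : R) * aeval (TT R s d) g =
      ∑ i, C (co i) * TT R s d i ^ p - (X none * X (some none)) ^ p := by
    have h2 := congrArg (aeval (TT R s d)) hc.rel
    rw [map_mul, map_sub, map_sum, map_pow, map_sum] at h2
    simp only [map_mul, map_pow, aeval_X, algHom_C, algebraMap_eq] at h2
    rw [hsumT] at h2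
    exact h2
  have h3 := congrArg δ h1
  have hC : ∀ r : R, δ (C r) = 0 := fun r => δ.map_algebraMap r
  rw [Derivation.leibniz, hC, smul_zero, add_zero, map_sub, map_sum, Derivation.leibniz_pow] at h3
  simp only [Derivation.leibniz, hC, smul_zero, add_zero, Derivation.leibniz_pow, smul_eq_mul] at h3
  have hp0 : (C (p : R) : MvPolynomial (Idx s d) R) ≠ 0 := by
    rw [Ne, C_eq_zero]
    exact hc.ne
  apply mul_left_cancel₀ hp0
  rw [h3, mul_sub, Finset.mul_sum]
  have hCp : (C (p : R) : MvPolynomial (Idx s d) R) = (p : MvPolynomial (Idx s d) R) :=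
    map_natCast _ p
  congr 1
  · refine Finset.sum_congr rfl fun i _ => ?_
    rw [hCp, nsmul_eq_mul]
    ring
  · rw [hCp, nsmul_eq_mul, Derivation.leibniz]
    simp only [smul_eq_mul]

end CH1aux

theorem CH1_ok (hRA : S_RA) (hS : S_SUMT) (hP : S_PRE) (hFAB : S_FAB) (hFRC : S_FRC) :
    S_CH1 := by
  intro R F ι
  intro _ _ _ _ _ _ _ 𝒪 p j co g t s d a b D hsd hloc2 hcase
  by_cases hj : j + 1 = p
  · refine CH1aux.core hRA hS hP hFAB hFRC 𝒪 p j co g t s d a b D hsd hloc2 ?_
    intro A _ _ pr q hq hXn hpq hqm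
    refine ⟨none, ?_⟩
    intro hmem
    have hder := CH1aux.deriv hS p co g D.coef s d hsd (pderiv (some none))
    have hab : pderiv (some none) ((X none * X (some none) : MvPolynomial (Idx s d) R)) =
        X none := by
      rw [Derivation.leibniz, pderiv_X_self, pderiv_X_of_ne (by simp)]
      simp
    have hTs : pderiv (some none) (CH1aux.TT R s d s) = 0 := by
      rw [CH1aux.TT_s]
      simp
    have hXk : ∀ k : Rest s d,
        pderiv (some none) (X (some (some k)) : MvPolynomial (Idx s d) R) = 0 :=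
      fun k => pderiv_X_of_ne (by simp)
    have hTd : pderiv (some none) (CH1aux.TT R s d d) = X none := by
      rw [CH1aux.TT_d s d hsd, map_sub, map_sub, hab, map_sum]
      simp only [hXk, Finset.sum_const_zero, sub_zero]
      simp
    have hTk : ∀ i, i ≠ d → pderiv (some none) (CH1aux.TT R s d i) = 0 := by
      intro i hi
      by_cases h : i = s
      · rw [h, hTs]
      · have := CH1aux.TT_k (R := R) s d ⟨i, h, hi⟩
        have e4 : CH1aux.TT R s d i = X (some (some ⟨i, h, hi⟩)) := this
        rw [e4, hXk]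
    rw [Finset.sum_eq_single d (fun i _ hi => by rw [hTk i hi, mul_zero, mul_zero])
      (fun h => absurd (Finset.mem_univ d) h), hTd, hab] at hder
    have hE : pderiv (some none) (CH1aux.EE s d p j g) =
        X none * (C (co d) * CH1aux.TT R s d d ^ (p - 1) -
          (X none * X (some none)) ^ (p - 1)) + 1 := by
      unfold CH1aux.EE
      have e1 : p - 1 - j = 0 := by omega
      have e2 : p - j = 1 := by omega
      rw [map_add, hder, e1, e2, pow_zero, one_mul, pow_one, pderiv_X_self]
      ring
    rw [hE, map_add, map_mul, map_one] at hmem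
    have h1 : (1 : A) ∈ q := by
      have h2 := q.sub_mem hmem (q.mul_mem_right (pr (C (co d) * CH1aux.TT R s d d ^ (p - 1) -
          (X none * X (some none)) ^ (p - 1))) hXn)
      rw [add_sub_cancel_left] at h2
      exact h2
    exact hq.ne_top ((Ideal.eq_top_iff_one q).mpr h1)
  · have hcase' : ∃ i, i ≠ s ∧ i ≠ d ∧ U 𝒪 (t i ^ (p - 1) - t d ^ (p - 1)) := by
      rcases hcase with h | h
      · exact absurd h hj
      · exact h
    obtain ⟨i, his, hid, hU⟩ := hcase'
    refine CH1aux.core hRA hS hP hFAB hFRC 𝒪 p j co g t s d a b D hsd hloc2 ?_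
    intro A _ _ pr q hq hXn hpq hqm
    refine ⟨some ⟨i, his, hid⟩, ?_⟩
    intro hmem
    have hder := CH1aux.deriv hS p co g D.coef s d hsd (pderiv (some (some ⟨i, his, hid⟩)))
    have hXn0 : pderiv (some (some ⟨i, his, hid⟩)) (X none : MvPolynomial (Idx s d) R) = 0 :=
      pderiv_X_of_ne (by simp)
    have hXs0 : pderiv (some (some ⟨i, his, hid⟩)) (X (some none) : MvPolynomial (Idx s d) R) = 0 :=
      pderiv_X_of_ne (by simp)
    have hab : pderiv (some (some ⟨i, his, hid⟩))
        ((X none * X (some none) : MvPolynomial (Idx s d) R)) = 0 := by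
      rw [Derivation.leibniz, hXn0, hXs0]
      simp
    have hTs : pderiv (some (some ⟨i, his, hid⟩)) (CH1aux.TT R s d s) = 0 := by
      rw [CH1aux.TT_s]
      simp
    have hXk : ∀ k : Rest s d, k ≠ ⟨i, his, hid⟩ → pderiv (some (some ⟨i, his, hid⟩))
        (X (some (some k)) : MvPolynomial (Idx s d) R) = 0 := by
      intro k hk
      apply pderiv_X_of_ne
      intro h
      apply hk
      simpa using h
    have hTi : pderiv (some (some ⟨i, his, hid⟩)) (CH1aux.TT R s d i) = 1 := by
      have := CH1aux.TT_k (R := R) s d ⟨i, his, hid⟩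
      have e4 : CH1aux.TT R s d i = X (some (some ⟨i, his, hid⟩)) := this
      rw [e4, pderiv_X_self]
    have hTd : pderiv (some (some ⟨i, his, hid⟩)) (CH1aux.TT R s d d) = -1 := by
      rw [CH1aux.TT_d s d hsd, map_sub, map_sub, hab, map_sum,
        Finset.sum_eq_single (⟨i, his, hid⟩ : Rest s d) (fun k _ hk => hXk k hk)
        (fun h => absurd (Finset.mem_univ _) h), pderiv_X_self]
      simp
    have hTk : ∀ i', i' ≠ i → i' ≠ d → pderiv (some (some ⟨i, his, hid⟩))
        (CH1aux.TT R s d i') = 0 := by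
      intro i' hi' hi''
      by_cases h : i' = s
      · rw [h, hTs]
      · have := CH1aux.TT_k (R := R) s d ⟨i', h, hi''⟩
        have e4 : CH1aux.TT R s d i' = X (some (some ⟨i', h, hi''⟩)) := this
        rw [e4]
        apply hXk
        intro h4
        exact hi' (congrArg Subtype.val h4)
    have hsum : ∑ i', C (co i') * (CH1aux.TT R s d i' ^ (p - 1) *
        pderiv (some (some ⟨i, his, hid⟩)) (CH1aux.TT R s d i')) =
        C (co i) * CH1aux.TT R s d i ^ (p - 1) - C (co d) * CH1aux.TT R s d d ^ (p - 1) := by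
      rw [← Finset.add_sum_erase _ _ (Finset.mem_univ i), hTi,
        Finset.sum_eq_single d]
      · rw [hTd]
        ring
      · intro k hk hkd
        rw [hTk k (Finset.mem_erase.1 hk).1 hkd, mul_zero, mul_zero]
      · intro h
        exfalso
        apply h
        exact Finset.mem_erase.2 ⟨hid.symm, Finset.mem_univ _⟩
    rw [hsum, hab, mul_zero, sub_zero] at hder
    have hE : pderiv (some (some ⟨i, his, hid⟩)) (CH1aux.EE s d p j g) =
        C (co i) * CH1aux.TT R s d i ^ (p - 1) - C (co d) * CH1aux.TT R s d d ^ (p - 1) := by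
      unfold CH1aux.EE
      rw [map_add, hder, Derivation.leibniz, Derivation.leibniz_pow, Derivation.leibniz_pow,
        hXn0, hXs0]
      simp
    obtain ⟨ri, hri⟩ := D.coef.one i
    obtain ⟨rd, hrd⟩ := D.coef.one d
    have hdec : (C (co i) * CH1aux.TT R s d i ^ (p - 1) - C (co d) * CH1aux.TT R s d d ^ (p - 1) :
        MvPolynomial (Idx s d) R) =
        (CH1aux.TT R s d i ^ (p - 1) - CH1aux.TT R s d d ^ (p - 1)) +
        C (p : R) * (C ri * CH1aux.TT R s d i ^ (p - 1) - C rd * CH1aux.TT R s d d ^ (p - 1)) := by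
      have h1 : co i = 1 + p * ri := by rw [← hri]; ring
      have h2 : co d = 1 + p * rd := by rw [← hrd]; ring
      rw [h1, h2, C_add, C_add, C_mul, C_mul, C_1]
      ring
    rw [hE, hdec, map_add, map_mul] at hmem
    have h3 : pr (CH1aux.TT R s d i ^ (p - 1) - CH1aux.TT R s d d ^ (p - 1)) ∈ q := by
      have h4 := q.sub_mem hmem (q.mul_mem_right
        (pr (C ri * CH1aux.TT R s d i ^ (p - 1) - C rd * CH1aux.TT R s d d ^ (p - 1))) hpq)
      rw [add_sub_cancel_right] at h4
      exact h4
    rw [hqm] at h3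
    apply h3
    have heT := CH1aux.heT (R := R) hS s d hsd a b t D.hs D.hL
    rw [map_sub, map_pow, map_pow, heT, heT]
    exact hU

end Pool.Agent.H945R2.D
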