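import Pool.Agent.H945R2.D.Props

/-! CH3: regularity of the blow-up at the singular points. -/

set_option autoImplicit false

open scoped Pointwise

namespace Pool.Agent.H945R2.D

open Pool.Agent.H918R2.Quad MvPolynomial

namespace CH3aux

theorem map_Tc {ι B B' : Type} [Fintype ι] [DecidableEq ι] [CommRing B] [CommRing B']
    (f : B →+* B') (s d : ι) (c : ι → B) (u : Rest s d → B) (l : B) (i : ι) :
    f (Tc s d c u l i) = Tc s d (fun i => f (c i)) (fun k => f (u k)) (f l) i := by
  unfold Tc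
  split_ifs
  · simp
  · simp
  · simp

theorem Tc_s {ι B : Type} [Fintype ι] [DecidableEq ι] [CommRing B]
    (s d : ι) (c : ι → B) (u : Rest s d → B) (l : B) : Tc s d c u l s = 1 := by
  simp [Tc]

theorem Tc_rest {ι B : Type} [Fintype ι] [DecidableEq ι] [CommRing B]
    (s d : ι) (c : ι → B) (u : Rest s d → B) (l : B) (k : Rest s d) :
    Tc s d c u l k.1 = c k.1 + u k := by
  unfold Tc
  rw [dif_neg k.2.1, dif_neg k.2.2]

theorem Tc_d {ι B : Type} [Fintype ι] [DecidableEq ι] [CommRing B]
    (s d : ι) (h : s ≠ d) (c : ι → B) (u : Rest s d → B) (l : B) :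
    Tc s d c u l d = l - 1 - ∑ k : Rest s d, (c k + u k) := by
  unfold Tc
  rw [dif_neg h.symm, dif_pos rfl]

/-- the coordinates `Tc` reproduce the point. -/
theorem Tc_eq (hS : S_SUMT) {ι B : Type} [Fintype ι] [DecidableEq ι] [CommRing B]
    (s d : ι) (h : s ≠ d) (c t : ι → B) (u : Rest s d → B) (l : B) (hs : t s = 1)
    (hu : ∀ k, u k = t k - c k) (hl : ∑ i, t i = l) (i : ι) : Tc s d c u l i = t i := by
  by_cases h1 : i = s
  · rw [h1, Tc_s, hs]
  · by_cases h2 : i = d
    · rw [h2, Tc_d s d h]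
      have h3 := (hS s d h c u l).2 t
      rw [hl, hs] at h3
      have h4 : ∑ k : Rest s d, (c k + u k) = ∑ k : Rest s d, t k := by
        apply Finset.sum_congr rfl
        intro k _
        rw [hu]; ring
      rw [h4, h3]; ring
    · have := Tc_rest s d c u l ⟨i, h1, h2⟩
      simp only at this
      rw [this, hu]
      ring

theorem eval_tauI {R F κ : Type} [CommRing R] [DecidableEq κ] [Field F] [Algebra R F]
    (k₀ : κ) (z : κ → F) (h0 : z k₀ ≠ 0) (k : κ) :
    aeval (fun o : Option {k : κ // k ≠ k₀} => o.elim (z k₀) (fun k => z k / z k₀))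
      (tauI (R := R) k₀ k) = z k / z k₀ := by
  unfold tauI
  split_ifs with h
  · rw [h, div_self h0]; simp
  · simp

end CH3aux

open CH3aux

theorem CH3_ok (hBLR : S_BLR) (hND : S_ND) (h0 : S_EXP0) (hJ : S_EXPJ) (hB : S_EXPB)
    (hS : S_SUMT) (hP : S_PRE) (hFAB : S_FAB) (hFRC : S_FRC) : S_CH3 := by
  intro R F ι _ _ _ _ _ _ _ 𝒪 p j co g t i₀ d a b hD hid c β b₀ hsp hkind k₀ hz0 hzdiv hzU hlocOf
  set z : Idx i₀ d → F := zI a (b + algebraMap R F b₀) t c with hz
  -- the second order expansion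
  obtain ⟨v, lα, l, hv, hexp⟩ : ∃ (v lα : R) (l : Rest i₀ d → R), IsUnit v ∧
      ExpConcl p co g c i₀ d j b₀ v lα l := by
    rcases hkind with ⟨hj, hb⟩ | ⟨hj1, hj2, hb⟩ | ⟨hj, hb⟩
    · obtain ⟨lα, l, h⟩ := h0 p co g hD.coef i₀ c β hsp d hid
      subst hj; subst hb
      exact ⟨1, lα, l, isUnit_one, h⟩
    · subst hb
      exact ⟨1, 0, fun _ => 0, isUnit_one, hJ p co g hD.coef i₀ c β hsp d hid j hj1 hj2⟩
    · obtain ⟨lα, l, h⟩ := hB p co g hD.coef i₀ c β hsp d hid
      subst hb
      have hj' : p - 2 = j := by omega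
      rw [hj'] at h
      exact ⟨-1, lα, l, isUnit_one.neg, h⟩
  obtain ⟨Q, hQ, hQΦ⟩ := hND p co g hD.coef i₀ c β hsp d hid v lα l hv
  -- the polynomial ring
  let W : Type := MvPolynomial (Option {k : Idx i₀ d // k ≠ k₀}) R
  let Yh : Idx i₀ d → W := fun k => tauI k₀ k
  let ε : W := X none
  let a' : W := ε * Yh none
  let b' : W := ε * Yh (some none) - algebraMap R W b₀
  let T : ι → W := Tc i₀ d (fun i => (c i : W)) (fun k => ε * Yh (some (some k))) (a' * b')
  let pt : Option {k : Idx i₀ d // k ≠ k₀} → F := fun o => o.elim (z k₀) (fun k => z k / z k₀)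
  let eW : W →ₐ[R] F := aeval pt
  have hYk0 : Yh k₀ = 1 := by
    show tauI k₀ k₀ = 1
    unfold tauI
    rw [dif_pos rfl]
  have heε : eW ε = z k₀ := by
    show aeval pt (X none) = z k₀
    rw [aeval_X]; rfl
  have heY : ∀ k, eW (Yh k) = z k / z k₀ := fun k => eval_tauI k₀ z hz0 k
  have heεY : ∀ k, eW (ε * Yh k) = z k := by
    intro k
    rw [map_mul, heε, heY, mul_div_cancel₀ _ hz0]
  have hza : z none = a := rfl
  have hzb : z (some none) = b + algebraMap R F b₀ := rfl
  have hzt : ∀ k : Rest i₀ d, z (some (some k)) = t k - (c k : F) := fun k => rfl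
  have hea : eW a' = a := heεY none
  have heb : eW b' = b := by
    show eW (ε * Yh (some none) - algebraMap R W b₀) = b
    rw [map_sub, heεY, hzb, AlgHom.commutes]; ring
  have heT : ∀ i, eW (T i) = t i := by
    intro i
    have h1 := map_Tc (eW : W →+* F) i₀ d (fun i => (c i : W)) (fun k => ε * Yh (some (some k)))
      (a' * b') i
    have h2 : eW (T i) = Tc i₀ d (fun i => eW (c i : W)) (fun k => eW (ε * Yh (some (some k))))
      (eW (a' * b')) i := h1
    rw [h2]
    apply Tc_eq hS i₀ d hid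
    · exact hD.hs
    · intro k
      rw [heεY, hzt, map_natCast]
    · rw [map_mul, hea, heb]; exact hD.hL
  have hTs : T i₀ = 1 := Tc_s _ _ _ _ _
  have hTsum : ∑ i, T i = a' * b' := (hS i₀ d hid _ _ _).1
  -- the first relation
  let h : W := Yh none * (a' ^ j * b' ^ j)
  let R1 : W := C (p : R) - X none * h
  have hR1 : R1 = (p : W) - a' ^ (j + 1) * b' ^ j := by
    show C (p : R) - X none * (Yh none * (a' ^ j * b' ^ j)) = _
    rw [map_natCast]
    show (p : W) - X none * (Yh none * (a' ^ j * b' ^ j)) = (p : W) - a' ^ (j + 1) * b' ^ j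
    have : a' ^ (j + 1) = X none * Yh none * a' ^ j := by
      rw [pow_succ, mul_comm]
    rw [this]; ring
  have heR1 : eW R1 = 0 := by
    rw [hR1, map_sub, map_natCast, map_mul, map_pow, map_pow, hea, heb, ← hD.hp, sub_self]
  -- the quotient by the first relation
  obtain ⟨B, iB1, iB2, mk, hmks, hmkk, hmk⟩ := exists_quot (R := R) (Ideal.span {R1} : Ideal W)
  have hmkR1 : (p : B) = mk a' ^ (j + 1) * mk b' ^ j := by
    have h1 : mk R1 = 0 := (hmk R1).2 (Ideal.subset_span rfl)
    rw [hR1, map_sub, map_natCast, map_mul, map_pow, map_pow] at h1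
    exact sub_eq_zero.1 h1
  have hma : mk a' = mk ε * mk (Yh none) := map_mul _ _ _
  have hmb : mk b' = mk ε * mk (Yh (some none)) - algebraMap R B b₀ := by
    show mk (ε * Yh (some none) - algebraMap R W b₀) = _
    rw [map_sub, map_mul, AlgHom.commutes]
  obtain ⟨hBB, hhB⟩ := hexp (B := B) (mk ε) (fun k => mk (Yh k)) (by
    rw [← hma, ← hmb]; exact hmkR1)
  rw [← hma, ← hmb] at hhB
  obtain ⟨h', hh'⟩ := hmks hBB
  rw [← hh', hQΦ] at hhB
  let E : W := ∑ k, ∑ l, C (Q k l) * tauI k₀ k * tauI k₀ l + X none * h'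
  have hmT : mk (aeval T g) = aeval (Tc i₀ d (fun i => (c i : B))
      (fun k => mk ε * mk (Yh (some (some k)))) (mk a' * mk b')) g := by
    have h1 : mk (aeval T g) = (mk.comp (aeval T)) g := rfl
    have h2 : mk.comp (aeval T) = aeval (Tc i₀ d (fun i => (c i : B))
      (fun k => mk ε * mk (Yh (some (some k)))) (mk a' * mk b')) := by
      apply MvPolynomial.algHom_ext
      intro i
      rw [AlgHom.comp_apply, aeval_X, aeval_X]
      have h3 := map_Tc (mk : W →+* B) i₀ d (fun i => (c i : W))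
        (fun k => ε * Yh (some (some k))) (a' * b') i
      have h4 : mk (T i) = Tc i₀ d (fun i => mk (c i : W)) (fun k => mk (ε * Yh (some (some k))))
        (mk (a' * b')) i := h3
      rw [h4]
      simp only [map_mul, map_natCast]
    rw [h1, h2]
  have hmE : mk (aeval T g + a' ^ (p - 1 - j) * b' ^ (p - j) - ε ^ 2 * E) = 0 := by
    have e1 : mk (a' ^ (p - 1 - j) * b' ^ (p - j)) = mk a' ^ (p - 1 - j) * mk b' ^ (p - j) := by
      rw [map_mul, map_pow, map_pow]
    have e2 : mk (ε ^ 2 * E) = mk ε ^ 2 * mk E := by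
      rw [map_mul, map_pow]
    rw [map_sub, map_add, hmT, e1, e2, hhB, sub_eq_zero]
    congr 1
    show _ = mk (∑ k, ∑ l, C (Q k l) * tauI k₀ k * tauI k₀ l + X none * h')
    rw [map_add, map_sum, map_mul]
    congr 1
    apply Finset.sum_congr rfl
    intro k _
    rw [map_sum]
    apply Finset.sum_congr rfl
    intro l _
    rw [map_mul, map_mul]
    congr 2
    exact (mk.commutes (Q k l)).symm
  obtain ⟨r, hr⟩ := Ideal.mem_span_singleton'.1 ((hmk _).1 hmE)
  have hE0 : eW E = 0 := by
    have h1 : eW (ε ^ 2 * E) = 0 := by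
      have h2 : ε ^ 2 * E = aeval T g + a' ^ (p - 1 - j) * b' ^ (p - j) - r * R1 := by
        rw [hr]; ring
      rw [h2, map_sub, map_add, map_mul, map_mul, heR1, mul_zero, sub_zero, map_pow, map_pow, hea,
        heb]
      have h3 : eW (aeval T g) = aeval t g := by
        have h4 : eW (aeval T g) = (eW.comp (aeval T)) g := rfl
        rw [h4]
        congr 1
        apply MvPolynomial.algHom_ext
        intro i
        rw [AlgHom.comp_apply, aeval_X, aeval_X, heT]
      rw [h3]
      exact hD.hG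
    rw [map_mul, map_pow, heε] at h1
    exact (mul_eq_zero.1 h1).resolve_left (pow_ne_zero 2 hz0)
  obtain ⟨A, iA1, iA2, pr, hprs, hprk, hpr⟩ := exists_quot (R := R) (Ideal.span {R1, E} : Ideal W)
  have hprR1 : pr R1 = 0 := (hpr R1).2 (Ideal.subset_span (by simp))
  have hprE : pr E = 0 := (hpr E).2 (Ideal.subset_span (by simp))
  have hker : ∀ w, pr w = 0 → eW w = 0 := by
    intro w hw
    have h1 := (hpr w).1 hw
    obtain ⟨x, y, hxy⟩ := Ideal.mem_span_pair.1 h1
    rw [← hxy, map_add, map_mul, map_mul, heR1, hE0]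
    simp
  -- the range
  have hrange : (Algebra.adjoin R (insert (z k₀) (Set.range (fun k => z k / z k₀)))) =
      eW.range := by
    show _ = (aeval pt).range
    rw [← Algebra.adjoin_range_eq_range_aeval]
    apply le_antisymm
    · apply Algebra.adjoin_le
      rintro y (rfl | ⟨k, rfl⟩)
      · exact Algebra.subset_adjoin ⟨none, rfl⟩
      · by_cases hk : k = k₀
        · show z k / z k₀ ∈ _
          rw [hk, div_self hz0]
          exact one_mem _
        · exact Algebra.subset_adjoin ⟨some ⟨k, hk⟩, rfl⟩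
    · apply Algebra.adjoin_mono
      rintro y ⟨o, rfl⟩
      cases o with
      | none => exact Or.inl rfl
      | some k => exact Or.inr ⟨k.1, rfl⟩
  have hlocOf' : IsLocOf 𝒪 (eW.range : Set F) := by
    rw [← hrange]; exact hlocOf
  have hW : ∀ w, eW w ∈ 𝒪 := fun w => hlocOf'.1 _ ⟨w, rfl⟩
  have hprp : pr (p : W) = pr (a' ^ (j + 1) * b' ^ j) := by
    rw [hR1, map_sub] at hprR1
    exact sub_eq_zero.1 hprR1
  have hprG : pr (aeval T g + a' ^ (p - 1 - j) * b' ^ (p - j)) = 0 := by
    have h2 : aeval T g + a' ^ (p - 1 - j) * b' ^ (p - j) = ε ^ 2 * E + r * R1 := by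
      rw [hr]; ring
    rw [h2, map_add, map_mul, map_mul, hprE, hprR1]
    simp
  refine hP 𝒪 p j co g t i₀ a b hD pr hprs eW hker hW hlocOf' T a' b' heT hea heb hTs
    (by rw [hTsum]) hprp hprG ?_ ?_
  · -- fractions
    obtain ⟨hFa, hFb, hFT⟩ := hFAB 𝒪 p j co g t i₀ a b hD pr eW hker T a' b' heT hea heb hTs
      (by rw [hTsum]) hprp
    obtain ⟨f1, f2, f3, f4, f5, f6, f7⟩ := hFRC pr eW hker (fun i : {i : ι // i ≠ i₀} => T i)
    have g1 : ∀ k, Frc pr eW (fun i : {i : ι // i ≠ i₀} => T i) (ε * Yh k) := by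
      intro k
      cases k with
      | none => exact hFa
      | some k =>
        cases k with
        | none =>
          have h1 : ε * Yh (some none) = b' + algebraMap R W b₀ := by
            show ε * Yh (some none) = ε * Yh (some none) - algebraMap R W b₀ + algebraMap R W b₀
            ring
          rw [h1]
          exact f3 _ _ hFb (f1 b₀)
        | some k =>
          have h1 : ε * Yh (some (some k)) = T k.1 + algebraMap R W (-(c k.1 : R)) := by
            have h2 : T k.1 = (c k.1 : W) + ε * Yh (some (some k)) := Tc_rest _ _ _ _ _ k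
            rw [h2, map_neg, map_natCast]; ring
          rw [h1]
          exact f3 _ _ (hFT _) (f1 _)
    have g2 : Frc pr eW (fun i : {i : ι // i ≠ i₀} => T i) ε := by
      have := g1 k₀
      rwa [hYk0, mul_one] at this
    have g3 : ∀ k, Frc pr eW (fun i : {i : ι // i ≠ i₀} => T i) (Yh k) := by
      intro k
      refine f6 ε (Yh k) ?_ g2 (g1 k)
      rw [heε]; exact hz0
    apply f7 (Set.range X) MvPolynomial.adjoin_range_X
    rintro w ⟨o, rfl⟩
    cases o with
    | none => exact g2
    | some k =>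
      have h1 : (X (some k) : W) = Yh k.1 := by
        show X (some k) = tauI k₀ k.1
        unfold tauI
        rw [dif_neg k.2]
      rw [h1]
      exact g3 _
  · intro q _ hq
    have h1 : pr (X none) ∈ q := by
      rw [hq]
      show ¬ U 𝒪 (eW ε)
      rw [heε]; exact hzU
    exact hBLR (p : R) hD.irr Q hQ k₀ (pr : W →+* A) hprs h h' hprk q h1

end Pool.Agent.H945R2.D
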