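import Pool.Agent.H945R2.D.Props

/-! CL: classification of the local subrings. -/

set_option autoImplicit false

namespace Pool.Agent.H945R2.D

open Pool.Agent.H918R2.Quad

theorem CL_ok : S_CL := by
  intro F _ 𝒪 _hloc p hp π L G hπ hL hπO _hLO hG hnU hrel hdich
  classical
  -- the predicate whose largest witness is used
  let P : ℕ → Prop := fun j => π / L ^ j ∈ 𝒪 ∧ ¬ U 𝒪 (π / L ^ j)
  have hP0 : P 0 := by
    refine ⟨?_, ?_⟩
    · simpa using hπO
    · simpa using hnU
  obtain ⟨j, hjp, hPj, hmax⟩ : ∃ j, j < p ∧ P j ∧ (j + 1 < p → ¬ P (j + 1)) := by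
    by_contra hcon
    push Not at hcon
    have hall : ∀ j, j < p → P j := by
      intro j
      induction j with
      | zero => intro _; exact hP0
      | succ j ih =>
        intro hj
        exact (hcon j (by omega) (ih (by omega))).2
    have := hcon (p - 1) (by omega) (hall (p - 1) (by omega))
    omega
  have hLj : L ^ j ≠ 0 := pow_ne_zero _ hL
  have hLj1 : L ^ (j + 1) ≠ 0 := pow_ne_zero _ hL
  have ha0 : π / L ^ j ≠ 0 := div_ne_zero hπ hLj
  have hb0 : L ^ (j + 1) / π ≠ 0 := div_ne_zero hLj1 hπ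
  have hab : L = π / L ^ j * (L ^ (j + 1) / π) := by
    rw [pow_succ]
    field_simp
  have hpi : π = (π / L ^ j) ^ (j + 1) * (L ^ (j + 1) / π) ^ j := by
    have h1 : (π / L ^ j) ^ (j + 1) * (L ^ (j + 1) / π) ^ j =
        π / L ^ j * (π / L ^ j * (L ^ (j + 1) / π)) ^ j := by
      rw [mul_pow, pow_succ]; ring
    rw [h1, ← hab]
    field_simp
  have hGeq : G + (π / L ^ j) ^ (p - 1 - j) * (L ^ (j + 1) / π) ^ (p - j) = 0 := by
    have h2 : (π / L ^ j) ^ p * (L ^ (j + 1) / π) ^ p = -(π * G) := by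
      rw [← mul_pow, ← hab, hrel]
    have h3 : (π / L ^ j) ^ p = (π / L ^ j) ^ (j + 1) * (π / L ^ j) ^ (p - 1 - j) := by
      rw [← pow_add]; congr 1; omega
    have h4 : (L ^ (j + 1) / π) ^ p = (L ^ (j + 1) / π) ^ j * (L ^ (j + 1) / π) ^ (p - j) := by
      rw [← pow_add]; congr 1; omega
    have h5 : π * ((π / L ^ j) ^ (p - 1 - j) * (L ^ (j + 1) / π) ^ (p - j)) = -(π * G) := by
      rw [← h2, h3, h4]
      have key : ∀ a b A B : F, π = a * b → π * (A * B) = a * A * (b * B) := by
        intro a b A B h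
        rw [h]; ring
      exact key _ _ _ _ hpi
    have h6 : π * (G + (π / L ^ j) ^ (p - 1 - j) * (L ^ (j + 1) / π) ^ (p - j)) = 0 := by
      rw [mul_add, h5]; ring
    exact (mul_eq_zero.1 h6).resolve_left hπ
  have hbO : L ^ (j + 1) / π ∈ 𝒪 := by
    rcases Nat.lt_or_ge (j + 1) p with hlt | hge
    · rcases hdich (j + 1) (by omega) hlt with h | h
      · have hn := hmax hlt
        have hU : U 𝒪 (π / L ^ (j + 1)) := by
          by_contra hU
          exact hn ⟨h, hU⟩
        have := hU.2.2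
        rwa [inv_div] at this
      · exact h
    · have hjp' : j + 1 = p := by omega
      rw [hjp', hrel]
      have : -(π * G) / π = -G := by
        field_simp
      rw [this]
      exact 𝒪.neg_mem hG
  exact ⟨j, π / L ^ j, L ^ (j + 1) / π, hjp, hPj.1, hbO, hPj.2, hab, hpi, hGeq⟩

end Pool.Agent.H945R2.D
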