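import Pool.Agent.H945R2.D.Props2

/-! DEG: degrees of the factors. -/

set_option autoImplicit false

open scoped Pointwise

namespace Pool.Agent.H945R2.D

open Pool.Agent.H918R2.Quad MvPolynomial

namespace DEGaux

variable {R F ι : Type} [CommRing R] [Field F] [Algebra R F]

theorem natmul_mem {M : Submodule R F} (n : ℕ) {y : F} (hy : y ∈ M) : (n : F) * y ∈ M := by
  rw [← nsmul_eq_mul]
  exact nsmul_mem hy n

theorem natpow_mem {M : Submodule R F} (n k : ℕ) {y : F} (hy : y ∈ M) :
    (n : F) ^ k * y ∈ M := by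
  have := natmul_mem (n ^ k) hy
  rwa [Nat.cast_pow] at this

theorem x_mem (x : ι → F) (i : ι) : x i ∈ Submodule.span R (Set.range x) :=
  Submodule.subset_span ⟨i, rfl⟩

theorem dif_mem (x : ι → F) (i i₀ : ι) (n : ℕ) :
    x i - (n : F) * x i₀ ∈ Submodule.span R (Set.range x) :=
  Submodule.sub_mem _ (x_mem x i) (natmul_mem n (x_mem x i₀))

theorem sum_x_mem [Fintype ι] (x : ι → F) : ∑ i, x i ∈ Submodule.span R (Set.range x) :=
  Submodule.sum_mem _ fun i _ => x_mem x i

theorem pow_mem' {x : ι → F} {n : ℕ} {y : F} (hy : y ∈ Set.range x ^ n) :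
    y ∈ Submodule.span R (Set.range x) ^ n := by
  rw [Submodule.span_pow]
  exact Submodule.subset_span hy

end DEGaux

open DEGaux in
theorem DEG_ok : S_DEG := by
  intro R F ι _ _ _ _ _ p hp g x i₀ S hS
  rcases hS with rfl | ⟨j, _, _, rfl⟩ | ⟨c, β, _, rfl | ⟨j, _, _, rfl⟩ | rfl⟩
  · refine ⟨1, fun h hh => ?_, 0, fun y hy => ?_⟩
    · rw [pow_one]
      exact Submodule.subset_span hh
    · rw [pow_one] at hy
      rw [pow_zero, one_mul]
      exact Submodule.subset_span hy
  · refine ⟨j, fun h hh => ?_, 1, fun y hy => ?_⟩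
    · rw [← Submodule.span_pow]
      rcases hh with ⟨y, hy, rfl⟩ | rfl
      · exact natmul_mem p (pow_mem' hy)
      · exact Submodule.pow_mem_pow _ (sum_x_mem x) j
    · refine Submodule.subset_span (Or.inl ⟨y, hy, ?_⟩)
      rw [pow_one]
  · refine ⟨1, fun h hh => ?_, 2, fun y hy => ?_⟩
    · rw [pow_one]
      rcases hh with ⟨i, rfl⟩ | rfl | ⟨i, rfl⟩
      · exact natpow_mem p 2 (x_mem x i)
      · refine Submodule.add_mem _ (sum_x_mem x) ?_
        rw [mul_assoc]
        refine natmul_mem p ?_
        rw [← Algebra.smul_def]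
        exact Submodule.smul_mem _ _ (x_mem x i₀)
      · exact natmul_mem p (dif_mem x i i₀ (c i))
    · rw [pow_one] at hy
      obtain ⟨i, rfl⟩ := hy
      exact Submodule.subset_span (Or.inl ⟨i, rfl⟩)
  · refine ⟨2 * j + 1, fun h hh => ?_, 2, fun y hy => ?_⟩
    · rw [← Submodule.span_pow]
      rcases hh with ⟨y, hy, rfl⟩ | rfl | ⟨i, y, hy, rfl⟩
      · exact natpow_mem p 2 (pow_mem' hy)
      · exact Submodule.pow_mem_pow _ (sum_x_mem x) _
      · have h1 := Submodule.mul_mem_mul (Submodule.mul_mem_mul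
          (Submodule.pow_mem_pow _ (sum_x_mem (R := R) x) j) (dif_mem x i i₀ (c i)))
          (pow_mem' (R := R) hy)
        have e : Submodule.span R (Set.range x) ^ j * Submodule.span R (Set.range x) *
            Submodule.span R (Set.range x) ^ j = Submodule.span R (Set.range x) ^ (2 * j + 1) := by
          rw [← pow_succ, ← pow_add]
          congr 1
          omega
        rw [e] at h1
        have h2 := natmul_mem p h1
        have e2 : (p : F) * ((∑ i, x i) ^ j * (x i - (c i : F) * x i₀) * y) =
            (p : F) * (∑ i, x i) ^ j * (x i - (c i : F) * x i₀) * y := by ring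
        rwa [e2] at h2
    · exact Submodule.subset_span (Or.inl ⟨y, hy, rfl⟩)
  · refine ⟨p, fun h hh => ?_, 2, fun y hy => ?_⟩
    · rw [← Submodule.span_pow]
      have e : Submodule.span R (Set.range x) ^ (p - 1) * Submodule.span R (Set.range x) =
          Submodule.span R (Set.range x) ^ p := by
        rw [← pow_succ]
        congr 1
        omega
      rcases hh with ⟨y, hy, rfl⟩ | ⟨y, hy, rfl⟩ | ⟨i, rfl⟩ | ⟨i, y, hy, rfl⟩
      · exact natpow_mem p 2 (pow_mem' hy)
      · have h1 := Submodule.mul_mem_mul (pow_mem' (R := R) hy) (sum_x_mem (R := R) x)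
        rw [e] at h1
        have h2 := natmul_mem p h1
        have e2 : (p : F) * (y * ∑ i, x i) = (p : F) * (∑ i, x i) * y := by ring
        rwa [e2] at h2
      · rw [← e]
        refine Submodule.mul_mem_mul (Submodule.add_mem _ ?_ ?_) (x_mem x i)
        · exact natmul_mem p (Submodule.pow_mem_pow _ (x_mem x i₀) _)
        · exact Submodule.pow_mem_pow _ (sum_x_mem x) _
      · have h1 := Submodule.mul_mem_mul (pow_mem' (R := R) hy) (dif_mem (R := R) x i i₀ (c i))
        rw [e] at h1
        have h2 := natmul_mem p h1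
        have e2 : (p : F) * (y * (x i - (c i : F) * x i₀)) =
            (p : F) * (x i - (c i : F) * x i₀) * y := by ring
        rwa [e2] at h2
    · exact Submodule.subset_span (Or.inl ⟨y, hy, rfl⟩)

end Pool.Agent.H945R2.D
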