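import Pool.Agent.H945R2.D.Props

set_option autoImplicit false

open scoped Pointwise

namespace Pool.Agent.H945R2.D

open Pool.Agent.H918R2.Quad MvPolynomial

namespace EXP0aux

/-- Fermat. -/
theorem exists_kappa {R : Type} [CommRing R] (p : ℕ) (hp : p.Prime) (co : R) (c : ℕ)
    (h1 : (p : R) ∣ co - 1) (hc1 : 1 ≤ c) (hc2 : c < p) :
    ∃ κ : R, co * (c : R) ^ (p - 1) = 1 + p * κ := by
  have hcop : IsCoprime (c : ℤ) (p : ℤ) := by
    rw [Nat.isCoprime_iff_coprime]
    exact ((Nat.Prime.coprime_iff_not_dvd hp).2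
      (fun h => absurd (Nat.le_of_dvd (by omega) h) (by omega))).symm
  have h2 := Int.ModEq.pow_card_sub_one_eq_one hp hcop
  have h3 : (p : ℤ) ∣ (c : ℤ) ^ (p - 1) - 1 := (Int.modEq_iff_dvd.1 h2.symm)
  obtain ⟨z, hz⟩ := h3
  have h4 : (c : R) ^ (p - 1) - 1 = (p : R) * (z : R) := by
    have := congrArg (Int.cast : ℤ → R) hz
    push_cast at this
    exact this
  obtain ⟨w, hw⟩ := h1
  refine ⟨w * (c : R) ^ (p - 1) + z, ?_⟩
  linear_combination (c : R) ^ (p - 1) * hw + h4

theorem exists_kappas {R ι : Type} [CommRing R] [Fintype ι] (p : ℕ)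
    (co : ι → R) (g : MvPolynomial ι R) (hc : Coef p co g) (i₀ : ι) (c : ι → ℕ) (β : R)
    (hs : Special p g i₀ c β) : ∃ κ : ι → R, ∀ i, co i * (c i : R) ^ (p - 1) = 1 + p * κ i := by
  have := fun i => exists_kappa p hc.prime (co i) (c i) (hc.one i) (hs.pos i) (hs.lt i)
  choose κ hκ using this
  exact ⟨κ, hκ⟩

/-- The direction. -/
def eta {ι B : Type} [Fintype ι] [DecidableEq ι] [CommRing B] (s d : ι) (y : Rest s d → B)
    (m : B) (i : ι) : B :=
  if h : i = s then 0 else if h' : i = d then m - ∑ k, y k else y ⟨i, h, h'⟩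

theorem Tc_eq {ι B : Type} [Fintype ι] [DecidableEq ι] [CommRing B] (hS : S_SUMT) (s d : ι)
    (hsd : s ≠ d) (p : ℕ) (c : ι → ℕ) (σ : ℕ) (hc : c s = 1) (hσ : ∑ i, c i = p * σ)
    (ε ρ l : B) (hp : (p : B) = ε * ρ) (y : Rest s d → B) :
    Tc s d (fun i => (c i : B)) (fun k => ε * y k) (ε * l) =
      fun i => (c i : B) + ε * eta s d y (l - σ * ρ) i := by
  have h1 := (hS s d hsd (fun i => (c i : B)) (fun k => ε * y k) (ε * l)).2 (fun i => (c i : B))
  have h2 : ∑ i, (c i : B) = ε * ρ * σ := by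
    rw [← hp]
    have := congrArg (Nat.cast : ℕ → B) hσ
    push_cast at this
    exact this
  have h3 : (1 : B) + c d + ∑ k : Rest s d, (c k : B) = ε * ρ * σ := by
    rw [← h2, h1, hc]
    simp
  funext i
  unfold Tc eta
  by_cases h : i = s
  · subst h
    simp [hc]
  · by_cases h' : i = d
    · subst h'
      simp only [dif_neg h, if_neg h, dite_true, if_true, Finset.sum_add_distrib,
        ← Finset.mul_sum]
      linear_combination (-1 : B) * h3
    · simp only [dif_neg h, dif_neg h', if_neg h, if_neg h']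

theorem expand (hT : S_TAY2) (hS : S_SUMT) {R ι : Type} [CommRing R] [IsDomain R] [Fintype ι]
    [DecidableEq ι] (p : ℕ) (co : ι → R) (g : MvPolynomial ι R) (hc : Coef p co g) (i₀ : ι)
    (c : ι → ℕ) (β : R) (hs : Special p g i₀ c β) (d : ι) (hd : i₀ ≠ d) (κ : ι → R)
    (hκ : ∀ i, co i * (c i : R) ^ (p - 1) = 1 + p * κ i) (σ : ℕ) (hσ : ∑ i, c i = p * σ)
    {B : Type} [CommRing B] [Algebra R B] (ε ρ l : B) (hp : (p : B) = ε * ρ)
    (y : Rest i₀ d → B) :
    ∃ h : B, aeval (Tc i₀ d (fun i => (c i : B)) (fun k => ε * y k) (ε * l)) g =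
      p * algebraMap R B β + ε * l + ε ^ 2 * (((p - 1) / 2 : ℕ) *
        (∑ k : Rest i₀ d, algebraMap R B (co k) * (c k : B) ^ (p - 2) * y k ^ 2 +
          algebraMap R B (co d) * (c d : B) ^ (p - 2) * (l - σ * ρ - ∑ k, y k) ^ 2) +
        ρ * (∑ k : Rest i₀ d, algebraMap R B (κ k) * y k +
          algebraMap R B (κ d) * (l - σ * ρ - ∑ k, y k)) + ε * h) := by
  have h1 := Tc_eq hS i₀ d hd p c σ hs.one hσ ε ρ l hp y
  obtain ⟨h, hh⟩ := hT p co g hc i₀ c β hs κ hκ ε ρ (eta i₀ d y (l - σ * ρ)) hp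
  refine ⟨h, ?_⟩
  have h2 := hS i₀ d hd (fun i => (c i : B)) (fun k => ε * y k) (ε * l)
  rw [h1, hh]
  have h3 : ∑ i, ((c i : B) + ε * eta i₀ d y (l - σ * ρ) i) = ε * l := by
    have := h2.1
    rw [h1] at this
    exact this
  have es : eta i₀ d y (l - σ * ρ) i₀ = 0 := by simp [eta]
  have ed : eta i₀ d y (l - σ * ρ) d = l - σ * ρ - ∑ k, y k := by
    simp [eta, hd.symm]
  have ek : ∀ k : Rest i₀ d, eta i₀ d y (l - σ * ρ) k = y k := by
    intro k
    simp only [eta]
    rw [dif_neg k.2.1, dif_neg k.2.2]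
  rw [h3, h2.2 (fun i => algebraMap R B (co i) * (c i : B) ^ (p - 2) *
      eta i₀ d y (l - σ * ρ) i ^ 2),
    h2.2 (fun i => algebraMap R B (κ i) * eta i₀ d y (l - σ * ρ) i)]
  simp only [es, ed, ek]
  ring

end EXP0aux

open EXP0aux in
theorem EXP0_ok (hT : S_TAY2) (hS : S_SUMT) : S_EXP0 := by
  intro R ι _ _ _ _ p co g hc i₀ c β hs d hd
  obtain ⟨κ, hκ⟩ := exists_kappas p co g hc i₀ c β hs
  obtain ⟨σ, hσ⟩ := hs.sum
  have hp3 : 3 ≤ p := by
    have := hc.prime.two_le
    have := hc.odd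
    omega
  refine ⟨((p - 1) / 2 : ℕ) * (co d * (c d : R) ^ (p - 2)) * (β + σ) ^ 2 - κ d * (β + σ) +
    (if p = 3 then - β ^ 3 else 0),
    fun k => 2 * ((p - 1) / 2 : ℕ) * (co d * (c d : R) ^ (p - 2)) * (β + σ) + κ k - κ d, ?_⟩
  intro B _ _ ε Y hpB
  have hpB' : (p : B) = ε * Y none := by
    rw [hpB]
    ring
  obtain ⟨h, hh⟩ := expand hT hS p co g hc i₀ c β hs d hd κ hκ σ hσ ε (Y none)
    (Y none * (ε * Y (some none) - algebraMap R B β)) hpB' (fun k => Y (some (some k)))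
  have e1 : (ε * Y none) * (ε * Y (some none) - algebraMap R B β) =
    ε * (Y none * (ε * Y (some none) - algebraMap R B β)) := by ring
  have hlast : ∃ h' : B, (ε * Y none) ^ (p - 1 - 0) *
      (ε * Y (some none) - algebraMap R B β) ^ (p - 0) =
      ε ^ 2 * (Y none * (algebraMap R B (if p = 3 then - β ^ 3 else 0) * Y none) + ε * h') := by
    by_cases h3 : p = 3
    · subst h3
      simp only [if_true, map_neg, map_pow]
      refine ⟨Y none ^ 2 * (Y (some none) * ((ε * Y (some none) - algebraMap R B β) ^ 2 -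
        (ε * Y (some none) - algebraMap R B β) * algebraMap R B β + (algebraMap R B β) ^ 2)), ?_⟩
      norm_num
      ring
    · obtain ⟨n, rfl⟩ : ∃ n, p = n + 4 := ⟨p - 4, by omega⟩
      rw [if_neg h3]
      refine ⟨ε ^ n * Y none ^ (n + 3) * (ε * Y (some none) - algebraMap R B β) ^ (n + 4), ?_⟩
      have : n + 4 - 1 - 0 = n + 3 := by omega
      rw [this, Nat.sub_zero, map_zero]
      ring
  obtain ⟨h', hh'⟩ := hlast
  rw [e1, hh, hh']
  unfold Phi
  simp only [map_add, map_sub, map_mul, map_pow, map_natCast, map_one, map_ofNat]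
  have es : ∑ k : Rest i₀ d, (2 * (((p - 1) / 2 : ℕ) : B) * (algebraMap R B (co d) *
      (c d : B) ^ (p - 2)) * (algebraMap R B β + (σ : B)) + algebraMap R B (κ k) -
      algebraMap R B (κ d)) * Y (some (some k)) =
      (2 * (((p - 1) / 2 : ℕ) : B) * (algebraMap R B (co d) *
      (c d : B) ^ (p - 2)) * (algebraMap R B β + (σ : B)) - algebraMap R B (κ d)) *
        ∑ k : Rest i₀ d, Y (some (some k)) +
      ∑ k : Rest i₀ d, algebraMap R B (κ k) * Y (some (some k)) := by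
    rw [Finset.mul_sum, ← Finset.sum_add_distrib]
    apply Finset.sum_congr rfl
    intro k _
    ring
  rw [es, hpB']
  generalize (∑ k : Rest i₀ d, Y (some (some k))) = S
  generalize (∑ k : Rest i₀ d, algebraMap R B (κ k) * Y (some (some k))) = SK
  generalize (∑ k : Rest i₀ d, algebraMap R B (co k) * (c k : B) ^ (p - 2) *
    Y (some (some k)) ^ 2) = SW
  generalize algebraMap R B (if p = 3 then -β ^ 3 else 0) = Z
  generalize (((p - 1) / 2 : ℕ) : B) = K
  generalize algebraMap R B (co d) = CD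
  generalize (c d : B) ^ (p - 2) = CC
  generalize algebraMap R B (κ d) = KD
  generalize algebraMap R B β = b
  generalize (σ : B) = s
  generalize Y none = al
  generalize Y (some none) = ga
  refine ⟨h + h' + K * (CD * CC) * (-2 * (al * (b + s) + S) * al * ga + ε * al ^ 2 * ga ^ 2) +
    KD * al ^ 2 * ga, ?_⟩
  ring

end Pool.Agent.H945R2.D
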