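import Pool.Agent.H945R2.D.EXP0

set_option autoImplicit false

open scoped Pointwise

namespace Pool.Agent.H945R2.D

open Pool.Agent.H918R2.Quad MvPolynomial

open EXP0aux in
theorem EXPB_ok (hT : S_TAY2) (hS : S_SUMT) : S_EXPB := by
  intro R ι _ _ _ _ p co g hc i₀ c β hs d hd
  obtain ⟨κ, hκ⟩ := exists_kappas p co g hc i₀ c β hs
  obtain ⟨σ, hσ⟩ := hs.sum
  have hp3 : 3 ≤ p := by
    have := hc.prime.two_le
    have := hc.odd
    omega
  refine ⟨((p - 1) / 2 : ℕ) * (co d * (c d : R) ^ (p - 2)) +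
    (if p = 3 then - β else 0),
    fun k => 2 * ((p - 1) / 2 : ℕ) * (co d * (c d : R) ^ (p - 2)), ?_⟩
  intro B _ _ ε Y hpB
  rw [map_one] at hpB ⊢
  obtain ⟨n, hn⟩ : ∃ n, p = n + 3 := ⟨p - 3, by omega⟩
  -- `ρ = ε * ρ'`
  set ρ' : B := ε ^ n * (Y none) ^ (n + 2) * (ε * Y (some none) - 1) ^ (n + 1) with hρ'
  have hpB' : (p : B) = ε * (ε * ρ') := by
    rw [hpB, hn, hρ']
    have : n + 3 - 2 = n + 1 := by omega
    rw [this]
    ring
  obtain ⟨h, hh⟩ := expand hT hS p co g hc i₀ c β hs d hd κ hκ σ hσ ε (ε * ρ')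
    (Y none * (ε * Y (some none) - 1)) hpB' (fun k => Y (some (some k)))
  have e1 : (ε * Y none) * (ε * Y (some none) - 1) =
    ε * (Y none * (ε * Y (some none) - 1)) := by ring
  have hlast : ∃ h' : B, ρ' * algebraMap R B β =
      (Y none * (algebraMap R B (if p = 3 then - β else 0) * Y none) + ε * h') := by
    by_cases h3 : p = 3
    · have hn0 : n = 0 := by omega
      rw [hρ', if_pos h3, hn0]
      simp only [map_neg]
      refine ⟨Y none ^ 2 * Y (some none) * algebraMap R B β, ?_⟩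
      ring
    · obtain ⟨m, hm⟩ : ∃ m, n = m + 1 := ⟨n - 1, by omega⟩
      rw [if_neg h3, hρ', hm]
      refine ⟨ε ^ m * Y none ^ (m + 1 + 2) * (ε * Y (some none) - 1) ^ (m + 1 + 1) *
        algebraMap R B β, ?_⟩
      rw [map_zero]
      ring
  obtain ⟨h', hh'⟩ := hlast
  have e2 : p - 1 - (p - 2) = 1 := by omega
  have e3 : p - (p - 2) = 2 := by omega
  rw [e1, hh, e2, e3]
  unfold Phi
  simp only [map_add, map_sub, map_mul, map_pow, map_natCast, map_one, map_ofNat, map_neg]
  rw [← Finset.mul_sum]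
  rw [hpB']
  generalize (∑ k : Rest i₀ d, Y (some (some k))) = S
  generalize (∑ k : Rest i₀ d, algebraMap R B (κ k) * Y (some (some k))) = SK
  generalize (∑ k : Rest i₀ d, algebraMap R B (co k) * (c k : B) ^ (p - 2) *
    Y (some (some k)) ^ 2) = SW
  generalize algebraMap R B (if p = 3 then -β else 0) = Z at *
  generalize (((p - 1) / 2 : ℕ) : B) = K
  generalize algebraMap R B (co d) = CD
  generalize (c d : B) ^ (p - 2) = CC
  generalize algebraMap R B (κ d) = KD
  generalize algebraMap R B β = b at *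
  generalize (σ : B) = s
  clear_value ρ'
  generalize Y none = al at *
  generalize Y (some none) = ga at *
  -- `η_d = -al - S + ε * (al * ga - s * ρ')`
  refine ⟨h + h' + al * ga ^ 2 + K * (CD * CC) * (-2 * (al + S) * (al * ga - s * ρ') +
      ε * (al * ga - s * ρ') ^ 2) +
    ρ' * (SK + KD * (al * (ε * ga - 1) - s * (ε * ρ') - S)), ?_⟩
  linear_combination ε ^ 2 * hh'

end Pool.Agent.H945R2.D
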