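import Pool.Agent.H945R2.D.Props

/-! Task EXPJ (helper873): second order expansion, kind `j`. -/

set_option autoImplicit false

open scoped Pointwise

namespace Pool.Agent.H945R2.D

open Pool.Agent.H918R2.Quad MvPolynomial

namespace EXPJaux

theorem kap {R : Type} [CommRing R] (p : ℕ) (hp : p.Prime) (co : R) (hco : (p : R) ∣ co - 1)
    (c : ℕ) (h1 : 1 ≤ c) (h2 : c < p) : ∃ κ : R, co * (c : R) ^ (p - 1) = 1 + p * κ := by
  haveI : Fact p.Prime := ⟨hp⟩
  obtain ⟨a, ha⟩ := hco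
  have hc0 : (c : ZMod p) ≠ 0 := by
    intro h
    rw [ZMod.natCast_eq_zero_iff] at h
    have := Nat.le_of_dvd (by omega) h
    omega
  have h3 : ((c : ℤ) ^ (p - 1) - 1 : ℤ) = ((c : ℤ) ^ (p - 1) - 1) := rfl
  have h4 : (((c : ℤ) ^ (p - 1) - 1 : ℤ) : ZMod p) = 0 := by
    push_cast
    rw [ZMod.pow_card_sub_one_eq_one hc0, sub_self]
  rw [ZMod.intCast_zmod_eq_zero_iff_dvd] at h4
  obtain ⟨b, hb⟩ := h4
  have h5 : (c : R) ^ (p - 1) = 1 + p * b := by
    have h6 : (c : ℤ) ^ (p - 1) = 1 + p * b := by linarith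
    have := congrArg (Int.cast : ℤ → R) h6
    push_cast at this
    exact this
  refine ⟨a + b + p * a * b, ?_⟩
  have h6 : co = 1 + p * a := by rw [← ha]; ring
  rw [h5, h6]
  ring

/-- the algebra behind the expansion, with everything as variables -/
theorem alg {B : Type} [CommRing B] (ε al ga S E m Q w be sg h kk p' G1 G2 : B) (j n : ℕ)
    (hj : 1 ≤ j) (hn : n = j + 2 + (n - j - 2)) (hρ : p' = ε * (ε ^ (2 * j) * al ^ (j + 1) * ga ^ j))
    (hG1 : G1 = p' * be + ε * al * (ε * ga) +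
      ε ^ 2 * (m * (Q + w * E ^ 2) + (ε ^ (2 * j) * al ^ (j + 1) * ga ^ j) * kk + ε * h))
    (hG2 : G2 = (ε * al) ^ (n - 1 - j) * (ε * ga) ^ (n - j))
    (hE : E = ε * (al * ga) - (ε ^ (2 * j) * al ^ (j + 1) * ga ^ j) * sg - S) :
    ∃ h' : B, G1 + G2 = ε ^ 2 * (al * ga + m * (Q + w * S ^ 2) + ε * h') := by
  obtain ⟨i, rfl⟩ : ∃ i, j = i + 1 := ⟨j - 1, by omega⟩
  obtain ⟨q, rfl⟩ : ∃ q, n = (i + 1) + 2 + q := ⟨n - (i + 1) - 2, hn⟩
  have e1 : i + 1 + 2 + q - 1 - (i + 1) = q + 1 := by omega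
  have e2 : i + 1 + 2 + q - (i + 1) = q + 2 := by omega
  rw [e1, e2] at hG2
  set r : B := ε ^ (2 * i + 1) * al ^ (i + 1 + 1) * ga ^ (i + 1) with hr
  have hr' : ε ^ (2 * (i + 1)) * al ^ (i + 1 + 1) * ga ^ (i + 1) = ε * r := by
    rw [hr]
    ring
  rw [hr'] at hρ hG1 hE
  refine ⟨ε ^ (2 * i) * al ^ (i + 1 + 1) * ga ^ (i + 1) * be +
    m * w * (-(2 * S * (al * ga - r * sg)) + ε * (al * ga - r * sg) ^ 2) + r * kk + h +
    ε ^ (2 * q) * al ^ (q + 1) * ga ^ (q + 2), ?_⟩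
  have hb : r = ε * (ε ^ (2 * i) * al ^ (i + 1 + 1) * ga ^ (i + 1)) := by
    rw [hr]
    ring
  set r0 : B := ε ^ (2 * i) * al ^ (i + 1 + 1) * ga ^ (i + 1) with hr0
  rw [hG1, hG2, hρ, hE]
  have hE' : ε * (al * ga) - ε * r * sg - S = ε * (al * ga - r * sg) - S := by ring
  rw [hE']
  have h1 : (ε * al) ^ (q + 1) * (ε * ga) ^ (q + 2) =
      ε ^ 3 * (ε ^ (2 * q) * al ^ (q + 1) * ga ^ (q + 2)) := by
    ring
  rw [h1]
  have h2 : ε * (ε * r) * be = ε ^ 3 * (r0 * be) := by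
    rw [hb]
    ring
  rw [h2]
  ring

end EXPJaux

theorem EXPJ_ok (hT : S_TAY2) (hS : S_SUMT) : S_EXPJ := by
  intro R ι _ _ _ _ p co g hco i₀ c β hsp d hd j hj1 hj2 B _ _ ε Y hp
  classical
  -- data
  have hκ : ∀ i, ∃ κ : R, co i * (c i : R) ^ (p - 1) = 1 + p * κ := fun i =>
    EXPJaux.kap p hco.prime (co i) (hco.one i) (c i) (hsp.pos i) (hsp.lt i)
  choose κ hκ using hκ
  obtain ⟨σ, hσ⟩ := hsp.sum
  set al : B := Y none with hal
  set ga : B := Y (some none) with hga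
  set y : Rest i₀ d → B := fun k => Y (some (some k)) with hy
  set S : B := ∑ k, y k with hSdef
  set ρ : B := ε ^ (2 * j) * al ^ (j + 1) * ga ^ j with hρ
  have hpρ : (p : B) = ε * ρ := by
    rw [hp, map_zero, sub_zero, hρ, mul_pow, mul_pow]
    ring
  set ηd : B := ε * (al * ga) - ρ * σ - S with hηd
  set η : ι → B := fun i => if h : i = i₀ then 0 else if h' : i = d then ηd else y ⟨i, h, h'⟩
    with hη
  have η0 : η i₀ = 0 := by
    rw [hη]
    simp
  have ηd' : η d = ηd := by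
    rw [hη]
    simp [hd.symm]
  have ηk : ∀ k : Rest i₀ d, η k = y k := by
    intro k
    rw [hη]
    simp [k.2.1, k.2.2]
  have hsum := fun (f : ι → B) => (hS (B := B) i₀ d hd (fun i => (c i : B)) (fun k => ε * y k)
    (ε * al * (ε * ga))).2 f
  have hsumT := (hS (B := B) i₀ d hd (fun i => (c i : B)) (fun k => ε * y k)
    (ε * al * (ε * ga))).1
  have hcsum : (c i₀ : B) + c d + ∑ k : Rest i₀ d, (c k : B) = p * σ := by
    rw [← hsum (fun i => (c i : B)), ← Nat.cast_sum, hσ]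
    push_cast
    ring
  have hTc : (Tc i₀ d (fun i => (c i : B)) (fun k => ε * y k) (ε * al * (ε * ga))) =
      fun i => (c i : B) + ε * η i := by
    funext i
    unfold Tc
    by_cases h : i = i₀
    · subst h
      rw [dif_pos rfl, η0, hsp.one]
      simp
    · rw [dif_neg h]
      by_cases h' : i = d
      · subst h'
        rw [dif_pos rfl, ηd', hηd, Finset.sum_add_distrib, ← Finset.mul_sum]
        have h1 : (c i₀ : B) = 1 := by rw [hsp.one]; simp
        rw [h1, hpρ] at hcsum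
        have h2 : (∑ k : Rest i₀ i, ((c k : ℕ) : B)) = ε * ρ * σ - 1 - c i := by
          rw [← hcsum]
          ring
        rw [h2, ← hSdef]
        ring
      · rw [dif_neg h']
        have : η i = y ⟨i, h, h'⟩ := ηk ⟨i, h, h'⟩
        rw [this]
  obtain ⟨h, hh⟩ := hT p co g hco i₀ c β hsp κ hκ ε ρ η hpρ
  have hb0 : ε * Y (some none) - algebraMap R B 0 = ε * ga := by
    rw [map_zero, sub_zero]
  have hmain := EXPJaux.alg ε al ga S ηd ((p - 1) / 2 : ℕ)
    (∑ k : Rest i₀ d, algebraMap R B (co k) * (c k : B) ^ (p - 2) * y k ^ 2)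
    (algebraMap R B (co d) * (c d : B) ^ (p - 2)) (algebraMap R B β) σ h
    (∑ i, algebraMap R B (κ i) * η i) p
    (aeval (fun i => (c i : B) + ε * η i) g) ((ε * al) ^ (p - 1 - j) * (ε * ga) ^ (p - j)) j p hj1
    (by omega) hpρ ?_ rfl hηd
  · obtain ⟨h', hh'⟩ := hmain
    refine ⟨h', ?_⟩
    rw [hb0]
    change aeval (Tc i₀ d (fun i => (c i : B)) (fun k => ε * y k) (ε * al * (ε * ga))) g +
      (ε * al) ^ (p - 1 - j) * (ε * ga) ^ (p - j) = _
    rw [hTc, hh']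
    unfold Phi
    simp only [map_one, map_zero, one_mul, zero_mul, add_zero, Finset.sum_const_zero]
    rfl
  · rw [hh, ← hTc, hsumT]
    rw [hsum (fun i => algebraMap R B (co i) * (c i : B) ^ (p - 2) * η i ^ 2)]
    simp only [η0, ηd', ηk]
    ring

end Pool.Agent.H945R2.D
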