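import Pool.Agent.H945R2.D.Props

/-! EXPL: first order expansion of the third relation (helper903). -/

set_option autoImplicit false

open scoped Pointwise

namespace Pool.Agent.H945R2.D

open Pool.Agent.H918R2.Quad MvPolynomial

namespace EXPLaux

theorem ideal_le {B κ : Type} [CommRing B] (a P : B) (u : κ → B) (h : a ∣ P) :
    Ideal.span {P} * Ideal.span ({a} ∪ Set.range u) ⊔ Ideal.span ({a} ∪ Set.range u) ^ 2 ≤
      Ideal.span {a} * Ideal.span ({a} ∪ Set.range u) ⊔ Ideal.span (Set.range u) := by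
  have hJ : Ideal.span ({a} ∪ Set.range u) = Ideal.span {a} ⊔ Ideal.span (Set.range u) :=
    Ideal.span_union _ _
  refine sup_le ?_ ?_
  · refine le_trans (Ideal.mul_mono_left ?_) le_sup_left
    exact Ideal.span_singleton_le_span_singleton.2 h
  · rw [sq]
    nth_rewrite 1 [hJ]
    rw [Ideal.sup_mul]
    exact sup_le_sup le_rfl Ideal.mul_le_left

theorem mem_form {B κ : Type} [CommRing B] [Fintype κ] (a P : B) (u : κ → B) (h : a ∣ P) (r : B)
    (hr : r ∈ Ideal.span {P} * Ideal.span ({a} ∪ Set.range u) ⊔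
      Ideal.span ({a} ∪ Set.range u) ^ 2) :
    ∃ w ∈ Ideal.span ({a} ∪ Set.range u), ∃ μ : κ → B, r = a * w + ∑ k, u k * μ k := by
  have h1 := ideal_le a P u h hr
  obtain ⟨x, hx, y, hy, hxy⟩ := Submodule.mem_sup.1 h1
  obtain ⟨w, hw, hw2⟩ := Ideal.mem_span_singleton_mul.1 hx
  obtain ⟨μ, hμ⟩ := Ideal.mem_span_range_iff_exists_fun.1 hy
  refine ⟨w, hw, μ, ?_⟩
  rw [← hxy, ← hw2, ← hμ]
  congr 1
  exact Finset.sum_congr rfl fun k _ => mul_comm _ _

end EXPLaux

open EXPLaux in
theorem EXPL_ok (hT : S_TAY1) (hS : S_SUMT) : S_EXPL := by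
  intro R ι _ _ _ _ p co g hco i₀ c β hsp d hd B _ _ a b u j hj hp
  have hp3 : 3 ≤ p := by
    have h2 := hco.prime.two_le
    have h3 := hco.odd
    omega
  have ha : a ∣ (p : B) := by
    rw [hp, pow_succ']
    exact ⟨a ^ j * b ^ j, by ring⟩
  obtain ⟨J, hJ⟩ : ∃ J : Ideal B, J = Ideal.span ({a} ∪ Set.range u) := ⟨_, rfl⟩
  have haJ : a ∈ J := by
    rw [hJ]
    exact Ideal.subset_span (Or.inl rfl)
  have huJ : ∀ k, u k ∈ J := fun k => by
    rw [hJ]
    exact Ideal.subset_span (Or.inr ⟨k, rfl⟩)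
  obtain ⟨T, hTdef⟩ : ∃ T : ι → B, T = Tc i₀ d (fun i => (c i : B)) u (a * b) := ⟨_, rfl⟩
  have hsum := (hS i₀ d hd (fun i => (c i : B)) u (a * b)).1
  rw [← hTdef] at hsum
  have hη : ∀ i, T i - (c i : B) ∈ J := by
    intro i
    rw [hTdef]
    unfold Tc
    split_ifs with h h'
    · rw [h, hsp.one, Nat.cast_one, sub_self]
      exact J.zero_mem
    · have h2 := (hS i₀ d hd (fun i => (c i : B)) u (a * b)).2 (fun i => (c i : B))
      obtain ⟨σ, hσ⟩ := hsp.sum
      have h3 : (∑ i, (c i : B)) = (p : B) * (σ : B) := by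
        have := congrArg (Nat.cast : ℕ → B) hσ
        push_cast at this
        exact this
      have h4 : ∑ k : Rest i₀ d, ((c k : B) + u k) = ∑ k : Rest i₀ d, (c k : B) + ∑ k, u k :=
        Finset.sum_add_distrib
      have h5 : a * b - 1 - ∑ k : Rest i₀ d, ((c k : B) + u k) - (c i : B) =
          a * b - (p : B) * (σ : B) - ∑ k, u k := by
        rw [h4, ← h3, h2, h', hsp.one]
        push_cast
        ring
      rw [h5]
      refine J.sub_mem (J.sub_mem (J.mul_mem_right _ haJ) ?_) (J.sum_mem fun k _ => huJ k)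
      obtain ⟨e, he⟩ := ha
      rw [he, mul_assoc]
      exact J.mul_mem_right _ haJ
    · have : (c i : B) + u ⟨i, h, h'⟩ - (c i : B) = u ⟨i, h, h'⟩ := by ring
      rw [this]
      exact huJ _
  have htay := hT p co g hco i₀ c β hsp J (fun i => T i - (c i : B)) hη
  have hTc : (fun i => (c i : B) + (T i - (c i : B))) = T := by
    funext i
    ring
  rw [hTc] at htay
  rw [show Finset.univ.sum T = a * b from hsum, hJ] at htay
  obtain ⟨w, hw, μ, hr⟩ := mem_form a (p : B) u ha _ htay
  rw [← hJ] at hw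
  refine ⟨a ^ j * b ^ j * algebraMap R B β + b + a ^ (p - 2 - j) * b ^ (p - j) + w, μ, ?_, ?_⟩
  · rw [← hTdef]
    have h6 : aeval T g = (p : B) * algebraMap R B β + a * b + (a * w + ∑ k, u k * μ k) := by
      rw [← hr]
      ring
    have h7 : a ^ (p - 1 - j) = a ^ (p - 2 - j) * a := by
      rw [← pow_succ]
      congr 1
      omega
    rw [h6, h7]
    nth_rewrite 1 [hp]
    ring
  · rw [← hJ]
    unfold v0
    split_ifs with h0 h1
    · rw [h0]
      have h8 : a ^ 0 * b ^ 0 * algebraMap R B β + b + a ^ (p - 2 - 0) * b ^ (p - 0) + w -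
          (b + algebraMap R B β) = a ^ (p - 2) * b ^ p + w := by
        simp only [pow_zero, Nat.sub_zero]
        ring
      rw [h8]
      refine J.add_mem (J.mul_mem_right _ ?_) hw
      exact J.pow_mem_of_mem haJ _ (by omega)
    · have h9 : p - 2 - j = 0 := by omega
      have h10 : p - j = 2 := by omega
      rw [h9, h10]
      have h8 : a ^ j * b ^ j * algebraMap R B β + b + a ^ 0 * b ^ 2 + w - (b + b ^ 2) =
          a ^ j * b ^ j * algebraMap R B β + w := by
        ring
      rw [h8]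
      refine J.add_mem (J.mul_mem_right _ (J.mul_mem_right _ ?_)) hw
      exact J.pow_mem_of_mem haJ _ (by omega)
    · have h8 : a ^ j * b ^ j * algebraMap R B β + b + a ^ (p - 2 - j) * b ^ (p - j) + w - b =
          a ^ j * b ^ j * algebraMap R B β + a ^ (p - 2 - j) * b ^ (p - j) + w := by
        ring
      rw [h8]
      refine J.add_mem (J.add_mem (J.mul_mem_right _ (J.mul_mem_right _ ?_))
        (J.mul_mem_right _ ?_)) hw
      · exact J.pow_mem_of_mem haJ _ (by omega)
      · exact J.pow_mem_of_mem haJ _ (by omega)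

end Pool.Agent.H945R2.D
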