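import Pool.Agent.H945R2.D.Props2

/-! Task FAM: the family of factors. -/

set_option autoImplicit false

open scoped Pointwise

namespace Pool.Agent.H945R2.D

open Pool.Agent.H918R2.Quad MvPolynomial

namespace FAMaux

variable {R F ι : Type} [CommRing R] [Field F] [Algebra R F] (p : ℕ) (x : ι → F)

theorem one : HasDeg R p x (1 : Set F) 0 := by
  refine ⟨fun h hh => ?_, 0, fun y hy => ?_⟩
  · rw [pow_zero]
    exact Submodule.subset_span hh
  · rw [pow_zero] at hy
    rw [pow_zero, one_mul]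
    exact Submodule.subset_span hy

theorem mul {S S' : Set F} {d d' : ℕ} (h : HasDeg R p x S d) (h' : HasDeg R p x S' d') :
    HasDeg R p x (S * S') (d + d') := by
  obtain ⟨h1, k, h2⟩ := h
  obtain ⟨h1', k', h2'⟩ := h'
  refine ⟨?_, k + k', ?_⟩
  · intro a ha
    obtain ⟨s, hs, s', hs', rfl⟩ := Set.mem_mul.mp ha
    rw [pow_add, ← Submodule.span_mul_span]
    exact Submodule.mul_mem_mul (h1 s hs) (h1' s' hs')
  · intro y hy
    rw [pow_add] at hy
    obtain ⟨y1, hy1, y2, hy2, rfl⟩ := Set.mem_mul.mp hy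
    rw [← Submodule.span_mul_span]
    have e : (p : F) ^ (k + k') * (y1 * y2) = ((p : F) ^ k * y1) * ((p : F) ^ k' * y2) := by
      rw [pow_add]
      ring
    rw [e]
    exact Submodule.mul_mem_mul (h2 y1 hy1) (h2' y2 hy2)

theorem prod {κ : Type} (s : Finset κ) (Φ : κ → Set F) (d : κ → ℕ)
    (h : ∀ k ∈ s, HasDeg R p x (Φ k) (d k)) : HasDeg R p x (∏ k ∈ s, Φ k) (∑ k ∈ s, d k) := by
  classical
  induction s using Finset.induction_on with
  | empty =>
    rw [Finset.prod_empty, Finset.sum_empty]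
    exact one p x
  | insert a s ha ih =>
    rw [Finset.prod_insert ha, Finset.sum_insert ha]
    exact mul p x (h a (Finset.mem_insert_self a s))
      (ih fun k hk => h k (Finset.mem_insert_of_mem hk))

theorem range : HasDeg R p x (Set.range x) 1 := by
  refine ⟨fun h hh => ?_, 0, fun y hy => ?_⟩
  · rw [pow_one]
    exact Submodule.subset_span hh
  · rw [pow_one] at hy
    rw [pow_zero, one_mul]
    exact Submodule.subset_span hy

end FAMaux

theorem FAM_ok : S_FAM := by
  intro R F ι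
  intro _ _ _ _ _ p x 𝒮 hfin hx hdeg
  choose d hd using hdeg
  haveI : Fintype 𝒮 := hfin.fintype
  refine ⟨∑ S : 𝒮, d S.1 S.2, fun D hD => ?_⟩
  refine ⟨𝒮 ⊕ Fin (D - ∑ S : 𝒮, d S.1 S.2), inferInstance,
    Sum.elim Subtype.val (fun _ => Set.range x), ?_, ?_⟩
  · rw [Set.Sum.elim_range, Subtype.range_val]
    apply Set.union_eq_left.mpr
    rintro _ ⟨_, rfl⟩
    exact hx
  · have h := FAMaux.prod (R := R) p x (Finset.univ : Finset (𝒮 ⊕ Fin (D - ∑ S : 𝒮, d S.1 S.2)))
      (Sum.elim Subtype.val (fun _ => Set.range x))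
      (Sum.elim (fun S : 𝒮 => d S.1 S.2) (fun _ => 1)) (by
        rintro (S | k) _
        · exact hd S.1 S.2
        · exact FAMaux.range p x)
    have e : ∑ k : 𝒮 ⊕ Fin (D - ∑ S : 𝒮, d S.1 S.2),
        Sum.elim (fun S : 𝒮 => d S.1 S.2) (fun _ => 1) k = D := by
      rw [Fintype.sum_sum_type]
      simp only [Sum.elim_inl, Sum.elim_inr, Finset.sum_const, Finset.card_univ, Fintype.card_fin,
        smul_eq_mul, mul_one]
      omega
    rw [e] at h
    exact h

end Pool.Agent.H945R2.D
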