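import Pool.Agent.H945R2.D.Props2

/-! FIN: finitely many factors (helper152). -/

set_option autoImplicit false

namespace Pool.Agent.H945R2.D

open Pool.Agent.H918R2.Quad MvPolynomial

theorem FIN_ok : S_FIN := by
  intro R F ι _ _ _ _ _ _ p hp g x i₀
  have h1 : {S | IsFac p g x i₀ S} ⊆ ({Set.range x} ∪ (fun j => If p x j) '' (Set.Iio p)) ∪
      ⋃ c ∈ Set.pi Set.univ (fun _ : ι => Set.Iio p),
        (((fun β : R => K0 p x i₀ c (algebraMap R F β)) '' {β : R | Special p g i₀ c β} ∪
          (fun j => Kj p x i₀ c j) '' (Set.Iio p)) ∪ {Kl p x i₀ c}) := by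
    intro S hS
    rcases hS with h | ⟨j, hj1, hj2, h⟩ | ⟨c, β, hsp, h⟩
    · exact Or.inl (Or.inl h)
    · exact Or.inl (Or.inr ⟨j, hj2, h.symm⟩)
    · refine Or.inr ?_
      simp only [Set.mem_iUnion]
      refine ⟨c, fun i _ => hsp.lt i, ?_⟩
      rcases h with h | ⟨j, hj1, hj2, h⟩ | h
      · exact Or.inl (Or.inl ⟨β, hsp, h.symm⟩)
      · refine Or.inl (Or.inr ⟨j, ?_, h.symm⟩)
        rw [Set.mem_Iio]
        omega
      · exact Or.inr h
  refine Set.Finite.subset ?_ h1
  refine Set.Finite.union (Set.Finite.union (Set.finite_singleton _)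
    ((Set.finite_Iio p).image _)) ?_
  refine Set.Finite.biUnion (Set.Finite.pi (t := fun _ : ι => Set.Iio p) fun _ => Set.finite_Iio p) fun c _ => ?_
  refine Set.Finite.union (Set.Finite.union (Set.Finite.image _ ?_)
    ((Set.finite_Iio p).image _)) (Set.finite_singleton _)
  apply Set.Subsingleton.finite
  intro β hβ β' hβ'
  have h2 : (p : R) * β = (p : R) * β' := by
    rw [hβ.val, hβ'.val]
  exact mul_left_cancel₀ hp h2

end Pool.Agent.H945R2.D
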