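import Pool.Agent.H945R2.D.Props

/-! Task FRC: closure properties of fractions. -/

set_option autoImplicit false

namespace Pool.Agent.H945R2.D

open MvPolynomial

namespace FRCaux

variable {R F W A ρ : Type} [CommRing R] [Field F] [Algebra R F] [CommRing W]
  [Algebra R W] [CommRing A] [Algebra R A] (pr : W →ₐ[R] A) (eW : W →ₐ[R] F) (y : ρ → W)

theorem const (r : R) : Frc pr eW y (algebraMap R W r) := by
  refine ⟨C r, 1, ?_, ?_⟩
  · rw [map_one, map_one]
    exact one_ne_zero
  · rw [map_one, one_mul, aeval_C]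

theorem add {w w' : W} (h : Frc pr eW y w) (h' : Frc pr eW y w') : Frc pr eW y (w + w') := by
  obtain ⟨P, P', h1, h2⟩ := h
  obtain ⟨Q, Q', h3, h4⟩ := h'
  refine ⟨P * Q' + Q * P', P' * Q', ?_, ?_⟩
  · rw [map_mul, map_mul]
    exact mul_ne_zero h1 h3
  · simp only [map_mul, map_add] at h2 h4 ⊢
    linear_combination pr (aeval y Q') * h2 + pr (aeval y P') * h4

theorem mul {w w' : W} (h : Frc pr eW y w) (h' : Frc pr eW y w') : Frc pr eW y (w * w') := by
  obtain ⟨P, P', h1, h2⟩ := h
  obtain ⟨Q, Q', h3, h4⟩ := h'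
  refine ⟨P * Q, P' * Q', ?_, ?_⟩
  · rw [map_mul, map_mul]
    exact mul_ne_zero h1 h3
  · simp only [map_mul] at h2 h4 ⊢
    linear_combination pr (aeval y Q') * pr w' * h2 + pr (aeval y P) * h4

end FRCaux

theorem FRC_ok : S_FRC := by
  intro R F W A ρ
  intro _ _ _ _ _ _ _ pr eW hker y
  have hdiff : ∀ w w', pr w = pr w' → eW w = eW w' := by
    intro w w' h
    have h1 : pr (w - w') = 0 := by rw [map_sub, h, sub_self]
    have h2 := hker _ h1
    rw [map_sub] at h2
    exact sub_eq_zero.mp h2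
  refine ⟨FRCaux.const pr eW y, ?_, fun _ _ => FRCaux.add pr eW y, fun _ _ => FRCaux.mul pr eW y,
    ?_, ?_, ?_⟩
  · intro i
    refine ⟨X i, 1, ?_, ?_⟩
    · rw [map_one, map_one]
      exact one_ne_zero
    · rw [map_one, one_mul, aeval_X]
  · rintro w w' h ⟨P, P', h1, h2⟩
    refine ⟨P, P', h1, ?_⟩
    rw [map_mul, ← h, ← map_mul, h2]
  · rintro w w' h0 ⟨P, P', h1, h2⟩ ⟨Q, Q', h3, h4⟩
    refine ⟨Q * P', Q' * P, ?_, ?_⟩
    · have h5 := hdiff _ _ h2
      rw [map_mul] at h5
      rw [map_mul, map_mul, ← h5]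
      exact mul_ne_zero h3 (mul_ne_zero h1 h0)
    · simp only [map_mul] at h2 h4 ⊢
      linear_combination pr (aeval y P') * h4 - pr (aeval y Q') * pr w' * h2
  · intro S hS h w
    have hw : w ∈ Algebra.adjoin R S := by
      rw [hS]
      exact Algebra.mem_top
    induction hw using Algebra.adjoin_induction with
    | mem x hx => exact h x hx
    | algebraMap r => exact FRCaux.const pr eW y r
    | add a b _ _ ha hb => exact FRCaux.add pr eW y ha hb
    | mul a b _ _ ha hb => exact FRCaux.mul pr eW y ha hb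

end Pool.Agent.H945R2.D
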