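import Pool.Agent.H945R2.D.Props2

/-! GD2: regularity at the primes dividing one coefficient exactly once. -/

set_option autoImplicit false

open scoped Pointwise

namespace Pool.Agent.H945R2.D

open Pool.Agent.H918R2.Quad MvPolynomial

namespace GD2aux

theorem mem_rp {F ι : Type} [Field F] (x : ι → F) (D : ℕ) (g : F) :
    g ∈ Set.range x ^ D ↔ ∃ k : Fin D → ι, g = ∏ i, x (k i) := by
  rw [Set.mem_pow]
  constructor
  · rintro ⟨f, rfl⟩
    choose k hk using fun i => (f i).2
    refine ⟨k, ?_⟩
    rw [List.prod_ofFn]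
    exact Finset.prod_congr rfl fun i _ => (hk i).symm
  · rintro ⟨k, rfl⟩
    refine ⟨fun i => ⟨x (k i), k i, rfl⟩, ?_⟩
    rw [List.prod_ofFn]

theorem U_prod {F : Type} [Field F] {𝒪 : Subring F} {κ : Type} (S : Finset κ) (u : κ → F)
    (h : ∀ i ∈ S, U 𝒪 (u i)) : U 𝒪 (∏ i ∈ S, u i) := by
  classical
  induction S using Finset.induction_on with
  | empty => simpa using U_one
  | insert a S ha ih =>
    rw [Finset.prod_insert ha]
    exact (h a (Finset.mem_insert_self _ _)).mul
      (ih fun i hi => h i (Finset.mem_insert_of_mem hi))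

/-- The choice of the coordinate `s`. -/
theorem exists_s {F ι : Type} [Field F] (𝒪 : Subring F) (x : ι → F) (D : ℕ) (hD : 1 ≤ D)
    (f : F) (hG : ∀ h ∈ Set.range x ^ D, h / f ∈ 𝒪) (g : F)
    (hg : g ∈ Set.range x ^ D) (hU : U 𝒪 (g / f)) :
    ∃ s, x s ≠ 0 ∧ (∀ j, x j / x s ∈ 𝒪) ∧ U 𝒪 (f / x s ^ D) := by
  classical
  obtain ⟨k, rfl⟩ := (mem_rp x D g).1 hg
  have hf : f ≠ 0 := by
    rintro rfl
    rw [div_zero] at hU
    exact not_U_zero hU
  have hne : ∏ i, x (k i) ≠ 0 := by
    intro h
    rw [h, zero_div] at hU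
    exact not_U_zero hU
  have hk : ∀ i, x (k i) ≠ 0 := fun i => Finset.prod_ne_zero_iff.1 hne i (Finset.mem_univ i)
  have hdiv : ∀ i j, x j / x (k i) ∈ 𝒪 := by
    intro i j
    have h1 : x j * ∏ i' ∈ Finset.univ.erase i, x (k i') ∈ Set.range x ^ D := by
      rw [mem_rp]
      refine ⟨Function.update k i j, ?_⟩
      rw [← Finset.mul_prod_erase _ _ (Finset.mem_univ i), Function.update_self]
      congr 1
      refine Finset.prod_congr rfl fun i' hi' => ?_
      rw [Function.update_of_ne (Finset.ne_of_mem_erase hi')]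
    have h2 := hG _ h1
    have h3 : ∏ i, x (k i) = x (k i) * ∏ i' ∈ Finset.univ.erase i, x (k i') :=
      (Finset.mul_prod_erase _ _ (Finset.mem_univ i)).symm
    have h4 : ∏ i' ∈ Finset.univ.erase i, x (k i') ≠ 0 := by
      intro h
      rw [h, mul_zero] at h3
      exact hne h3
    have h5 : x j / x (k i) = (x j * ∏ i' ∈ Finset.univ.erase i, x (k i')) / f *
        ((∏ i, x (k i)) / f)⁻¹ := by
      rw [h3]
      have := hk i
      field_simp
    rw [h5]
    exact 𝒪.mul_mem h2 hU.2.2
  let i₀ : Fin D := ⟨0, hD⟩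
  refine ⟨k i₀, hk i₀, hdiv i₀, ?_⟩
  have hU2 : ∀ i, U 𝒪 (x (k i) / x (k i₀)) := fun i =>
    ⟨div_ne_zero (hk i) (hk i₀), hdiv i₀ (k i), by rw [inv_div]; exact hdiv i (k i₀)⟩
  have h6 : f / x (k i₀) ^ D = ((∏ i, x (k i)) / f)⁻¹ * ∏ i, (x (k i) / x (k i₀)) := by
    rw [Finset.prod_div_distrib, Finset.prod_const, Finset.card_univ, Fintype.card_fin]
    have := hk i₀
    field_simp
  rw [h6]
  exact hU.inv.mul (U_prod _ _ fun i _ => hU2 i)

/-- The ring map to the residue field killing the variables. -/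
noncomputable def th (R τ : Type) [CommRing R] [IsLocalRing R] :
    MvPolynomial τ R →+* IsLocalRing.ResidueField R :=
  (IsLocalRing.residue R).comp (constantCoeff (R := R) (σ := τ))

theorem th_surj (R τ : Type) [CommRing R] [IsLocalRing R] : Function.Surjective (th R τ) := by
  intro y
  obtain ⟨r, rfl⟩ := IsLocalRing.residue_surjective y
  exact ⟨C r, by simp [th]⟩

theorem sub_const_mem {R τ : Type} [CommRing R] (w : MvPolynomial τ R) :
    w - C (constantCoeff w) ∈ Ideal.span (Set.range (X : τ → MvPolynomial τ R)) := by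
  induction w using MvPolynomial.induction_on with
  | C r => rw [constantCoeff_C, sub_self]; exact Ideal.zero_mem _
  | add p q hp hq =>
    have h1 : p + q - C (constantCoeff (p + q)) =
      (p - C (constantCoeff p)) + (q - C (constantCoeff q)) := by
      rw [map_add, C_add]; ring
    rw [h1]
    exact Ideal.add_mem _ hp hq
  | mul_X p j _ =>
    rw [map_mul, constantCoeff_X, mul_zero, C_0, sub_zero]
    exact Ideal.mul_mem_left _ _ (Ideal.subset_span ⟨j, rfl⟩)

theorem ker_th (R τ : Type) [CommRing R] [IsDomain R] [IsDiscreteValuationRing R] (π : R)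
    (hπ : Irreducible π) (w : MvPolynomial τ R) (hw : th R τ w = 0) :
    w ∈ Ideal.span (insert (C π) (Set.range (X : τ → MvPolynomial τ R))) := by
  have h1 : constantCoeff w ∈ IsLocalRing.maximalIdeal R := by
    rw [← IsLocalRing.residue_eq_zero_iff]
    exact hw
  rw [hπ.maximalIdeal_eq, Ideal.mem_span_singleton] at h1
  obtain ⟨c, hc⟩ := h1
  have h2 : w = C (constantCoeff w) + (w - C (constantCoeff w)) := by ring
  rw [h2]
  refine Ideal.add_mem _ ?_ ?_
  · rw [hc, C_mul]
    exact Ideal.mul_mem_right _ _ (Ideal.subset_span (Set.mem_insert _ _))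
  · exact Ideal.span_mono (Set.subset_insert _ _) (sub_const_mem w)

theorem th_pi (R τ : Type) [CommRing R] [IsDomain R] [IsDiscreteValuationRing R] (π : R)
    (hπ : Irreducible π) : th R τ (C π) = 0 := by
  have h1 : π ∈ IsLocalRing.maximalIdeal R := by
    rw [hπ.maximalIdeal_eq]
    exact Ideal.mem_span_singleton_self _
  simp only [th, RingHom.comp_apply, constantCoeff_C]
  exact (IsLocalRing.residue_eq_zero_iff _).2 h1

theorem th_X (R τ : Type) [CommRing R] [IsLocalRing R] (j : τ) :
    th R τ (X j) = 0 := by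
  simp [th]

/-- Regularity when the constant coefficient is the uniformizer and all variables vanish. -/
theorem reg_origin (hHT : S_HT) {R A τ : Type} [CommRing R] [IsDomain R]
    [IsDiscreteValuationRing R] [Fintype τ] [CommRing A] (π : R) (hπ : Irreducible π)
    (pr : MvPolynomial τ R →+* A) (hpr : Function.Surjective pr)
    (E : MvPolynomial τ R) (hE : RingHom.ker pr = Ideal.span {E})
    (q : Ideal A) [q.IsPrime] (hX : ∀ j, pr (X j) ∈ q) (hπq : pr (C π) ∈ q)
    (hEπ : pr (C π) ∈ Ideal.span (Set.range fun j : τ => pr (X j))) :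
    IsRegularLocalRing (Localization.AtPrime q) := by
  classical
  have hrng : pr '' ((Finset.univ.image (X : τ → MvPolynomial τ R) : Finset _) : Set _) =
      Set.range fun j : τ => pr (X j) := by
    ext y
    simp
  have hcard : (Finset.univ.image (X : τ → MvPolynomial τ R)).card ≤ Fintype.card τ :=
    Finset.card_image_le
  refine reg_crit pr hpr {E} (by rw [hE, Finset.coe_singleton]) q (th R τ) (th_surj R τ) ?_
    (Finset.univ.image (X : τ → MvPolynomial τ R)) ?_ ?_ ?_
  · intro w hw
    rw [Ideal.mem_comap]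
    have h1 := ker_th R τ π hπ w hw
    have h2 : Ideal.span (insert (C π) (Set.range (X : τ → MvPolynomial τ R))) ≤ q.comap pr := by
      rw [Ideal.span_le]
      rintro y (rfl | ⟨j, rfl⟩)
      · exact hπq
      · exact hX j
    exact h2 h1
  · intro y hy
    obtain ⟨j, _, rfl⟩ := Finset.mem_image.1 hy
    exact hX j
  · intro w hw
    refine ⟨1, ?_, ?_⟩
    · rw [map_one]
      intro h
      exact (Ideal.IsPrime.ne_top ‹q.IsPrime›) ((Ideal.eq_top_iff_one q).2 h)
    · rw [one_mul, hrng]
      have h1 := ker_th R τ π hπ w hw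
      have h2 : Ideal.span (insert (C π) (Set.range (X : τ → MvPolynomial τ R))) ≤
          (Ideal.span (Set.range fun j : τ => pr (X j))).comap pr := by
        rw [Ideal.span_le]
        rintro y (rfl | ⟨j, rfl⟩)
        · exact hEπ
        · exact Ideal.subset_span ⟨j, rfl⟩
      exact h2 h1
  · have h1 := hHT π hπ (Finset.univ : Finset τ) (RingHom.ker (th R τ)) (th_pi R τ π hπ)
      (fun k _ => th_X R τ k)
    refine le_trans ?_ h1
    rw [Finset.card_singleton, Finset.card_univ]
    exact_mod_cast Nat.add_le_add_right hcard 1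

end GD2aux

open GD2aux in
theorem GD2_ok (hHT : S_HT) : S_GD2 := by
  intro R F ι _ _ _ _ _ _ _ 𝒪 hloc hR p hpu hp a i₁ hirr hnU ha x hrel hind D hD f hf hfG hG hloc2
  obtain ⟨g, hg, hU⟩ := exists_U_gen hloc hR _ f hf hG hfG
  obtain ⟨s, hs, hz, hfh⟩ := exists_s 𝒪 x D hD f hG g hg hU
  obtain ⟨j₀, hj₀⟩ := hind s hs
  set t : ι → F := fun j => x j / x s with ht
  have hts : t s = 1 := div_self hs
  let E : MvPolynomial {j : ι // j ≠ s} R := ∑ i, C (a i) * tau s i ^ p
  let I : Ideal (MvPolynomial {j : ι // j ≠ s} R) := Ideal.span {E}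
  let eW : MvPolynomial {j : ι // j ≠ s} R →ₐ[R] F :=
    aeval (fun j : {j : ι // j ≠ s} => t j)
  have heC : ∀ r, eW (C r) = algebraMap R F r := fun r => aeval_C _ r
  have heX : ∀ j, eW (X j) = t j := fun j => aeval_X _ j
  have heW : ∀ w, eW w ∈ 𝒪 := by
    intro w
    induction w using MvPolynomial.induction_on with
    | C r => rw [heC]; exact hR r
    | add p q hp hq => rw [map_add]; exact 𝒪.add_mem hp hq
    | mul_X p j hp => rw [map_mul, heX]; exact 𝒪.mul_mem hp (hz _)
  have hmap : ∀ j, eW (tau s j) = t j := fun j => aeval_tau' s t hts j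
  have hEt : eW E = 0 := by
    simp only [E, map_sum, map_mul, map_pow, heC, hmap]
    have h1 : ∀ i, algebraMap R F (a i) * t i ^ p =
        (algebraMap R F (a i) * x i ^ p) * ((x s)⁻¹) ^ p := by
      intro i
      simp only [ht]
      rw [div_eq_mul_inv, mul_pow, mul_assoc]
    simp only [h1]
    rw [← Finset.sum_mul, hrel, zero_mul]
  have hI : ∀ w ∈ I, eW w = 0 := by
    intro w hw
    obtain ⟨c, rfl⟩ := Ideal.mem_span_singleton.1 hw
    rw [map_mul, hEt, zero_mul]
  have hzt : ∀ j, x j = x s * eW (tau s j) := by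
    intro j
    rw [hmap]
    simp only [ht]
    field_simp
  have hG' : ∀ g ∈ Set.range x ^ D, ∃ w, g = x s ^ D * eW w := by
    intro g hg
    obtain ⟨k, rfl⟩ := (mem_rp x D g).1 hg
    refine ⟨∏ i, tau s (k i), ?_⟩
    rw [map_prod]
    have h1 : ∏ i, x (k i) = ∏ i, (x s * eW (tau s (k i))) :=
      Finset.prod_congr rfl fun i _ => hzt (k i)
    rw [h1, Finset.prod_mul_distrib, Finset.prod_const, Finset.card_univ, Fintype.card_fin]
  have hfrac := frac_of_chart eW heW (Set.range x ^ D) f (x s ^ D) (pow_ne_zero D hs) hG' hfG hfh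
    hloc2
  have hp0 : p ≠ 0 := hp.ne_zero
  have hane : ∀ i, a i ≠ 0 := by
    intro i
    by_cases h : i = i₁
    · rw [h]; exact hirr.ne_zero
    · exact (ha i h).ne_zero
  have hE0 : constantCoeff E = a s := by
    simp only [E, map_sum, map_mul, map_pow, constantCoeff_C]
    rw [Finset.sum_eq_single s]
    · simp [tau]
    · intro j _ hj
      simp [tau, hj, hp0]
    · intro h
      exact absurd (Finset.mem_univ s) h
  have hEne : E ≠ 0 := by
    intro h
    rw [h, map_zero] at hE0
    exact hane s hE0.symm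
  have hpd : ∀ j : {j : ι // j ≠ s}, pderiv j E = C ((p : R) * a j) * X j ^ (p - 1) := by
    intro j
    simp only [E, map_sum]
    rw [Finset.sum_eq_single (j : ι)]
    · have h1 : tau (R := R) s (j : ι) = X j := by
        unfold tau
        rw [dif_neg j.2]
      rw [h1, Derivation.leibniz, pderiv_C, Derivation.leibniz_pow, pderiv_X_self]
      simp only [smul_zero, add_zero, smul_eq_mul, C_mul, map_natCast, nsmul_eq_mul, mul_one]
      ring
    · intro i _ hi
      have h1 : pderiv j (tau (R := R) s i) = 0 := by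
        unfold tau
        by_cases h : i = s
        · rw [dif_pos h]; simp
        · rw [dif_neg h, pderiv_X_of_ne]
          intro h2
          exact hi (congrArg Subtype.val h2)
      rw [Derivation.leibniz, pderiv_C, Derivation.leibniz_pow, h1]
      simp
    · intro h
      exact absurd (Finset.mem_univ _) h
  obtain ⟨A, _, _, pr, hpr, hprk, hpr0⟩ := exists_quot (R := R) I
  have haev : ∀ p : MvPolynomial {j : ι // j ≠ s} R,
      aeval (fun j : {j : ι // j ≠ s} => (X j : MvPolynomial {j : ι // j ≠ s} R)) p = p := by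
    intro p
    rw [aeval_X_left_apply]
  refine regular_of_pres 𝒪 hloc pr hpr eW ?_ heW hfrac ?_
    (fun j : {j : ι // j ≠ s} => X j) E hEne ?_ j₀ ?_ ?_
  · intro w hw
    exact hI w ((hpr0 w).1 hw)
  · intro q hq hqm
    have hunit : ∀ r : R, IsUnit r → pr (C r) ∉ q := by
      intro r hr h
      exact Ideal.IsPrime.ne_top hq (Ideal.eq_top_of_isUnit_mem q h
        ((hr.map (C (σ := {j : ι // j ≠ s}))).map pr))
    have hi₁ : pr (C (a i₁)) ∈ q := by
      rw [hqm, heC]
      exact hnU
    have h1 : pr E = 0 := (hpr0 E).2 (Ideal.mem_span_singleton_self _)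
    have h2 : pr (C (a s)) = - ∑ i ∈ Finset.univ.erase s, pr (C (a i) * tau s i ^ p) := by
      have h3 : pr E = pr (C (a s)) + ∑ i ∈ Finset.univ.erase s, pr (C (a i) * tau s i ^ p) := by
        simp only [E]
        rw [map_sum, ← Finset.add_sum_erase _ _ (Finset.mem_univ s)]
        congr 1
        unfold tau
        rw [dif_pos rfl]
        simp
      rw [h1] at h3
      exact eq_neg_of_add_eq_zero_left h3.symm
    by_cases hall : ∀ j : {j : ι // j ≠ s}, (j : ι) ≠ i₁ → pr (X j) ∈ q
    · have hterm : ∀ i ∈ Finset.univ.erase s, pr (C (a i) * tau s i ^ p) ∈ q := by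
        intro i hi
        have hi' := (Finset.mem_erase.1 hi).1
        rw [map_mul]
        by_cases h : i = i₁
        · rw [h]
          exact q.mul_mem_right _ hi₁
        · apply q.mul_mem_left
          rw [map_pow]
          apply Ideal.pow_mem_of_mem _ _ _ hp.pos
          unfold tau
          rw [dif_neg hi']
          exact hall ⟨i, hi'⟩ h
      have h4 : pr (C (a s)) ∈ q := by
        rw [h2]
        exact q.neg_mem (q.sum_mem hterm)
      have hsi : s = i₁ := by
        by_contra h
        exact hunit _ (ha s h) h4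
      subst hsi
      have hall' : ∀ j : {j : ι // j ≠ s}, pr (X j) ∈ q := fun j => hall j j.2
      refine reg_origin hHT (a s) hirr (pr : _ →+* A) hpr E hprk q hall' hi₁ ?_
      have h5 : pr (C (a s)) ∈ Ideal.span (Set.range fun j : {j : ι // j ≠ s} => pr (X j)) := by
        rw [h2]
        refine Ideal.neg_mem_iff _ |>.2 (Ideal.sum_mem _ fun i hi => ?_)
        have hi' := (Finset.mem_erase.1 hi).1
        rw [map_mul, map_pow]
        apply Ideal.mul_mem_left
        apply Ideal.pow_mem_of_mem _ _ _ hp.pos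
        unfold tau
        rw [dif_neg hi']
        exact Ideal.subset_span ⟨⟨i, hi'⟩, rfl⟩
      exact h5
    · push Not at hall
      obtain ⟨j, hj1, hj⟩ := hall
      refine regular_of_pderiv E (pr : _ →+* A) hpr hprk q j ?_
      rw [hpd]
      intro h
      have h1 : pr (C ((p : R) * a j)) * pr (X j) ^ (p - 1) ∈ q := by
        rw [← map_pow, ← map_mul]; exact h
      rcases Ideal.IsPrime.mem_or_mem hq h1 with h2 | h2
      · exact hunit _ (hpu.mul (ha j hj1)) h2
      · exact hj (hq.mem_of_pow_mem _ h2)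
  · rw [haev, hpr0]
    exact Ideal.mem_span_singleton_self _
  · have h1 : (fun j : {j : {j : ι // j ≠ s} // j ≠ j₀} => eW (X (j : {j : ι // j ≠ s}))) =
        fun j : {j : {j : ι // j ≠ s} // j ≠ j₀} => x j / x s := by
      funext j
      exact heX _
    rw [h1]
    exact hj₀
  · intro w
    refine ⟨w, 1, by simp, ?_⟩
    rw [haev 1, one_mul, haev]

end Pool.Agent.H945R2.D
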