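import Pool.Agent.H945R2.D.Props

/-! Task GEX: existence of the polynomial `g`. -/

set_option autoImplicit false

namespace Pool.Agent.H945R2.D

open Pool.Agent.H918R2.Quad MvPolynomial

namespace GEXaux

theorem sum_pow_prime {B ι : Type} [CommRing B] {p : ℕ} (hp : p.Prime) (s : Finset ι) (f : ι → B) :
    ∃ r, (∑ i ∈ s, f i) ^ p = ∑ i ∈ s, f i ^ p + p * r := by
  classical
  induction s using Finset.induction_on with
  | empty => exact ⟨0, by simp [hp.ne_zero]⟩
  | @insert a s ha ih =>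
    obtain ⟨r, hr⟩ := ih
    obtain ⟨r', hr'⟩ := exists_add_pow_prime_eq hp (f a) (∑ i ∈ s, f i)
    refine ⟨r + f a * (∑ i ∈ s, f i) * r', ?_⟩
    rw [Finset.sum_insert ha, Finset.sum_insert ha, hr', hr]
    ring

end GEXaux

theorem GEX_ok : S_GEX := by
  intro R ι _ _ p hp co h
  choose r hr using h
  obtain ⟨s, hs⟩ := GEXaux.sum_pow_prime hp.out (Finset.univ : Finset ι)
    (fun i => (X i : MvPolynomial ι R))
  refine ⟨∑ i, C (r i) * X i ^ p - s, ?_⟩
  unfold GRel
  rw [hs]
  have e1 : ∀ i, (C (co i) : MvPolynomial ι R) = 1 + C (p : R) * C (r i) := by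
    intro i
    have : co i = 1 + (p : R) * r i := by rw [← hr i]; ring
    rw [this]
    simp
  have e2 : (C (p : R) : MvPolynomial ι R) = (p : MvPolynomial ι R) := by simp
  have e3 : ∑ i, (C (co i) : MvPolynomial ι R) * X i ^ p =
      ∑ i, X i ^ p + (p : MvPolynomial ι R) * ∑ i, C (r i) * X i ^ p := by
    rw [Finset.mul_sum, ← Finset.sum_add_distrib]
    apply Finset.sum_congr rfl
    intro i _
    rw [e1, e2]
    ring
  rw [e3, e2]
  ring

end Pool.Agent.H945R2.D
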