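import Pool.Agent.H945R2.D.Props2

/-! GOOD: regularity of the model at the primes not above `p`. -/

set_option autoImplicit false

open scoped Pointwise

namespace Pool.Agent.H945R2.D

open Pool.Agent.H918R2.Quad MvPolynomial

theorem GOOD_ok (h1 : S_GD1) (h2 : S_GD2) : S_GOOD := by
  intro O R K F _ _ _ _ _ _ _ _ _ _ _ _ 𝔭 _ _ _ hinj m p hp hpu a ha x hx0 hrel hgen b htb D hD
    M hM hM2 f hfM hf q hqp hq
  have hMG : ∀ y ∈ M, y ∈ Submodule.span R (Set.range x ^ D) := by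
    intro y hy
    have h3 := hM hy
    exact Submodule.span_subset_span O R _ h3
  have hGM : ∀ y ∈ Submodule.span R (Set.range x ^ D), ∃ s, s ∉ 𝔭 ∧ s • y ∈ M := by
    intro y hy
    obtain ⟨s, hs, hsy⟩ := clear_denom 𝔭 (Set.range x ^ D) y hy
    obtain ⟨t, ht, hty⟩ := hM2 _ hsy
    refine ⟨t * s, fun h => (Ideal.IsPrime.mem_or_mem ‹𝔭.IsPrime› h).elim ht hs, ?_⟩
    rw [mul_smul]
    exact hty
  obtain ⟨𝒪, hloc, hR, hRU, hloc2, hG, hreg⟩ := transfer (R := R) 𝔭 M (Set.range x ^ D) hMG hGM f q hq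
  apply hreg
  have hrel' : ∑ i, algebraMap R F (algebraMap O R (a i)) * x i ^ p = 0 := by
    simpa only [← IsScalarTower.algebraMap_apply] using hrel
  have hind : ∀ s, x s ≠ 0 → ∃ j₀ : {i : Fin (m + 2) // i ≠ s},
      AlgebraicIndependent R
        (fun i : {i : {i : Fin (m + 2) // i ≠ s} // i ≠ j₀} => x i / x s) := by
    intro s hs
    obtain ⟨j₀, hj₀⟩ := hind_of (K := K) (ι := Fin (m + 2)) (by simp) x hx0 hgen b htb x
      (fun i j => if i = j then 1 else 0) (by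
        intro i
        simp [apply_ite (algebraMap K F)]) s hs
    exact ⟨j₀, hj₀.restrictScalars hinj⟩
  rcases ha with ha | ⟨hdvr, i₁, hi₁, hi₂⟩
  · exact h1 𝒪 hloc hR p hpu hp (fun i => algebraMap O R (a i)) ha x hrel' hind D hD f hf
      (hMG f hfM) hG hloc2
  · exact h2 𝒪 hloc hR p hpu hp (fun i => algebraMap O R (a i)) i₁ hi₁
      (fun h => hi₁.not_isUnit (hRU _ h)) hi₂ x hrel' hind D hD f hf (hMG f hfM) hG hloc2

end Pool.Agent.H945R2.D
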