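import Pool.Agent.H945R2.D.Props

set_option autoImplicit false

namespace Pool.Agent.H945R2.D

open Pool.Agent.H918R2.Quad MvPolynomial

namespace HOMaux

theorem isHomogeneous {R ι : Type} [CommRing R] [IsDomain R] [Fintype ι] (p : ℕ)
    (hp : (p : R) ≠ 0) (co : ι → R) (g : MvPolynomial ι R) (h : GRel p co g) :
    g.IsHomogeneous p := by
  have h1 : (C (p : R) * g).IsHomogeneous p := by
    rw [h]
    refine IsHomogeneous.sub ?_ ?_
    · refine IsHomogeneous.sum _ _ _ fun i _ => ?_
      have := (isHomogeneous_C ι (co i)).mul ((isHomogeneous_X R i).pow p)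
      simpa using this
    · have h2 : (∑ i, (X i : MvPolynomial ι R)).IsHomogeneous 1 :=
        IsHomogeneous.sum _ _ _ fun i _ => isHomogeneous_X R i
      simpa using h2.pow p
  intro d hd
  apply h1
  rw [coeff_C_mul]
  exact mul_ne_zero hp hd

end HOMaux

theorem HOM_ok : S_HOM := by
  intro R ι _ _ _ p hp co g hg B _ _ J η hη
  have hh := HOMaux.isHomogeneous p hp co g hg
  rw [aeval_def, eval₂_eq']
  refine Ideal.sum_mem _ fun d hd => Ideal.mul_mem_left _ _ ?_
  have hd' : ∑ i, d i = p := by
    have h1 := hh (mem_support_iff.1 hd)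
    rw [← h1]
    simp [Finsupp.weight_apply, Finsupp.sum_fintype]
  rw [← hd', ← Finset.prod_pow_eq_pow_sum]
  exact Ideal.prod_mem_prod fun i _ => Ideal.pow_mem_pow (hη i) _

end Pool.Agent.H945R2.D
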