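import Pool.Agent.H945R2.D.Props

/-! Task HT: height of an ideal which contains `π` and some of the variables. -/

set_option autoImplicit false

namespace Pool.Agent.H945R2.D

open Pool.Agent.H918R2.Quad MvPolynomial

namespace HTaux

variable {R σ : Type} [CommRing R] [IsDomain R] [IsDiscreteValuationRing R]

open Classical in
/-- Reduce the coefficients, `X i ↦ 0` for `i ∈ S`. -/
noncomputable def phi (R : Type) [CommRing R] [IsDomain R] [IsDiscreteValuationRing R]
    (S : Finset σ) : MvPolynomial σ R →+* MvPolynomial σ (IsLocalRing.ResidueField R) :=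
  eval₂Hom (C.comp (IsLocalRing.residue R)) (fun i => if i ∈ S then 0 else X i)

theorem phi_C (S : Finset σ) (r : R) : phi R S (C r) = C (IsLocalRing.residue R r) := by
  simp [phi]

theorem phi_X_mem {S : Finset σ} {i : σ} (h : i ∈ S) : phi R S (X i) = 0 := by
  simp [phi, h]

theorem phi_X_notMem {S : Finset σ} {i : σ} (h : i ∉ S) : phi R S (X i) = X i := by
  simp [phi, h]

theorem res_pi {π : R} (hπ : Irreducible π) : IsLocalRing.residue R π = 0 := by
  rw [IsLocalRing.residue_eq_zero_iff, hπ.maximalIdeal_eq]
  exact Ideal.mem_span_singleton_self π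

theorem ker_mono {S T : Finset σ} (h : S ⊆ T) : RingHom.ker (phi R S) ≤ RingHom.ker (phi R T) := by
  have key : (eval₂Hom (C : IsLocalRing.ResidueField R →+* _)
      (fun i => phi R T (X i))).comp (phi R S) = phi R T := by
    apply MvPolynomial.ringHom_ext
    · intro r
      simp [phi_C]
    · intro i
      by_cases hi : i ∈ S
      · simp [phi_X_mem hi, phi_X_mem (h hi)]
      · simp [phi_X_notMem hi]
  intro x hx
  rw [RingHom.mem_ker] at hx ⊢
  rw [← key, RingHom.comp_apply, hx, map_zero]

theorem ker_le {π : R} (hπ : Irreducible π) (S : Finset σ) (I : Ideal (MvPolynomial σ R))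
    (h1 : C π ∈ I) (h2 : ∀ k ∈ S, X k ∈ I) : RingHom.ker (phi R S) ≤ I := by
  classical
  intro p hp
  rw [RingHom.mem_ker] at hp
  set ψ : MvPolynomial σ R →+* MvPolynomial σ R :=
    eval₂Hom C (fun i => if i ∈ S then 0 else X i) with hψ
  have e1 : (Ideal.Quotient.mk I).comp ψ = Ideal.Quotient.mk I := by
    apply MvPolynomial.ringHom_ext
    · intro r
      simp [hψ]
    · intro i
      by_cases hi : i ∈ S
      · have : Ideal.Quotient.mk I (X i) = 0 := Ideal.Quotient.eq_zero_iff_mem.2 (h2 i hi)
        simp [hψ, hi, this]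
      · simp [hψ, hi]
  have e2 : (MvPolynomial.map (IsLocalRing.residue R)).comp ψ = phi R S := by
    apply MvPolynomial.ringHom_ext
    · intro r
      simp [hψ, phi_C]
    · intro i
      by_cases hi : i ∈ S
      · simp [hψ, hi, phi_X_mem hi]
      · simp [hψ, hi, phi_X_notMem hi]
  have e3 : ψ p ∈ I := by
    have : ψ p ∈ RingHom.ker (MvPolynomial.map (σ := σ) (IsLocalRing.residue R)) := by
      rw [RingHom.mem_ker, ← RingHom.comp_apply, e2, hp]
    rw [MvPolynomial.ker_map, IsLocalRing.ker_residue, hπ.maximalIdeal_eq, Ideal.map_span,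
      Set.image_singleton] at this
    exact (Ideal.span_singleton_le_iff_mem I).2 h1 this
  rw [← Ideal.Quotient.eq_zero_iff_mem, ← e1, RingHom.comp_apply, Ideal.Quotient.eq_zero_iff_mem]
  exact e3

theorem height_ker {π : R} (hπ : Irreducible π) (S : Finset σ) :
    ((S.card + 1 : ℕ) : ℕ∞) ≤ (RingHom.ker (phi R S)).height := by
  classical
  induction S using Finset.induction_on with
  | empty =>
    have hp : (RingHom.ker (phi R (∅ : Finset σ))).IsPrime := RingHom.ker_isPrime _
    have hlt : (⊥ : Ideal (MvPolynomial σ R)) < RingHom.ker (phi R (∅ : Finset σ)) := by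
      rw [bot_lt_iff_ne_bot]
      intro hb
      have h1 : (C π : MvPolynomial σ R) ∈ RingHom.ker (phi R (∅ : Finset σ)) := by
        rw [RingHom.mem_ker, phi_C, res_pi hπ, map_zero]
      rw [hb, Ideal.mem_bot, C_eq_zero] at h1
      exact hπ.ne_zero h1
    have := Ideal.height_add_one_le_of_lt_of_isPrime hlt
    refine le_trans ?_ this
    simp
  | @insert i S hi ih =>
    have hp : (RingHom.ker (phi R (insert i S))).IsPrime := RingHom.ker_isPrime _
    have hp2 : (RingHom.ker (phi R S)).IsPrime := RingHom.ker_isPrime _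
    have hlt : RingHom.ker (phi R S) < RingHom.ker (phi R (insert i S)) := by
      refine lt_of_le_of_ne (ker_mono (Finset.subset_insert i S)) ?_
      intro hb
      have h1 : (X i : MvPolynomial σ R) ∈ RingHom.ker (phi R (insert i S)) := by
        rw [RingHom.mem_ker, phi_X_mem (Finset.mem_insert_self i S)]
      rw [← hb, RingHom.mem_ker, phi_X_notMem hi] at h1
      exact X_ne_zero i h1
    have := Ideal.height_add_one_le_of_lt_of_isPrime hlt
    refine le_trans ?_ this
    rw [Finset.card_insert_of_notMem hi]
    push_cast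
    push_cast at ih
    gcongr

end HTaux

open HTaux in
theorem HT_ok : S_HT := by
  intro R σ _ _ _ _ π hπ S I h1 h2
  exact (height_ker hπ S).trans (Ideal.height_mono (ker_le hπ S I h1 h2))

end Pool.Agent.H945R2.D
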