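import Mathlib

/-!
# Irreducibility of the Fermat-type polynomial `a₀ + ∑ aᵢ Xᵢ^p`
-/

namespace Pool.Agent.H945R2.D

open MvPolynomial

namespace IRRaux

variable {K : Type} [Field K] [CharZero K]

set_option linter.unusedSectionVars false

/-- The lower-dimensional polynomial `a₀ + ∑ bᵢ Xᵢ^p`. -/
noncomputable def hpoly (m p : ℕ) (a0 : K) (b : Fin m → K) : MvPolynomial (Fin m) K :=
  C a0 + ∑ i : Fin m, C (b i) * X i ^ p

theorem constantCoeff_hpoly (m p : ℕ) (hp : p ≠ 0) (a0 : K) (b : Fin m → K) :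
    constantCoeff (hpoly m p a0 b) = a0 := by
  unfold hpoly
  rw [map_add, map_sum]
  simp [hp]

theorem pderiv_hpoly (m p : ℕ) (a0 : K) (b : Fin m → K) (j : Fin m) :
    pderiv j (hpoly m p a0 b) = C (b j * (p : K)) * X j ^ (p - 1) := by
  unfold hpoly
  rw [map_add, map_sum, pderiv_C, zero_add, Finset.sum_eq_single j]
  · rw [pderiv_C_mul, pderiv_pow, pderiv_X_self, C_mul]
    rw [mul_one]
    rw [map_natCast]
    ring
  · intro i _ hij
    rw [pderiv_C_mul, pderiv_pow, pderiv_X_of_ne hij]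
    simp
  · intro h; exact absurd (Finset.mem_univ j) h

theorem hpoly_ne_zero (m p : ℕ) (hp : p ≠ 0) (a0 : K) (h0 : a0 ≠ 0) (b : Fin m → K) :
    hpoly m p a0 b ≠ 0 := by
  intro h
  apply h0
  rw [← constantCoeff_hpoly m p hp a0 b, h, map_zero]

theorem hpoly_not_unit (m p : ℕ) (hp : p ≠ 0) (a0 : K) (b : Fin m → K)
    (j : Fin m) (hb : b j ≠ 0) : ¬ IsUnit (hpoly m p a0 b) := by
  intro hu
  rw [isUnit_iff_eq_C_of_isReduced] at hu
  obtain ⟨r, _, hr⟩ := hu
  have h1 := pderiv_hpoly m p a0 b j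
  rw [hr, pderiv_C] at h1
  have h2 : (C (b j * (p : K)) : MvPolynomial (Fin m) K) ≠ 0 := by
    rw [Ne, C_eq_zero]
    exact mul_ne_zero hb (Nat.cast_ne_zero.mpr hp)
  have h3 : (X j : MvPolynomial (Fin m) K) ^ (p - 1) ≠ 0 := pow_ne_zero _ (X_ne_zero j)
  exact mul_ne_zero h2 h3 h1.symm

theorem sq_not_dvd (m p : ℕ) (hp : p ≠ 0) (a0 : K) (h0 : a0 ≠ 0) (b : Fin m → K)
    (j : Fin m) (hb : b j ≠ 0) (π : MvPolynomial (Fin m) K) (hπ : Prime π) :
    ¬ π ^ 2 ∣ hpoly m p a0 b := by
  rintro ⟨g, hg⟩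
  have h1 := pderiv_hpoly m p a0 b j
  have h2 : π ∣ pderiv j (hpoly m p a0 b) := by
    rw [hg, pderiv_mul, pow_two, pderiv_mul]
    refine Dvd.intro (pderiv j π * g + pderiv j π * g + π * pderiv j g) ?_
    ring
  rw [h1] at h2
  have hu : IsUnit (C (b j * (p : K)) : MvPolynomial (Fin m) K) := by
    have : IsUnit (b j * (p : K)) :=
      isUnit_iff_ne_zero.mpr (mul_ne_zero hb (Nat.cast_ne_zero.mpr hp))
    exact this.map C
  have h3 : π ∣ (X j : MvPolynomial (Fin m) K) ^ (p - 1) := by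
    exact (hu.dvd_mul_left).mp h2
  have h4 : π ∣ (X j : MvPolynomial (Fin m) K) := hπ.dvd_of_dvd_pow h3
  have h5 : Associated π (X j : MvPolynomial (Fin m) K) :=
    hπ.irreducible.associated_of_dvd (X_prime (i := j)).irreducible h4
  have h6 : (X j : MvPolynomial (Fin m) K) ∣ hpoly m p a0 b := by
    refine h5.symm.dvd.trans ?_
    rw [hg, pow_two, mul_assoc]
    exact dvd_mul_right _ _
  obtain ⟨q, hq⟩ := h6
  apply h0
  rw [← constantCoeff_hpoly m p hp a0 b, hq, map_mul, constantCoeff_X, zero_mul]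

end IRRaux

open IRRaux in
theorem IRR_ok {K : Type} [Field K] [CharZero K] (m p : ℕ) (hm : 1 ≤ m) (hp : p.Prime)
    (a : Fin (m + 2) → K) (ha : ∀ i, a i ≠ 0) :
    Irreducible (C (a 0) + ∑ i : Fin (m + 1), C (a i.succ) * X i ^ p :
      MvPolynomial (Fin (m + 1)) K) := by
  have hp0 : p ≠ 0 := hp.ne_zero
  rw [← MulEquiv.irreducible_iff (MvPolynomial.finSuccEquiv K m)]
  have hj : 0 < m := hm
  have key : MvPolynomial.finSuccEquiv K m
      (C (a 0) + ∑ i : Fin (m + 1), C (a i.succ) * X i ^ p) =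
      Polynomial.C (C (a 1)) * Polynomial.X ^ p +
        Polynomial.C (hpoly m p (a 0) (fun i => a i.succ.succ)) := by
    have hC : ∀ r : K, MvPolynomial.finSuccEquiv K m (C r) = Polynomial.C (C r) := by
      intro r
      rw [finSuccEquiv_apply, coe_eval₂Hom, eval₂_C]
      rfl
    rw [map_add, map_sum, Fin.sum_univ_succ, hC]
    simp only [map_mul, map_pow, hC, finSuccEquiv_X_zero, finSuccEquiv_X_succ]
    unfold hpoly
    rw [map_add, map_sum]
    simp only [map_mul, map_pow]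
    have : (0 : Fin (m + 1)).succ = (1 : Fin (m + 2)) := rfl
    rw [this]
    ring
  rw [key]
  have hb : (fun i : Fin m => a i.succ.succ) ⟨0, hj⟩ ≠ 0 := ha _
  have hne := hpoly_ne_zero m p hp0 (a 0) (ha 0) (fun i => a i.succ.succ)
  have hnu := hpoly_not_unit m p hp0 (a 0) (fun i => a i.succ.succ) ⟨0, hj⟩ hb
  obtain ⟨π, hπ, hd⟩ := WfDvdMonoid.exists_irreducible_factor hnu hne
  have hπp : Prime π := hπ.prime
  have hsq := sq_not_dvd m p hp0 (a 0) (ha 0) (fun i => a i.succ.succ) ⟨0, hj⟩ hb π hπp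
  generalize hpoly m p (a 0) (fun i => a i.succ.succ) = h at hne hnu hd hsq
  have hc1 : (C (a 1) : MvPolynomial (Fin m) K) ≠ 0 := by
    rw [Ne, C_eq_zero]; exact ha 1
  have hu1 : IsUnit (C (a 1) : MvPolynomial (Fin m) K) :=
    (isUnit_iff_ne_zero.mpr (ha 1)).map C
  have hdeg : (Polynomial.C (C (a 1)) * Polynomial.X ^ p + Polynomial.C h :
      Polynomial (MvPolynomial (Fin m) K)).degree = p := by
    rw [Polynomial.degree_add_C]
    · exact Polynomial.degree_C_mul_X_pow p hc1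
    · rw [Polynomial.degree_C_mul_X_pow p hc1]
      exact_mod_cast hp.pos
  have hnat : (Polynomial.C (C (a 1)) * Polynomial.X ^ p + Polynomial.C h :
      Polynomial (MvPolynomial (Fin m) K)).natDegree = p :=
    Polynomial.natDegree_eq_of_degree_eq_some hdeg
  have hcoeff : ∀ n : ℕ, (Polynomial.C (C (a 1)) * Polynomial.X ^ p + Polynomial.C h :
      Polynomial (MvPolynomial (Fin m) K)).coeff n =
      (if n = p then C (a 1) else 0) + (if n = 0 then h else 0) := by
    intro n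
    rw [Polynomial.coeff_add, Polynomial.coeff_C_mul, Polynomial.coeff_X_pow,
      Polynomial.coeff_C]
    split_ifs <;> simp
  have hlc : (Polynomial.C (C (a 1)) * Polynomial.X ^ p + Polynomial.C h :
      Polynomial (MvPolynomial (Fin m) K)).leadingCoeff = C (a 1) := by
    rw [Polynomial.leadingCoeff, hnat, hcoeff, if_pos rfl, if_neg hp0, add_zero]
  refine Polynomial.irreducible_of_eisenstein_criterion (P := Ideal.span {π}) ?_ ?_ ?_ ?_ ?_ ?_
  · exact (Ideal.span_singleton_prime hπp.ne_zero).mpr hπp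
  · rw [hlc, Ideal.mem_span_singleton]
    intro hdv
    exact hπ.not_isUnit (isUnit_of_dvd_unit hdv hu1)
  · intro n hn
    rw [hdeg] at hn
    have hn' : n ≠ p := by
      have : n < p := by exact_mod_cast hn
      omega
    rw [hcoeff, if_neg hn', zero_add, Ideal.mem_span_singleton]
    split_ifs
    · exact hd
    · exact dvd_zero _
  · rw [hdeg]; exact_mod_cast hp.pos
  · rw [hcoeff, if_neg hp0.symm, if_pos rfl, zero_add, Ideal.span_singleton_pow,
      Ideal.mem_span_singleton]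
    exact hsq
  · intro r hr
    have : r ∣ (Polynomial.C (C (a 1)) * Polynomial.X ^ p + Polynomial.C h :
      Polynomial (MvPolynomial (Fin m) K)).coeff p := by
      obtain ⟨q, hq⟩ := hr
      rw [hq, Polynomial.coeff_C_mul]
      exact dvd_mul_right _ _
    rw [hcoeff, if_pos rfl, if_neg hp0, add_zero] at this
    exact isUnit_of_dvd_unit this hu1

end Pool.Agent.H945R2.D
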