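import Pool.Agent.H945R2.D.Props

/-! Local rings of the model at the primes above `p` (MP_4d1008_ag): assembly. -/

set_option autoImplicit false

open scoped Pointwise

namespace Pool.Agent.H945R2.D

open Pool.Agent.H918R2.Quad MvPolynomial

namespace LOCaux

section scale

variable {R F ι : Type} [CommRing R] [Field F] [Algebra R F] [Fintype ι]

theorem fac1 (hSC1 : S_SC1) (p : ℕ) (hp : 1 ≤ p) (g : MvPolynomial ι R) (t : ι → F) (l : F)
    (hl : l ≠ 0) (i₀ : ι) (S : Set F) (hS : IsFac p g (fun i => l * t i) i₀ S) :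
    ∃ μ : F, μ ≠ 0 ∧ ∃ S', IsFac p g t i₀ S' ∧ S = (fun h => μ * h) '' S' := by
  rcases hS with rfl | ⟨j, h1, h2, rfl⟩ | ⟨c, β, hc, rfl | ⟨j, h1, h2, rfl⟩ | rfl⟩
  · exact ⟨l ^ 1, pow_ne_zero _ hl, _, Or.inl rfl, (hSC1 p hp t l i₀ (fun _ => 0) 0 0).1⟩
  · exact ⟨l ^ j, pow_ne_zero _ hl, _, Or.inr (Or.inl ⟨j, h1, h2, rfl⟩),
      (hSC1 p hp t l i₀ (fun _ => 0) 0 j).2.1⟩
  · exact ⟨l ^ 1, pow_ne_zero _ hl, _, Or.inr (Or.inr ⟨c, β, hc, Or.inl rfl⟩),
      (hSC1 p hp t l i₀ c (algebraMap R F β) 0).2.2.1⟩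
  · exact ⟨l ^ (2 * j + 1), pow_ne_zero _ hl, _,
      Or.inr (Or.inr ⟨c, β, hc, Or.inr (Or.inl ⟨j, h1, h2, rfl⟩)⟩),
      (hSC1 p hp t l i₀ c 0 j).2.2.2.1⟩
  · exact ⟨l ^ p, pow_ne_zero _ hl, _, Or.inr (Or.inr ⟨c, β, hc, Or.inr (Or.inr rfl)⟩),
      (hSC1 p hp t l i₀ c 0 0).2.2.2.2⟩

theorem fac2 (hSC1 : S_SC1) (p : ℕ) (hp : 1 ≤ p) (g : MvPolynomial ι R) (t : ι → F) (l : F)
    (hl : l ≠ 0) (i₀ : ι) (S : Set F) (hS : IsFac p g t i₀ S) :
    ∃ μ : F, μ ≠ 0 ∧ IsFac p g (fun i => l * t i) i₀ ((fun h => μ * h) '' S) := by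
  rcases hS with rfl | ⟨j, h1, h2, rfl⟩ | ⟨c, β, hc, rfl | ⟨j, h1, h2, rfl⟩ | rfl⟩
  · exact ⟨l ^ 1, pow_ne_zero _ hl, Or.inl (hSC1 p hp t l i₀ (fun _ => 0) 0 0).1.symm⟩
  · exact ⟨l ^ j, pow_ne_zero _ hl, Or.inr (Or.inl ⟨j, h1, h2,
      (hSC1 p hp t l i₀ (fun _ => 0) 0 j).2.1.symm⟩)⟩
  · exact ⟨l ^ 1, pow_ne_zero _ hl, Or.inr (Or.inr ⟨c, β, hc, Or.inl
      (hSC1 p hp t l i₀ c (algebraMap R F β) 0).2.2.1.symm⟩)⟩
  · exact ⟨l ^ (2 * j + 1), pow_ne_zero _ hl,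
      Or.inr (Or.inr ⟨c, β, hc, Or.inr (Or.inl ⟨j, h1, h2,
      (hSC1 p hp t l i₀ c 0 j).2.2.2.1.symm⟩)⟩)⟩
  · exact ⟨l ^ p, pow_ne_zero _ hl, Or.inr (Or.inr ⟨c, β, hc, Or.inr (Or.inr
      (hSC1 p hp t l i₀ c 0 0).2.2.2.2.symm)⟩)⟩

end scale

section units

variable {F : Type} [Field F] {𝒪 : Subring F}

theorem nonunit_add (h : IsLoc 𝒪) {x y : F} (hx : x ∈ 𝒪) (hy : y ∈ 𝒪) (hxU : ¬ U 𝒪 x)
    (hyU : ¬ U 𝒪 y) : ¬ U 𝒪 (x + y) := fun hu => (h x y hx hy hu).elim hxU hyU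

/-- The residue map. -/
theorem exists_residue (h : IsLoc 𝒪) : ∃ (k : Type) (_ : CommRing k) (_ : IsDomain k)
    (r : 𝒪 →+* k), ∀ y : 𝒪, r y = 0 ↔ ¬ U 𝒪 (y : F) := by
  have h0 : ∀ a : 𝒪, 𝒪.subtype a ∈ 𝒪 := fun a => a.2
  have hp : (primeOf h 𝒪.subtype h0).IsPrime := primeOf_isPrime h _ _
  refine ⟨𝒪 ⧸ primeOf h 𝒪.subtype h0, inferInstance,
    Ideal.Quotient.isDomain _, Ideal.Quotient.mk _, fun y => ?_⟩
  rw [Ideal.Quotient.eq_zero_iff_mem]
  exact Iff.rfl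

end units

section data

variable {R F ι : Type} [CommRing R] [IsDomain R] [IsDiscreteValuationRing R] [Field F]
  [Algebra R F] [Fintype ι]

theorem aeval_mem (𝒪 : Subring F) (hR : ∀ r : R, algebraMap R F r ∈ 𝒪) (t : ι → F)
    (ht : ∀ i, t i ∈ 𝒪) (g : MvPolynomial ι R) : aeval t g ∈ 𝒪 := by
  induction g using MvPolynomial.induction_on with
  | C r => rw [aeval_C]; exact hR r
  | add p q hp hq => rw [map_add]; exact 𝒪.add_mem hp hq
  | mul_X p i hp => rw [map_mul, aeval_X]; exact 𝒪.mul_mem hp (ht i)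

theorem grel_aeval {B : Type} [CommRing B] [Algebra R B] {p : ℕ} {co : ι → R}
    {g : MvPolynomial ι R} (hg : GRel p co g) (t : ι → B) :
    (p : B) * aeval t g = ∑ i, algebraMap R B (co i) * t i ^ p - (∑ i, t i) ^ p := by
  have h := congrArg (aeval t) hg
  simpa only [map_mul, map_sub, map_sum, map_pow, aeval_X, aeval_C, map_natCast] using h

theorem exists_data (hCL : S_CL) (𝒪 : Subring F) (p : ℕ) (co : ι → R) (g : MvPolynomial ι R)
    (x : ι → F) (h : LocData 𝒪 p co g x) (s : ι) (hs : x s ≠ 0) (hx : ∀ i, x i / x s ∈ 𝒪)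
    (hI : ∀ j, 1 ≤ j → j < p → Pr 𝒪 (If p x j)) :
    ∃ (j : ℕ) (a b : F), Data 𝒪 p j co g (fun i => x i / x s) s a b := by
  have hp1 : 1 ≤ p := h.coef.prime.one_lt.le
  set t : ι → F := fun i => x i / x s with ht
  have hxt : ∀ i, x i = x s * t i := by
    intro i
    simp only [ht]
    field_simp
  have hsum : ∑ i, x i = x s * ∑ i, t i := by
    rw [Finset.mul_sum]
    exact Finset.sum_congr rfl fun i _ => hxt i
  have hL0 : ∑ i, t i ≠ 0 := by
    intro h0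
    apply h.sum
    rw [hsum, h0, mul_zero]
  have hLm : ∑ i, t i ∈ 𝒪 := 𝒪.sum_mem fun i _ => hx i
  have hrelt : ∑ i, algebraMap R F (co i) * t i ^ p = 0 := by
    have h1 : ∀ i, algebraMap R F (co i) * t i ^ p =
        (algebraMap R F (co i) * x i ^ p) * ((x s)⁻¹) ^ p := by
      intro i
      simp only [ht, div_eq_mul_inv, mul_pow]
      ring
    simp only [h1]
    rw [← Finset.sum_mul, h.rel, zero_mul]
  have hg := grel_aeval (B := F) h.coef.rel t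
  rw [hrelt, zero_sub] at hg
  have hmono : ∀ (j : ℕ) (y : F), y ∈ Set.range x ^ j → y / x s ^ j ∈ 𝒪 := by
    intro j
    induction j with
    | zero =>
      intro y hy
      rw [pow_zero, Set.mem_one] at hy
      rw [hy, pow_zero, div_one]
      exact 𝒪.one_mem
    | succ j ih =>
      intro y hy
      rw [pow_succ, Set.mem_mul] at hy
      obtain ⟨y', hy', _, ⟨i, rfl⟩, rfl⟩ := hy
      have h1 : y' * x i / x s ^ (j + 1) = (y' / x s ^ j) * (x i / x s) := by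
        rw [pow_succ]
        field_simp
      rw [h1]
      exact 𝒪.mul_mem (ih y' hy') (hx i)
  have hpow : ∀ j : ℕ, x s ^ j ∈ Set.range x ^ j := by
    intro j
    induction j with
    | zero => rw [pow_zero, pow_zero]; exact Set.mem_one.2 rfl
    | succ j ih =>
      rw [pow_succ, pow_succ]
      exact Set.mul_mem_mul ih ⟨s, rfl⟩
  have hJ : ∀ j, 1 ≤ j → j < p → (p : F) / (∑ i, t i) ^ j ∈ 𝒪 ∨ (∑ i, t i) ^ j / (p : F) ∈ 𝒪 := by
    intro j h1 h2
    obtain ⟨g₀, hg₀, hg0, hall⟩ := hI j h1 h2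
    rcases hg₀ with ⟨y, hy, rfl⟩ | rfl
    · right
      have h3 := hall _ (Or.inr rfl)
      have hy0 : y ≠ 0 := right_ne_zero_of_mul hg0
      have h4 : (∑ i, t i) ^ j / (p : F) = ((∑ i, x i) ^ j / ((p : F) * y)) * (y / x s ^ j) := by
        rw [hsum, mul_pow]
        have := h.p0
        field_simp
      rw [h4]
      exact 𝒪.mul_mem h3 (hmono j y hy)
    · left
      have h3 := hall ((p : F) * x s ^ j) (Or.inl ⟨_, hpow j, rfl⟩)
      have h4 : (p : F) / (∑ i, t i) ^ j = (p : F) * x s ^ j / (∑ i, x i) ^ j := by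
        rw [hsum, mul_pow]
        field_simp
      rw [h4]
      exact h3
  have hpm : (p : F) ∈ 𝒪 := by
    have := h.hR (p : R)
    rwa [map_natCast] at this
  obtain ⟨j, a, b, hj, ha, hb, haU, hL, hp, hG⟩ := hCL 𝒪 h.loc p hp1 (p : F) (∑ i, t i)
    (aeval t g) h.p0 hL0 hpm hLm (aeval_mem 𝒪 h.hR t hx g) h.pU (by rw [hg]; ring) hJ
  have hab : a * b ≠ 0 := hL ▸ hL0
  exact ⟨j, a, b, ⟨h.loc, h.hR, h.coef, h.irr, div_self hs, hx, ha, hb,
    left_ne_zero_of_mul hab, right_ne_zero_of_mul hab, haU, hj, hL, hp, hG, h.hind s hs⟩⟩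

end data

section charp

variable {k : Type} [CommRing k] [IsDomain k] (p : ℕ) [hp : Fact p.Prime] [CharP k p]

theorem fermat_k (c : ℕ) (h1 : 1 ≤ c) (h2 : c < p) : (c : k) ^ (p - 1) = 1 := by
  have h3 : (c : ZMod p) ≠ 0 := by
    rw [Ne, ZMod.natCast_eq_zero_iff]
    exact fun h => absurd (Nat.le_of_dvd h1 h) (by omega)
  have h4 := congrArg (ZMod.castHom (dvd_refl p) k) (ZMod.pow_card_sub_one_eq_one h3)
  rwa [map_pow, map_natCast, map_one] at h4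

theorem cast_inj (c c' : ℕ) (h2 : c < p) (h2' : c' < p) (h : (c : k) = (c' : k)) : c = c' := by
  rw [CharP.natCast_eq_natCast k p] at h
  rwa [Nat.ModEq, Nat.mod_eq_of_lt h2, Nat.mod_eq_of_lt h2'] at h

theorem exists_nat_of_pow (τ : k) (h : τ ^ (p - 1) = 1) : ∃ c : ℕ, 1 ≤ c ∧ c < p ∧ τ = (c : k) := by
  classical
  have hp1 : 1 < p := hp.out.one_lt
  set S : Finset k := (Finset.Ico 1 p).image (fun c : ℕ => (c : k)) with hS
  by_contra hcon
  push Not at hcon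
  have hτ : τ ∉ S := by
    rw [hS, Finset.mem_image]
    rintro ⟨c, hc, rfl⟩
    rw [Finset.mem_Ico] at hc
    exact hcon c hc.1 hc.2 rfl
  have hcard : S.card = p - 1 := by
    rw [hS, Finset.card_image_of_injOn, Nat.card_Ico]
    intro c hc c' hc' hcc
    simp only [Finset.coe_Ico, Set.mem_Ico] at hc hc'
    exact cast_inj p c c' hc.2 hc'.2 hcc
  set f : Polynomial k := Polynomial.X ^ (p - 1) - Polynomial.C 1 with hf
  have hf0 : f ≠ 0 := Polynomial.X_pow_sub_C_ne_zero (by omega) 1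
  have hdeg : f.natDegree = p - 1 := Polynomial.natDegree_X_pow_sub_C
  have hroot : ∀ y ∈ insert τ S, f.IsRoot y := by
    intro y hy
    rw [hf, Polynomial.IsRoot.def, Polynomial.eval_sub, Polynomial.eval_pow, Polynomial.eval_X,
      Polynomial.eval_C, sub_eq_zero]
    rcases Finset.mem_insert.1 hy with rfl | hy
    · exact h
    · rw [hS, Finset.mem_image] at hy
      obtain ⟨c, hc, rfl⟩ := hy
      rw [Finset.mem_Ico] at hc
      exact fermat_k p c hc.1 hc.2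
  have hle : (insert τ S).val ⊆ f.roots := by
    intro y hy
    rw [Polynomial.mem_roots hf0]
    exact hroot y hy
  have h2 := Polynomial.card_le_degree_of_subset_roots hle
  rw [hdeg, Finset.card_insert_of_notMem hτ, hcard] at h2
  omega

end charp

section residue

variable {R F ι : Type} [CommRing R] [IsDomain R] [IsDiscreteValuationRing R] [Field F]
  [Algebra R F] [Fintype ι] [DecidableEq ι]

/-- The residue map with its properties at a chart. -/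
theorem residue_chart (𝒪 : Subring F) (p j : ℕ) (co : ι → R) (g : MvPolynomial ι R) (t : ι → F)
    (s : ι) (a b : F) (hD : Data 𝒪 p j co g t s a b) :
    ∃ (k : Type) (_ : CommRing k) (_ : IsDomain k) (_ : CharP k p) (r : 𝒪 →+* k) (T : ι → 𝒪),
      (∀ y : 𝒪, r y = 0 ↔ ¬ U 𝒪 (y : F)) ∧ (∀ i, (T i : F) = t i) ∧ T s = 1 ∧
      ∑ i, r (T i) = 0 := by
  obtain ⟨k, _, _, r, hr⟩ := exists_residue hD.loc
  have hprime : Fact p.Prime := ⟨hD.coef.prime⟩
  have ha : r ⟨a, hD.ha⟩ = 0 := (hr _).2 hD.haU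
  have hpk : (p : k) = 0 := by
    have h1 : ((p : ℕ) : 𝒪) = (⟨a, hD.ha⟩ : 𝒪) ^ (j + 1) * (⟨b, hD.hb⟩ : 𝒪) ^ j := by
      apply Subtype.ext
      push_cast
      exact hD.hp
    have h2 := congrArg r h1
    rw [map_natCast, map_mul, map_pow, ha, pow_succ, mul_zero, zero_mul] at h2
    exact h2
  have hchar : CharP k p := (CharP.charP_iff_prime_eq_zero hD.coef.prime).2 hpk
  refine ⟨k, inferInstance, inferInstance, hchar, r, fun i => ⟨t i, hD.ht i⟩, hr, fun i => rfl,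
    Subtype.ext hD.hs, ?_⟩
  rw [← map_sum]
  have h1 : ∑ i, (⟨t i, hD.ht i⟩ : 𝒪) = (⟨a, hD.ha⟩ : 𝒪) * ⟨b, hD.hb⟩ := by
    apply Subtype.ext
    push_cast
    exact hD.hL
  rw [h1, map_mul, ha, zero_mul]

theorem caseA (𝒪 : Subring F) (p j : ℕ) (co : ι → R) (g : MvPolynomial ι R) (t : ι → F)
    (s : ι) (a b : F) (hD : Data 𝒪 p j co g t s a b) (i₁ : ι) (hi₁ : U 𝒪 (t i₁ ^ (p - 1) - 1)) :
    i₁ ≠ s ∧ ∃ i, i ≠ s ∧ i ≠ i₁ ∧ U 𝒪 (t i ^ (p - 1) - t i₁ ^ (p - 1)) := by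
  obtain ⟨k, _, _, _, r, T, hr, hT, hTs, hsum⟩ := residue_chart 𝒪 p j co g t s a b hD
  have hprime : Fact p.Prime := ⟨hD.coef.prime⟩
  have hp1 : 1 < p := hD.coef.prime.one_lt
  have hi₁s : i₁ ≠ s := by
    rintro rfl
    rw [hD.hs, one_pow, sub_self] at hi₁
    exact not_U_zero hi₁
  have hr1 : r (T i₁) ^ (p - 1) - 1 ≠ 0 := by
    intro h
    have h1 : r (T i₁ ^ (p - 1) - 1) = 0 := by rw [map_sub, map_pow, map_one]; exact h
    rw [hr] at h1
    apply h1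
    push_cast
    rw [hT]
    exact hi₁
  refine ⟨hi₁s, ?_⟩
  by_contra hcon
  push Not at hcon
  have hall : ∀ i, i ≠ s → r (T i) ^ (p - 1) = r (T i₁) ^ (p - 1) := by
    intro i hi
    by_cases hii : i = i₁
    · rw [hii]
    · have h1 : r (T i ^ (p - 1) - T i₁ ^ (p - 1)) = 0 := by
        rw [hr]
        push_cast
        rw [hT, hT]
        exact hcon i hi hii
      rw [map_sub, map_pow, map_pow, sub_eq_zero] at h1
      exact h1
  have hpow : ∑ i, r (T i) ^ p = 0 := by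
    rw [← sum_pow_char, hsum, zero_pow (by omega)]
  set θ := r (T i₁) ^ (p - 1) with hθ
  have hpp : ∀ y : k, y ^ p = y ^ (p - 1) * y := by
    intro y
    rw [← pow_succ, Nat.sub_add_cancel hp1.le]
  have h2 : ∀ i ∈ Finset.univ.erase s, r (T i) ^ p = θ * r (T i) := by
    intro i hi
    rw [hpp, hall i (Finset.ne_of_mem_erase hi)]
  rw [← Finset.add_sum_erase _ _ (Finset.mem_univ s), Finset.sum_congr rfl h2, ← Finset.mul_sum,
    hTs, map_one, one_pow] at hpow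
  rw [← Finset.add_sum_erase _ _ (Finset.mem_univ s), hTs, map_one] at hsum
  apply hr1
  linear_combination (-1 : k) * hpow + θ * hsum

theorem caseA2 (𝒪 : Subring F) (p j : ℕ) (co : ι → R) (g : MvPolynomial ι R) (t : ι → F)
    (s : ι) (a b : F) (hD : Data 𝒪 p j co g t s a b) (i₁ : ι) (hi₁ : U 𝒪 (t i₁ ^ (p - 1) - 1))
    (i₀ : ι) (c : ι → ℕ) (β : R) (hc : Special p g i₀ c β) :
    ∃ i, U 𝒪 (t i - (c i : F) * t i₀) := by
  obtain ⟨k, _, _, _, r, T, hr, hT, hTs, hsum⟩ := residue_chart 𝒪 p j co g t s a b hD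
  have hprime : Fact p.Prime := ⟨hD.coef.prime⟩
  by_contra hcon
  push Not at hcon
  have hall : ∀ i, r (T i) = (c i : k) * r (T i₀) := by
    intro i
    have h1 : r (T i - (c i : 𝒪) * T i₀) = 0 := by
      rw [hr]
      push_cast
      rw [hT, hT]
      exact hcon i
    rw [map_sub, map_mul, map_natCast, sub_eq_zero] at h1
    exact h1
  have h0 : r (T i₀) ^ (p - 1) = 1 := by
    have h1 := hall s
    rw [hTs, map_one] at h1
    have h2 := congrArg (fun y => y ^ (p - 1)) h1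
    simp only [one_pow, mul_pow, fermat_k p (c s) (hc.pos s) (hc.lt s), one_mul] at h2
    exact h2.symm
  have h1 : r (T i₁ ^ (p - 1) - 1) = 0 := by
    rw [map_sub, map_pow, map_one, hall, mul_pow, h0, fermat_k p (c i₁) (hc.pos i₁) (hc.lt i₁)]
    ring
  rw [hr] at h1
  apply h1
  push_cast
  rw [hT]
  exact hi₁

theorem caseB (𝒪 : Subring F) (p j : ℕ) (co : ι → R) (g : MvPolynomial ι R) (t : ι → F)
    (i₀ : ι) (a b : F) (hD : Data 𝒪 p j co g t i₀ a b) (hj : j + 2 ≤ p)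
    (hB : ∀ i, ¬ U 𝒪 (t i ^ (p - 1) - 1)) :
    ∃ (c : ι → ℕ) (β : R), Special p g i₀ c β ∧ ∀ i, ¬ U 𝒪 (t i - (c i : F)) := by
  obtain ⟨k, _, _, _, r, T, hr, hT, hTs, hsum⟩ := residue_chart 𝒪 p j co g t i₀ a b hD
  have hprime : Fact p.Prime := ⟨hD.coef.prime⟩
  have hp1 : 1 < p := hD.coef.prime.one_lt
  have hpow : ∀ i, r (T i) ^ (p - 1) = 1 := by
    intro i
    have h1 : r (T i ^ (p - 1) - 1) = 0 := by
      rw [hr]
      push_cast
      rw [hT]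
      exact hB i
    rw [map_sub, map_pow, map_one, sub_eq_zero] at h1
    exact h1
  choose c hc1 hc2 hc3 using fun i => exists_nat_of_pow p (r (T i)) (hpow i)
  have hc0 : c i₀ = 1 := by
    have h1 := hc3 i₀
    rw [hTs, map_one] at h1
    exact cast_inj (k := k) p (c i₀) 1 (hc2 i₀) hp1 (by rw [← h1, Nat.cast_one])
  have hsumc : p ∣ ∑ i, c i := by
    rw [← CharP.cast_eq_zero_iff k p, Nat.cast_sum, ← hsum]
    exact Finset.sum_congr rfl fun i _ => (hc3 i).symm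
  let φ : R →+* 𝒪 := (algebraMap R F).codRestrict 𝒪 hD.hR
  have hφ : ∀ y : R, ((φ y : 𝒪) : F) = algebraMap R F y := fun y => rfl
  have hTg : ((eval₂ φ T g : 𝒪) : F) = aeval t g := by
    have h1 := eval₂_comp_left 𝒪.subtype φ T g
    have h2 : (⇑𝒪.subtype ∘ T) = t := by
      funext i
      exact hT i
    rw [h2] at h1
    exact h1
  have ha : r ⟨a, hD.ha⟩ = 0 := (hr _).2 hD.haU
  have hgz : r (eval₂ φ T g) = 0 := by
    have h1 : eval₂ φ T g = - ((⟨a, hD.ha⟩ : 𝒪) ^ (p - 1 - j) * (⟨b, hD.hb⟩ : 𝒪) ^ (p - j)) := by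
      apply Subtype.ext
      rw [hTg]
      push_cast
      exact eq_neg_of_add_eq_zero_left hD.hG
    rw [h1, map_neg, map_mul, map_pow, ha, zero_pow (by omega), zero_mul, neg_zero]
  have hgc : r (φ (aeval (fun i => (c i : R)) g)) = 0 := by
    have h1 := eval₂_comp_left r φ T g
    rw [hgz] at h1
    have h2 := eval₂_comp_left (r.comp φ) (RingHom.id R) (fun i => (c i : R)) g
    have h3 : (⇑(r.comp φ) ∘ fun i => (c i : R)) = ⇑r ∘ T := by
      funext i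
      simp only [Function.comp, map_natCast]
      exact (hc3 i).symm
    rw [h3, RingHom.comp_id, ← h1] at h2
    exact h2
  have hnu : ¬ IsUnit (aeval (fun i => (c i : R)) g) := by
    intro hu
    have h1 := (hr _).1 hgc
    apply h1
    rw [hφ]
    obtain ⟨u, hu⟩ := hu
    rw [← hu]
    refine ⟨?_, hD.hR _, ?_⟩
    · exact ((u.isUnit).map (algebraMap R F)).ne_zero
    · have h2 : (algebraMap R F (u : R))⁻¹ = algebraMap R F ((u⁻¹ : Rˣ) : R) := by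
        symm
        apply eq_inv_of_mul_eq_one_left
        rw [← map_mul]
        simp
      rw [h2]
      exact hD.hR _
  have hdvd : (p : R) ∣ aeval (fun i => (c i : R)) g := by
    rw [← Ideal.mem_span_singleton, ← hD.irr.maximalIdeal_eq]
    exact (IsLocalRing.mem_maximalIdeal _).2 hnu
  obtain ⟨y, hy⟩ := hdvd
  obtain ⟨σ, hσ⟩ := hsumc
  refine ⟨c, y - σ, ⟨hc1, hc2, hc0, ⟨σ, hσ⟩, ?_⟩, ?_⟩
  · rw [hy, ← Nat.cast_sum, hσ]
    push_cast
    ring
  · intro i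
    have h1 : r (T i - (c i : 𝒪)) = 0 := by
      rw [map_sub, map_natCast, hc3 i, sub_self]
    rw [hr] at h1
    push_cast at h1
    rw [hT] at h1
    exact h1

/-- Another special point does not match. -/
theorem other (𝒪 : Subring F) (p j : ℕ) (co : ι → R) (g : MvPolynomial ι R) (t : ι → F)
    (i₀ : ι) (a b : F) (hD : Data 𝒪 p j co g t i₀ a b) (c : ι → ℕ) (hc : ∀ i, c i < p)
    (hB : ∀ i, ¬ U 𝒪 (t i - (c i : F))) (c' : ι → ℕ) (hc' : ∀ i, c' i < p) (hne : c' ≠ c) :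
    ∃ i, U 𝒪 (t i - (c' i : F) * t i₀) := by
  obtain ⟨k, _, _, _, r, T, hr, hT, hTs, hsum⟩ := residue_chart 𝒪 p j co g t i₀ a b hD
  have hprime : Fact p.Prime := ⟨hD.coef.prime⟩
  by_contra hcon
  push Not at hcon
  apply hne
  funext i
  have h1 : r (T i - (c i : 𝒪)) = 0 := by
    rw [hr]
    push_cast
    rw [hT]
    exact hB i
  have h2 : r (T i - (c' i : 𝒪)) = 0 := by
    rw [hr]
    push_cast
    rw [hT]
    have h3 := hcon i
    rwa [hD.hs, mul_one] at h3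
  rw [map_sub, map_natCast, sub_eq_zero] at h1 h2
  exact cast_inj (k := k) p _ _ (hc' i) (hc i) (by rw [← h1, ← h2])

end residue

section assembly

variable {R F ι : Type} [CommRing R] [Field F] [Algebra R F] [Fintype ι]

theorem fac_prin (hTI : S_TI) (hT0 : S_T0) (hTJ : S_TJ) (hTL : S_TL) (𝒲 : Subalgebra R F)
    (𝒪 : Subring F) (p j : ℕ) (t : ι → F) (s : ι) (a b : F) (hC : Ctx 𝒲 𝒪 p j t s a b)
    (hp2 : 2 ≤ p) (g : MvPolynomial ι R) (i₀ : ι) (P : Set F → Prop)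
    (hP : ∀ S, Prin 𝒲 𝒪 S → P S)
    (H : ∀ c β, Special p g i₀ c β →
      ((1 ≤ j ∨ U 𝒪 (b + algebraMap R F β * t i₀) ∨ ∃ i, U 𝒪 (t i - (c i : F) * t i₀)) ∨
        P (K0 p t i₀ c (algebraMap R F β))) ∧
      (∀ j', 1 ≤ j' → j' + 2 ≤ p →
        ((j' ≠ j ∨ U 𝒪 b ∨ ∃ i, U 𝒪 (t i - (c i : F) * t i₀)) ∨ P (Kj p t i₀ c j'))) ∧
      ((j + 2 ≠ p ∨ U 𝒪 (t i₀ ^ (p - 1) + b) ∨ ∃ i, U 𝒪 (t i - (c i : F) * t i₀)) ∨
        P (Kl p t i₀ c))) :
    ∀ S, IsFac p g t i₀ S → P S := by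
  intro S hS
  rcases hS with rfl | ⟨j', h1, h2, rfl⟩ | ⟨c, β, hc, rfl | ⟨j', h1, h2, rfl⟩ | rfl⟩
  · exact hP _ (hTI 𝒲 𝒪 p j t s a b hC).1
  · exact hP _ ((hTI 𝒲 𝒪 p j t s a b hC).2 j')
  · rcases (H c β hc).1 with h | h
    · exact hP _ (hT0 𝒲 𝒪 p j t s a b hC i₀ c _ (𝒲.algebraMap_mem β) h)
    · exact h
  · rcases (H c β hc).2.1 j' h1 h2 with h | h
    · exact hP _ (hTJ 𝒲 𝒪 p j t s a b hC i₀ c j' h)
    · exact h
  · rcases (H c β hc).2.2 with h | h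
    · exact hP _ (hTL 𝒲 𝒪 p j t s a b hC hp2 i₀ c h)
    · exact h

theorem adjoin_le (𝒪 : Subring F) (hR : ∀ r : R, algebraMap R F r ∈ 𝒪) (S : Set F)
    (hS : ∀ y ∈ S, y ∈ 𝒪) : ∀ w ∈ Algebra.adjoin R S, w ∈ 𝒪 := by
  intro w hw
  induction hw using Algebra.adjoin_induction with
  | mem x hx => exact hS x hx
  | algebraMap r => exact hR r
  | add x y _ _ hx hy => exact 𝒪.add_mem hx hy
  | mul x y _ _ hx hy => exact 𝒪.mul_mem hx hy

theorem ctx_of (𝒪 : Subring F) (p j : ℕ) (co : ι → R) (g : MvPolynomial ι R)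
    (t : ι → F) (s : ι) (a b : F) (hD : Data 𝒪 p j co g t s a b) :
    Ctx (Algebra.adjoin R ({a, b} ∪ Set.range t)) 𝒪 p j t s a b := by
  refine ⟨hD.loc, ?_, ?_, hD.hs, ?_, ?_, hD.ha0, hD.hb0, hD.haU, hD.hL, hD.hp, hD.hj⟩
  · apply adjoin_le 𝒪 hD.hR
    rintro y (hy | ⟨i, rfl⟩)
    · rcases hy with rfl | hy
      · exact hD.ha
      · rw [Set.mem_singleton_iff.1 hy]; exact hD.hb
    · exact hD.ht i
  · intro i
    exact Algebra.subset_adjoin (Or.inr ⟨i, rfl⟩)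
  · exact Algebra.subset_adjoin (Or.inl (Or.inl rfl))
  · exact Algebra.subset_adjoin (Or.inl (Or.inr rfl))

end assembly

end LOCaux

open LOCaux

section main

variable {R F ι : Type} [CommRing R] [IsDomain R] [IsDiscreteValuationRing R] [Field F]
  [Algebra R F] [Fintype ι] [DecidableEq ι]

/-- The exceptional case. -/
theorem LOCaux.exceptional (hBL1 : S_BL1) (hBL2 : S_BL2)
    (hTI : S_TI) (hT0 : S_T0) (hTJ : S_TJ) (hTL : S_TL) (hS : S_SUMT) (hCH3 : S_CH3)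
    (𝒪 : Subring F) (p j : ℕ) (co : ι → R) (g : MvPolynomial ι R) (t : ι → F)
    (i₀ d : ι) (a b : F) (hD : Data 𝒪 p j co g t i₀ a b) (hd : i₀ ≠ d)
    (hloc : ∀ 𝒱 : Subalgebra R F, (∀ w ∈ 𝒱, w ∈ 𝒪) →
      (∀ S, IsFac p g t i₀ S → Prin 𝒱 𝒪 S) → IsLocOf 𝒪 𝒱)
    (hPr : ∀ S, IsFac p g t i₀ S → Pr 𝒪 S)
    (c : ι → ℕ) (β b₀ : R) (hc : Special p g i₀ c β) (hB : ∀ i, ¬ U 𝒪 (t i - (c i : F)))
    (hk : Kind p j β b₀) (hbU : ¬ U 𝒪 (b + algebraMap R F b₀)) (Φ : Set F)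
    (hΦ : IsFac p g t i₀ Φ)
    (hE : Exc (Algebra.adjoin R ({a, b} ∪ Set.range t)) 𝒪 Φ
      (zI (s := i₀) (d := d) a (b + algebraMap R F b₀) t c))
    (h0 : K0 p t i₀ c (algebraMap R F β) = Φ ∨ 1 ≤ j ∨ U 𝒪 (b + algebraMap R F β))
    (hj : ∀ j', 1 ≤ j' → j' + 2 ≤ p → Kj p t i₀ c j' = Φ ∨ j' ≠ j ∨ U 𝒪 b)
    (hl : Kl p t i₀ c = Φ ∨ j + 2 ≠ p ∨ U 𝒪 (1 + b)) : IsRegularLocalRing 𝒪 := by
  have hp2 : 2 ≤ p := hD.coef.prime.two_le
  have hC := ctx_of 𝒪 p j co g t i₀ a b hD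
  set 𝒲 := Algebra.adjoin R ({a, b} ∪ Set.range t) with h𝒲
  set z : Idx i₀ d → F := zI a (b + algebraMap R F b₀) t c with hz
  have hzU : ∀ k, ¬ U 𝒪 (z k) := by
    intro k
    match k with
    | none => exact hD.haU
    | some none => exact hbU
    | some (some k) => exact hB k
  have hcm : ∀ i, ((c i : ℕ) : F) ∈ 𝒪 := fun i => by
    have := hD.hR (c i : R)
    rwa [map_natCast] at this
  have hzm : ∀ k, z k ∈ 𝒪 := by
    intro k
    match k with
    | none => exact hD.ha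
    | some none => exact 𝒪.add_mem hD.hb (hD.hR _)
    | some (some k) => exact 𝒪.sub_mem (hD.ht k) (hcm k)
  obtain ⟨k₀, hk0, hk1⟩ := hBL1 𝒪 hD.loc 𝒲 hC.hW Φ z hzm (hPr Φ hΦ) hE
  set 𝒱 := Algebra.adjoin R (insert (z k₀) (Set.range fun k => z k / z k₀)) with h𝒱
  have h𝒱𝒪 : ∀ w ∈ 𝒱, w ∈ 𝒪 := by
    apply adjoin_le 𝒪 hD.hR
    rintro y (rfl | ⟨k, rfl⟩)
    · exact hzm k₀
    · exact hk1 k
  have hq : ∀ k, z k / z k₀ ∈ 𝒱 := fun k => Algebra.subset_adjoin (Or.inr ⟨k, rfl⟩)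
  have hz𝒱 : ∀ k, z k ∈ 𝒱 := by
    intro k
    have h1 : z k = z k₀ * (z k / z k₀) := by field_simp
    rw [h1]
    exact 𝒱.mul_mem (Algebra.subset_adjoin (Or.inl rfl)) (hq k)
  have hc𝒱 : ∀ i, ((c i : ℕ) : F) ∈ 𝒱 := fun i => by
    have := 𝒱.algebraMap_mem (c i : R)
    rwa [map_natCast] at this
  have ha𝒱 : a ∈ 𝒱 := hz𝒱 none
  have hb𝒱 : b ∈ 𝒱 := by
    have h1 : b = z (some none) - algebraMap R F b₀ := by
      simp only [hz, zI, Option.elim]
      ring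
    rw [h1]
    exact 𝒱.sub_mem (hz𝒱 _) (𝒱.algebraMap_mem _)
  have hk𝒱 : ∀ k : Rest i₀ d, t k ∈ 𝒱 := by
    intro k
    have h1 : t k = z (some (some k)) + (c k : F) := by
      simp only [hz, zI, Option.elim]
      ring
    rw [h1]
    exact 𝒱.add_mem (hz𝒱 _) (hc𝒱 _)
  have ht𝒱 : ∀ i, t i ∈ 𝒱 := by
    intro i
    by_cases h1 : i = i₀
    · rw [h1, hD.hs]; exact 𝒱.one_mem
    by_cases h2 : i = d
    · have h3 := (hS i₀ d hd (fun _ : ι => (0 : F)) (fun _ => 0) 0).2 t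
      rw [hD.hL, hD.hs] at h3
      have h4 : t i = a * b - 1 - ∑ k : Rest i₀ d, t k := by
        rw [h2, h3]
        ring
      rw [h4]
      exact 𝒱.sub_mem (𝒱.sub_mem (𝒱.mul_mem ha𝒱 hb𝒱) 𝒱.one_mem)
        (𝒱.sum_mem fun k _ => hk𝒱 k)
    · exact hk𝒱 ⟨i, h1, h2⟩
  have hle : 𝒲 ≤ 𝒱 := by
    rw [h𝒲, Algebra.adjoin_le_iff]
    rintro y (hy | ⟨i, rfl⟩)
    · rcases hy with rfl | hy
      · exact ha𝒱
      · rw [Set.mem_singleton_iff.1 hy]; exact hb𝒱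
    · exact ht𝒱 i
  have hmono : ∀ S, Prin 𝒲 𝒪 S → Prin 𝒱 𝒪 S := by
    rintro S ⟨m, hm, h1, h2⟩
    exact ⟨m, hm, fun h hh => hle (h1 h hh), h2⟩
  have hΦ𝒱 : Prin 𝒱 𝒪 Φ := hBL2 𝒪 𝒲 𝒱 h𝒱𝒪 hle Φ z k₀ hk0 hq hE
  have hfac := fac_prin hTI hT0 hTJ hTL 𝒲 𝒪 p j t i₀ a b hC hp2 g i₀ (fun S => Prin 𝒱 𝒪 S)
    hmono (by
      intro c' β' hc'
      by_cases hcc : c' = c
      · subst hcc
        have hββ : β' = β := by
          have h1 : (p : R) * β' = p * β := by rw [hc'.val, hc.val]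
          exact mul_left_cancel₀ hD.coef.ne h1
        subst hββ
        refine ⟨?_, ?_, ?_⟩
        · rcases h0 with h | h | h
          · right; rw [h]; exact hΦ𝒱
          · exact Or.inl (Or.inl h)
          · left; right; left
            rw [hD.hs, mul_one]; exact h
        · intro j' h1 h2
          rcases hj j' h1 h2 with h | h | h
          · right; rw [h]; exact hΦ𝒱
          · exact Or.inl (Or.inl h)
          · exact Or.inl (Or.inr (Or.inl h))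
        · rcases hl with h | h | h
          · right; rw [h]; exact hΦ𝒱
          · exact Or.inl (Or.inl h)
          · left; right; left
            rw [hD.hs, one_pow]; exact h
      · have h1 := other 𝒪 p j co g t i₀ a b hD c hc.lt hB c' hc'.lt hcc
        exact ⟨Or.inl (Or.inr (Or.inr h1)), fun _ _ _ => Or.inl (Or.inr (Or.inr h1)),
          Or.inl (Or.inr (Or.inr h1))⟩)
  exact hCH3 𝒪 p j co g t i₀ d a b hD hd c β b₀ hc hk k₀ hk0 hk1 (hzU k₀) (hloc 𝒱 h𝒱𝒪 hfac)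

theorem LOCaux.U_of_pow {𝒪 : Subring F} {y : F} (hy : y ∈ 𝒪) (n : ℕ) (hn : 1 ≤ n)
    (h : U 𝒪 (y ^ n)) : U 𝒪 y := by
  obtain ⟨m, rfl⟩ : ∃ m, n = m + 1 := ⟨n - 1, by omega⟩
  rw [pow_succ] at h
  exact h.of_mul_right (𝒪.pow_mem hy m) hy

theorem LOCaux.U_add {𝒪 : Subring F} (h : IsLoc 𝒪) {x y : F} (hx : U 𝒪 x) (hy : y ∈ 𝒪)
    (hyU : ¬ U 𝒪 y) : U 𝒪 (x + y) := by
  by_contra hcon
  have hm : -y ∈ 𝒪 := 𝒪.neg_mem hy
  have h1 : U 𝒪 ((x + y) + -y) := by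
    have h2 : (x + y) + -y = x := by ring
    rw [h2]; exact hx
  rcases h _ _ (𝒪.add_mem hx.2.1 hy) hm h1 with h3 | h3
  · exact hcon h3
  · apply hyU
    refine ⟨neg_ne_zero.1 h3.1, hy, ?_⟩
    have h4 := h3.2.2
    rw [inv_neg] at h4
    simpa using 𝒪.neg_mem h4

theorem LOC_ok (hCL : S_CL) (hMAS : S_MAS) (hPRA : S_PRA) (hBL1 : S_BL1) (hBL2 : S_BL2)
    (hSC1 : S_SC1) (hSC2 : S_SC2) (hTI : S_TI) (hT0 : S_T0) (hTJ : S_TJ) (hTL : S_TL)
    (hX0 : S_X0) (hXJ : S_XJ) (hXL : S_XL) (hS : S_SUMT) (hCH1 : S_CH1) (hCH2 : S_CH2)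
    (hCH3 : S_CH3) : S_LOC := by
  intro R F ι κ _ _ _ _ _ _ _ _ 𝒪 p co g x i₀ h Φ hΦ f hf hfG hG hloc2
  have hp1 : 1 ≤ p := h.coef.prime.one_lt.le
  have hp2 : 2 ≤ p := h.coef.prime.two_le
  have hp3 : 3 ≤ p := by
    have := h.coef.odd
    omega
  have hPr : ∀ S, IsFac p g x i₀ S → Pr 𝒪 S := by
    intro S hS
    have h1 : S ∈ Set.range Φ := by rw [hΦ]; exact hS
    obtain ⟨k, rfl⟩ := h1
    exact hPRA 𝒪 h.loc h.hR Φ f hf hfG hG k
  have hMAS' : ∀ 𝒱 : Subalgebra R F, (∀ w ∈ 𝒱, w ∈ 𝒪) →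
      (∀ S, IsFac p g x i₀ S → Prin 𝒱 𝒪 S) → IsLocOf 𝒪 𝒱 := by
    intro 𝒱 h𝒱 hall
    refine hMAS 𝒪 h.loc h.hR 𝒱 h𝒱 Φ f hf hfG hG hloc2 fun k => hall _ ?_
    have h1 : Φ k ∈ Set.range Φ := ⟨k, rfl⟩
    rw [hΦ] at h1
    exact h1
  have hxt : ∀ s, x s ≠ 0 → x = fun i => x s * (x i / x s) := by
    intro s hs
    funext i
    field_simp
  have hPrt : ∀ s, x s ≠ 0 → ∀ S, IsFac p g (fun i => x i / x s) i₀ S → Pr 𝒪 S := by
    intro s hs S hS
    obtain ⟨μ, hμ, h1⟩ := fac2 hSC1 p hp1 g (fun i => x i / x s) (x s) hs i₀ S hS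
    rw [← hxt s hs] at h1
    exact (hSC2 (R := R) 𝒪 ⊥ μ hμ S).1 (hPr _ h1)
  have hLoct : ∀ s, x s ≠ 0 → ∀ 𝒱 : Subalgebra R F, (∀ w ∈ 𝒱, w ∈ 𝒪) →
      (∀ S, IsFac p g (fun i => x i / x s) i₀ S → Prin 𝒱 𝒪 S) → IsLocOf 𝒪 𝒱 := by
    intro s hs 𝒱 h𝒱 hall
    apply hMAS' 𝒱 h𝒱
    intro S hS
    rw [hxt s hs] at hS
    obtain ⟨μ, hμ, S', hS', rfl⟩ := fac1 hSC1 p hp1 g (fun i => x i / x s) (x s) hs i₀ S hS
    exact (hSC2 𝒪 𝒱 μ hμ S').2.1 (hall S' hS')
  have hI : ∀ j, 1 ≤ j → j < p → Pr 𝒪 (If p x j) := fun j h1 h2 =>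
    hPr _ (Or.inr (Or.inl ⟨j, h1, h2, rfl⟩))
  obtain ⟨_, ⟨s, rfl⟩, hs, hx⟩ := hPr _ (Or.inl rfl)
  have hxs : ∀ i, x i / x s ∈ 𝒪 := fun i => hx _ ⟨i, rfl⟩
  by_cases hA : ∃ i₁, U 𝒪 ((x i₁ / x s) ^ (p - 1) - 1)
  · obtain ⟨i₁, hi₁⟩ := hA
    obtain ⟨j, a, b, hD⟩ := exists_data hCL 𝒪 p co g x h s hs hxs hI
    have hC := ctx_of 𝒪 p j co g _ s a b hD
    obtain ⟨hi₁s, i, hi1, hi2, hi3⟩ := caseA 𝒪 p j co g _ s a b hD i₁ hi₁
    refine hCH1 𝒪 p j co g _ s i₁ a b hD (Ne.symm hi₁s) ?_ (Or.inr ⟨i, hi1, hi2, hi3⟩)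
    apply hLoct s hs _ hC.hW
    exact fac_prin hTI hT0 hTJ hTL _ 𝒪 p j _ s a b hC hp2 g i₀ _ (fun S hS => hS) (by
      intro c β hc
      have h1 := caseA2 𝒪 p j co g _ s a b hD i₁ hi₁ i₀ c β hc
      exact ⟨Or.inl (Or.inr (Or.inr h1)), fun _ _ _ => Or.inl (Or.inr (Or.inr h1)),
        Or.inl (Or.inr (Or.inr h1))⟩)
  · push Not at hA
    have hU : ∀ i, U 𝒪 (x i / x s) := by
      intro i
      apply U_of_pow (hxs i) (p - 1) (by omega)
      have h1 : (x i / x s) ^ (p - 1) = 1 + ((x i / x s) ^ (p - 1) - 1) := by ring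
      rw [h1]
      exact U_add h.loc U_one (𝒪.sub_mem (𝒪.pow_mem (hxs i) _) 𝒪.one_mem) (hA i)
    have hs0 : x i₀ ≠ 0 := by
      intro h0
      have h1 := (hU i₀).1
      rw [h0, zero_div] at h1
      exact h1 rfl
    have hdiv : ∀ i, x i / x i₀ = (x i / x s) / (x i₀ / x s) := by
      intro i
      field_simp
    have hxs0 : ∀ i, x i / x i₀ ∈ 𝒪 := by
      intro i
      rw [hdiv]
      exact ((hU i).div (hU i₀)).2.1
    have hB : ∀ i, ¬ U 𝒪 ((x i / x i₀) ^ (p - 1) - 1) := by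
      intro i hu
      have h0 : U 𝒪 ((x i₀ / x s) ^ (p - 1)) := (hU i₀).pow _
      have h1 : ((x i / x i₀) ^ (p - 1) - 1) * (x i₀ / x s) ^ (p - 1) =
          ((x i / x s) ^ (p - 1) - 1) + -((x i₀ / x s) ^ (p - 1) - 1) := by
        rw [hdiv i, div_pow]
        have := h0.1
        field_simp
        ring
      have h2 := hu.mul h0
      rw [h1] at h2
      rcases h.loc _ _ (𝒪.sub_mem (𝒪.pow_mem (hxs i) _) 𝒪.one_mem)
        (𝒪.neg_mem (𝒪.sub_mem (𝒪.pow_mem (hxs i₀) _) 𝒪.one_mem)) h2 with h3 | h3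
      · exact hA i h3
      · apply hA i₀
        refine ⟨neg_ne_zero.1 h3.1, 𝒪.sub_mem (𝒪.pow_mem (hxs i₀) _) 𝒪.one_mem, ?_⟩
        have h4 := h3.2.2
        rw [inv_neg] at h4
        simpa using 𝒪.neg_mem h4
    obtain ⟨j, a, b, hD⟩ := exists_data hCL 𝒪 p co g x h i₀ hs0 hxs0 hI
    have hC := ctx_of 𝒪 p j co g _ i₀ a b hD
    obtain ⟨d, hd⟩ : ∃ d, i₀ ≠ d := by
      have hcard := h.card
      have : Nontrivial ι := Fintype.one_lt_card_iff_nontrivial.1 hcard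
      obtain ⟨d, hd⟩ := exists_ne i₀
      exact ⟨d, hd.symm⟩
    by_cases hjp : j + 1 = p
    · refine hCH1 𝒪 p j co g _ i₀ d a b hD hd ?_ (Or.inl hjp)
      apply hLoct i₀ hs0 _ hC.hW
      exact fac_prin hTI hT0 hTJ hTL _ 𝒪 p j _ i₀ a b hC hp2 g i₀ _ (fun S hS => hS) (by
        intro c β hc
        exact ⟨Or.inl (Or.inl (by omega)), fun _ _ _ => Or.inl (Or.inl (by omega)),
          Or.inl (Or.inl (by omega))⟩)
    · have hj2 : j + 2 ≤ p := by
        have := hD.hj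
        omega
      obtain ⟨c, β, hc, hcB⟩ := caseB 𝒪 p j co g _ i₀ a b hD hj2 hB
      have hbm : b ∈ 𝒪 := hD.hb
      have hβm : algebraMap R F β ∈ 𝒪 := hD.hR β
      by_cases hv : U 𝒪 (v0 p j b (algebraMap R F β))
      · refine hCH2 𝒪 p j co g _ i₀ d a b hD hd c β hc hj2 ?_ hcB hv
        apply hLoct i₀ hs0 _ hC.hW
        exact fac_prin hTI hT0 hTJ hTL _ 𝒪 p j _ i₀ a b hC hp2 g i₀ _ (fun S hS => hS) (by
          intro c' β' hc'
          by_cases hcc : c' = c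
          · subst hcc
            have hββ : β' = β := by
              have h1 : (p : R) * β' = p * β := by rw [hc'.val, hc.val]
              exact mul_left_cancel₀ hD.coef.ne h1
            subst hββ
            refine ⟨Or.inl ?_, fun j' h1 h2 => Or.inl ?_, Or.inl ?_⟩
            · by_cases hj0 : j = 0
              · right; left
                rw [v0, if_pos hj0] at hv
                rw [hD.hs, mul_one]
                exact hv
              · left; omega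
            · by_cases hjj : j' = j
              · right; left
                rw [v0, if_neg (by omega)] at hv
                by_cases hjl : j + 2 = p
                · rw [if_pos hjl] at hv
                  have h3 : b + b ^ 2 = b * (1 + b) := by ring
                  rw [h3] at hv
                  exact hv.of_mul_left hbm (𝒪.add_mem 𝒪.one_mem hbm)
                · rw [if_neg hjl] at hv
                  exact hv
              · left; exact hjj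
            · by_cases hjl : j + 2 = p
              · right; left
                rw [v0, if_neg (by omega), if_pos hjl] at hv
                have h3 : b + b ^ 2 = b * (1 + b) := by ring
                rw [h3] at hv
                rw [hD.hs, one_pow]
                exact hv.of_mul_right hbm (𝒪.add_mem 𝒪.one_mem hbm)
              · left; exact hjl
          · have h1 := other 𝒪 p j co g _ i₀ a b hD c hc.lt hcB c' hc'.lt hcc
            exact ⟨Or.inl (Or.inr (Or.inr h1)), fun _ _ _ => Or.inl (Or.inr (Or.inr h1)),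
              Or.inl (Or.inr (Or.inr h1))⟩)
      · have hfin := exceptional hBL1 hBL2 hTI hT0 hTJ hTL hS hCH3 𝒪 p j co g _ i₀ d a b hD hd
          (hLoct i₀ hs0) (hPrt i₀ hs0) c β
        by_cases hj0 : j = 0
        · subst hj0
          rw [v0, if_pos rfl] at hv
          exact hfin β hc hcB (Or.inl ⟨rfl, rfl⟩) hv _ (Or.inr (Or.inr ⟨c, β, hc, Or.inl rfl⟩))
            (hX0 _ 𝒪 p _ i₀ d a b hC hd c hc.sum hc.one _ (Subalgebra.algebraMap_mem _ β))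
            (Or.inl rfl) (fun j' h1 h2 => Or.inr (Or.inl (by omega))) (Or.inr (Or.inl (by omega)))
        · rw [v0, if_neg hj0] at hv
          by_cases hbU : U 𝒪 b
          · have hjl : j + 2 = p := by
              by_contra hcon
              rw [if_neg hcon] at hv
              exact hv hbU
            rw [if_pos hjl] at hv
            have h1b : ¬ U 𝒪 (b + 1) := by
              intro hu
              apply hv
              have h3 : b + b ^ 2 = b * (b + 1) := by ring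
              rw [h3]
              exact hbU.mul hu
            refine hfin 1 hc hcB (Or.inr (Or.inr ⟨hjl, rfl⟩)) (by rw [map_one]; exact h1b) _
              (Or.inr (Or.inr ⟨c, β, hc, Or.inr (Or.inr rfl)⟩)) ?_
              (Or.inr (Or.inl (by omega))) (fun j' h1 h2 => Or.inr (Or.inr hbU)) (Or.inl rfl)
            rw [map_one]
            exact hXL _ 𝒪 p j _ i₀ d a b hC hd hjl hbU c hc.sum hc.one
          · refine hfin 0 hc hcB (Or.inr (Or.inl ⟨by omega, hj2, rfl⟩))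
              (by rw [map_zero, add_zero]; exact hbU) _
              (Or.inr (Or.inr ⟨c, β, hc, Or.inr (Or.inl ⟨j, by omega, hj2, rfl⟩)⟩)) ?_
              (Or.inr (Or.inl (by omega))) (fun j' h1 h2 => ?_)
              (Or.inr (Or.inr (U_add h.loc U_one hbm hbU)))
            · rw [map_zero, add_zero]
              exact hXJ _ 𝒪 p j _ i₀ d a b hC hd c hc.sum hc.one
            · by_cases hjj : j' = j
              · left; rw [hjj]
              · right; left; exact hjj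

end main

end Pool.Agent.H945R2.D
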