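import Pool.Agent.H945R2.D.Props

set_option autoImplicit false

open scoped Pointwise

namespace Pool.Agent.H945R2.D

open Pool.Agent.H918R2.Quad MvPolynomial

namespace MASaux

theorem U_prod {F : Type} [Field F] {𝒪 : Subring F} {κ : Type} (s : Finset κ) (x : κ → F)
    (h : ∀ k ∈ s, U 𝒪 (x k)) : U 𝒪 (∏ k ∈ s, x k) := by
  classical
  induction s using Finset.induction_on with
  | empty => simpa using U_one
  | insert a s ha ih =>
    rw [Finset.prod_insert ha]
    exact (h a (Finset.mem_insert_self a s)).mul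
      (ih fun k hk => h k (Finset.mem_insert_of_mem hk))

end MASaux

theorem MAS_ok : S_MAS := by
  classical
  intro R F _ _ _ 𝒪 hL hR 𝒲 hW κ _ Φ f hf hfs hG hloc hP
  obtain ⟨g0, hg0, hU0⟩ := exists_U_gen hL hR (∏ k, Φ k) f hf hG hfs
  obtain ⟨g, hg, hgp⟩ := (Set.mem_fintype_prod Φ g0).mp hg0
  choose m hm0 hmW h hh hhU using hP
  have hg0ne : g0 ≠ 0 := fun h0 => hU0.1 (by rw [h0, zero_div])
  have hgne : ∀ k, g k ≠ 0 := by
    intro k hk
    apply hg0ne
    rw [← hgp]
    exact Finset.prod_eq_zero (Finset.mem_univ k) hk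
  have hUk : ∀ k, U 𝒪 (g k / m k) := by
    intro k
    refine ⟨div_ne_zero (hgne k) (hm0 k), hW _ (hmW k _ (hg k)), ?_⟩
    have hhne : h k ≠ 0 := fun h0 => (hhU k).1 (by rw [h0, zero_div])
    have h1 : (∏ l, Function.update g k (h k) l) ∈ ∏ l, Φ l := by
      refine (Set.mem_fintype_prod Φ _).mpr ⟨Function.update g k (h k), ?_, rfl⟩
      intro l
      by_cases hl : l = k
      · subst hl
        simpa using hh l
      · rw [Function.update_of_ne hl]
        exact hg l
    have h2 : (∏ l, Function.update g k (h k) l) = h k / g k * g0 := by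
      rw [← hgp, ← Finset.mul_prod_erase Finset.univ g (Finset.mem_univ k),
        ← Finset.mul_prod_erase Finset.univ (Function.update g k (h k)) (Finset.mem_univ k)]
      have h3 : ∏ l ∈ Finset.univ.erase k, Function.update g k (h k) l
          = ∏ l ∈ Finset.univ.erase k, g l := by
        refine Finset.prod_congr rfl fun l hl => ?_
        rw [Function.update_of_ne (Finset.ne_of_mem_erase hl)]
      rw [h3, Function.update_self]
      have := hgne k
      field_simp
    have h4 : h k / g k ∈ 𝒪 := by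
      have h5 := 𝒪.mul_mem (hG _ h1) hU0.2.2
      have h6 : (∏ l, Function.update g k (h k) l) / f * (g0 / f)⁻¹ = h k / g k := by
        rw [h2]
        field_simp
      rwa [h6] at h5
    have h7 := 𝒪.mul_mem (hhU k).2.2 h4
    have h8 : (h k / m k)⁻¹ * (h k / g k) = (g k / m k)⁻¹ := by
      have := hm0 k
      have := hgne k
      field_simp
    rwa [h8] at h7
  have hmne : (∏ k, m k) ≠ 0 := Finset.prod_ne_zero_iff.mpr fun k _ => hm0 k
  have hUm : U 𝒪 (g0 / ∏ k, m k) := by
    rw [← hgp, ← Finset.prod_div_distrib]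
    exact MASaux.U_prod _ _ fun k _ => hUk k
  have hUf : U 𝒪 (f / ∏ k, m k) := by
    have h1 := hUm.mul hU0.inv
    have h2 : g0 / (∏ k, m k) * (g0 / f)⁻¹ = f / ∏ k, m k := by
      field_simp
    rwa [h2] at h1
  have hfr := frac_of_chart (𝒪 := 𝒪) (R := R) 𝒲.val (fun w => hW _ w.2) (∏ k, Φ k) f
    (∏ k, m k) hmne (by
      intro y hy
      obtain ⟨y', hy', rfl⟩ := (Set.mem_fintype_prod Φ y).mp hy
      refine ⟨∏ k, ⟨y' k / m k, hmW k _ (hy' k)⟩, ?_⟩
      rw [map_prod, ← Finset.prod_mul_distrib]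
      refine Finset.prod_congr rfl fun k _ => ?_
      have := hm0 k
      simp only [Subalgebra.coe_val]
      field_simp) hfs hUf hloc
  refine ⟨fun a ha => hW a ha, fun x hx => ?_⟩
  obtain ⟨a, b, hb0, hb, hxab⟩ := hfr x hx
  exact ⟨a.1, a.2, b.1, b.2, ⟨hb0, hW _ b.2, hb⟩, hxab⟩

end Pool.Agent.H945R2.D
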