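import Pool.Agent.H945R2.D.Props

/-! Task ND: the quadratic part is nondegenerate (by helper943). -/

set_option autoImplicit false

namespace Pool.Agent.H945R2.D

open Pool.Agent.H918R2.Quad MvPolynomial

namespace NDaux

/-- The matrix of the quadratic part. -/
def QM {R ι : Type} [CommRing R] [Fintype ι] [DecidableEq ι] (i₀ d : ι) (v lα : R)
    (l : Rest i₀ d → R) (w : ι → R) (K : ℕ) : Idx i₀ d → Idx i₀ d → R
  | none, none => lα
  | none, some none => v
  | none, some (some k) => l k
  | some none, _ => 0
  | some (some _), none => 0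
  | some (some _), some none => 0
  | some (some k), some (some k') => (K : R) * ((if k = k' then w k else 0) + w d)

theorem sum_rest {ι D : Type} [Fintype ι] [DecidableEq ι] [CommRing D] (s d : ι) (hsd : s ≠ d)
    (f : ι → D) : ∑ i, f i = f s + f d + ∑ k : Rest s d, f k := by
  classical
  have h1 : ∑ k : Rest s d, f k = ∑ k ∈ (Finset.univ.erase s).erase d, f k := by
    rw [← Finset.sum_subtype ((Finset.univ.erase s).erase d) (p := fun i => i ≠ s ∧ i ≠ d)
      (by intro x; simp [and_comm]) f]
  rw [h1, add_assoc, Finset.add_sum_erase _ _ (by simp [hsd.symm]), Finset.add_sum_erase _ _ (by simp)]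

theorem key {R ι D : Type} [CommRing R] [Fintype ι] [DecidableEq ι] [CommRing D] [IsDomain D]
    (p : ℕ) (hp : p.Prime) (h2 : p ≠ 2) (co : ι → R) (hco : ∀ i, (p : R) ∣ co i - 1)
    (i₀ d : ι) (hd : i₀ ≠ d) (c : ι → ℕ) (hpos : ∀ i, 1 ≤ c i) (hlt : ∀ i, c i < p)
    (hone : c i₀ = 1) (hsum : p ∣ ∑ i, c i) (v lα : R) (l : Rest i₀ d → R) (hv : IsUnit v)
    (f : R →+* D) (hf : f (p : R) = 0) (x : Idx i₀ d → D)
    (hx : ∀ j, ∑ i, f (QM i₀ d v lα l (fun i => co i * (c i : R) ^ (p - 2)) ((p - 1) / 2) i j +
      QM i₀ d v lα l (fun i => co i * (c i : R) ^ (p - 2)) ((p - 1) / 2) j i) * x i = 0) :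
    ∀ i, x i = 0 := by
  classical
  have hp0 : (p : D) = 0 := by simpa using hf
  have hp3 : 3 ≤ p := by
    have := hp.two_le
    omega
  have hodd : 2 * ((p - 1) / 2) + 1 = p := by
    have := hp.eq_two_or_odd
    omega
  have hK : (2 : D) * (((p - 1) / 2 : ℕ) : D) = -1 := by
    have h : ((2 * ((p - 1) / 2) + 1 : ℕ) : D) = 0 := by rw [hodd]; exact hp0
    push_cast at h
    linear_combination h
  have hcoD : ∀ i, f (co i) = 1 := by
    intro i
    obtain ⟨r, hr⟩ := hco i
    have : f (co i - 1) = f ((p : R) * r) := by rw [hr]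
    rw [map_sub, map_one, map_mul, hf, zero_mul, sub_eq_zero] at this
    exact this
  have hcp : ∀ i, (c i : D) ^ (p - 1) = 1 := by
    intro i
    have hcop : Nat.Coprime (c i) p := by
      refine Nat.Coprime.symm ((Nat.Prime.coprime_iff_not_dvd hp).2 ?_)
      intro h
      have := Nat.le_of_dvd (hpos i) h
      have := hlt i
      omega
    have h1 := Nat.ModEq.pow_totient hcop
    rw [Nat.totient_prime hp] at h1
    have h2 : (p : ℤ) ∣ ((1 : ℕ) : ℤ) - ((c i ^ (p - 1) : ℕ) : ℤ) := h1.dvd
    obtain ⟨r, hr⟩ := h2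
    have h3 : (((1 : ℕ) : ℤ) : D) - (((c i ^ (p - 1) : ℕ) : ℤ) : D) = ((p : ℤ) : D) * (r : D) := by
      have := congrArg (Int.cast : ℤ → D) hr
      push_cast at this ⊢
      exact this
    push_cast at h3
    rw [hp0, zero_mul, sub_eq_zero] at h3
    exact h3.symm
  have hsumD : (∑ i, (c i : D)) = 0 := by
    obtain ⟨r, hr⟩ := hsum
    have := congrArg (Nat.cast : ℕ → D) hr
    push_cast at this
    rw [this, hp0, zero_mul]
  have hvD : f v ≠ 0 := (hv.map f).ne_zero
  -- none coordinate
  have hnone : x none = 0 := by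
    have h := hx (some none)
    rw [Fintype.sum_option, Fintype.sum_option] at h
    simp only [QM, add_zero, zero_add, map_zero, zero_mul, Finset.sum_const_zero] at h
    rcases mul_eq_zero.1 h with h | h
    · exact absurd h hvD
    · exact h
  set K : D := (((p - 1) / 2 : ℕ) : D) with hKdef
  set S : D := ∑ k : Rest i₀ d, x (some (some k)) with hS
  have hw : ∀ i, f (co i * (c i : R) ^ (p - 2)) = (c i : D) ^ (p - 2) := by
    intro i
    rw [map_mul, hcoD, one_mul, map_pow, map_natCast]
  have hcc : ∀ i, (c i : D) * (c i : D) ^ (p - 2) = 1 := by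
    intro i
    rw [← pow_succ', show p - 2 + 1 = p - 1 by omega, hcp]
  have hk : ∀ k : Rest i₀ d, (c k : D) ^ (p - 2) * x (some (some k)) +
      (c d : D) ^ (p - 2) * S = 0 := by
    intro k
    have h := hx (some (some k))
    rw [Fintype.sum_option, Fintype.sum_option, hnone] at h
    simp only [QM, add_zero, zero_add, map_zero, zero_mul, mul_zero] at h
    have h' : ∑ k' : Rest i₀ d, (2 * K) * ((if k' = k then (c k : D) ^ (p - 2) else 0) +
        (c d : D) ^ (p - 2)) * x (some (some k')) = 0 := by
      refine Eq.trans (Finset.sum_congr rfl fun k' _ => ?_) h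
      by_cases hkk : k' = k
      · subst hkk
        simp only [if_true, map_add, map_mul, map_natCast, map_pow, hcoD, one_mul]
        rw [← hKdef]
        ring
      · have hkk' : ¬ (k = k') := fun h => hkk h.symm
        simp only [hkk, hkk', if_false, map_add, map_mul, map_natCast, map_pow, hcoD, one_mul,
          zero_add]
        rw [← hKdef]
        ring
    have h2 : ∑ k' : Rest i₀ d, (2 * K) * ((if k' = k then (c k : D) ^ (p - 2) else 0) +
        (c d : D) ^ (p - 2)) * x (some (some k')) =
        (2 * K) * ((c k : D) ^ (p - 2) * x (some (some k)) + (c d : D) ^ (p - 2) * S) := by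
      have : ∀ k' : Rest i₀ d, (2 * K) * ((if k' = k then (c k : D) ^ (p - 2) else 0) +
        (c d : D) ^ (p - 2)) * x (some (some k')) =
        (if k' = k then (2 * K) * (c k : D) ^ (p - 2) * x (some (some k')) else 0) +
        (2 * K) * (c d : D) ^ (p - 2) * x (some (some k')) := by
        intro k'
        split_ifs <;> ring
      rw [Finset.sum_congr rfl fun k' _ => this k', Finset.sum_add_distrib, Finset.sum_ite_eq']
      rw [← Finset.mul_sum, ← hS]
      simp only [Finset.mem_univ, if_true]
      ring
    rw [h2, hK] at h'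
    linear_combination -h'
  have hk2 : ∀ k : Rest i₀ d, x (some (some k)) = - ((c k : D) * ((c d : D) ^ (p - 2) * S)) := by
    intro k
    have h := hk k
    have h1 := hcc k
    linear_combination (c k : D) * h - x (some (some k)) * h1
  have hS0 : S = 0 := by
    have h1 : S = - ((∑ k : Rest i₀ d, (c k : D)) * ((c d : D) ^ (p - 2) * S)) := by
      conv_lhs => rw [hS]
      rw [Finset.sum_congr rfl fun k _ => hk2 k, Finset.sum_neg_distrib, Finset.sum_mul]
    have h2 := sum_rest i₀ d hd (fun i => (c i : D))
    rw [hsumD, hone] at h2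
    have h3 := hcc d
    push_cast at h2
    linear_combination (-(c d : D)) * h1 - S * h2 + (∑ k : Rest i₀ d, (c k : D)) * S * h3
  have hkk : ∀ k : Rest i₀ d, x (some (some k)) = 0 := by
    intro k
    rw [hk2 k, hS0]
    ring
  have hsn : x (some none) = 0 := by
    have h := hx none
    rw [Fintype.sum_option, Fintype.sum_option, hnone] at h
    simp only [QM, add_zero, zero_add, mul_zero] at h
    rw [Finset.sum_eq_zero (fun k _ => by rw [hkk k, mul_zero]), add_zero] at h
    rcases mul_eq_zero.1 h with h | h
    · exact absurd h hvD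
    · exact h
  intro i
  rcases i with _ | _ | k
  · exact hnone
  · exact hsn
  · exact hkk k

end NDaux

open NDaux

theorem ND_ok : S_ND := by
  intro R ι _ _ _ _ p co g hC i₀ c β hSp d hd v lα l hv
  refine ⟨QM i₀ d v lα l (fun i => co i * (c i : R) ^ (p - 2)) ((p - 1) / 2), ?_, ?_⟩
  · intro C _ f P _ hfP x _ hgrad i
    have := key p hC.prime hC.odd co hC.one i₀ d hd c hSp.pos hSp.lt hSp.one hSp.sum v lα l hv
      ((Ideal.Quotient.mk P).comp f) (by
        rw [RingHom.comp_apply]; exact Ideal.Quotient.eq_zero_iff_mem.2 hfP)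
      (fun i => Ideal.Quotient.mk P (x i)) (by
        intro j
        have h := Ideal.Quotient.eq_zero_iff_mem.2 (hgrad j)
        rw [map_sum] at h
        rw [← h]
        refine Finset.sum_congr rfl fun i _ => ?_
        rw [RingHom.comp_apply, map_mul]) i
    exact Ideal.Quotient.eq_zero_iff_mem.1 this
  · intro B _ _ Y
    rw [Fintype.sum_option, Fintype.sum_option]
    simp only [Fintype.sum_option, QM, map_zero, zero_mul, zero_add, Finset.sum_const_zero,
      add_zero, Phi]
    have h1 : ∑ k : Rest i₀ d, ∑ k' : Rest i₀ d, algebraMap R B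
        ((((p - 1) / 2 : ℕ) : R) * ((if k = k' then co k * (c k : R) ^ (p - 2) else 0) +
          co d * (c d : R) ^ (p - 2))) * Y (some (some k)) * Y (some (some k')) =
        (((p - 1) / 2 : ℕ) : B) * (∑ k : Rest i₀ d, algebraMap R B (co k) * (c k : B) ^ (p - 2) *
        Y (some (some k)) ^ 2 +
      algebraMap R B (co d) * (c d : B) ^ (p - 2) * (∑ k : Rest i₀ d, Y (some (some k))) ^ 2) := by
      have h2 : ∀ k k' : Rest i₀ d, algebraMap R B
        ((((p - 1) / 2 : ℕ) : R) * ((if k = k' then co k * (c k : R) ^ (p - 2) else 0) +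
          co d * (c d : R) ^ (p - 2))) * Y (some (some k)) * Y (some (some k')) =
        (if k = k' then (((p - 1) / 2 : ℕ) : B) * (algebraMap R B (co k) * (c k : B) ^ (p - 2) *
          Y (some (some k)) * Y (some (some k'))) else 0) +
        (((p - 1) / 2 : ℕ) : B) * (algebraMap R B (co d) * (c d : B) ^ (p - 2)) *
          (Y (some (some k)) * Y (some (some k'))) := by
        intro k k'
        split_ifs <;> simp only [map_add, map_mul, map_natCast, map_pow, map_zero] <;> ring
      rw [Finset.sum_congr rfl fun k _ => Finset.sum_congr rfl fun k' _ => h2 k k']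
      simp only [Finset.sum_add_distrib, Finset.sum_ite_eq, Finset.mem_univ, if_true]
      rw [mul_add, Finset.mul_sum]
      congr 1
      · refine Finset.sum_congr rfl fun k _ => ?_
        ring
      · rw [sq, Finset.sum_mul_sum, Finset.mul_sum, Finset.mul_sum]
        refine Finset.sum_congr rfl fun k _ => ?_
        rw [Finset.mul_sum, Finset.mul_sum]
        refine Finset.sum_congr rfl fun k' _ => ?_
        ring
    rw [h1]
    have h3 : ∑ k : Rest i₀ d, algebraMap R B (l k) * Y none * Y (some (some k)) =
        Y none * ∑ k : Rest i₀ d, algebraMap R B (l k) * Y (some (some k)) := by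
      rw [Finset.mul_sum]
      refine Finset.sum_congr rfl fun k _ => ?_
      ring
    rw [h3]
    ring

end Pool.Agent.H945R2.D
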