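import Pool.Agent.H945R2.D.Props

/-! PB: binomial formula.  helper485. -/

set_option autoImplicit false

namespace Pool.Agent.H945R2.D

theorem PB_ok : S_PB := by
  intro B _ p hp h2 c z
  obtain ⟨n, rfl⟩ : ∃ n, p = n + 3 := by
    have := hp.two_le
    exact ⟨p - 3, by omega⟩
  have hch : ∀ k, k < n → ∃ q : ℕ, (n + 3).choose (k + 3) = (n + 3) * q := by
    intro k hk
    exact hp.dvd_choose_self (by omega) (by omega)
  choose! q hq using hch
  have hodd : ∃ m, n + 3 = 2 * m + 1 := by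
    rcases hp.eq_two_or_odd' with h | h
    · exact absurd h h2
    · exact h
  obtain ⟨m, hm⟩ := hodd
  have hc2 : (n + 3).choose 2 = (n + 3) * ((n + 3 - 1) / 2) := by
    rw [Nat.choose_two_right]
    have h1 : n + 3 - 1 = 2 * m := by omega
    rw [h1, Nat.mul_div_cancel_left _ (by norm_num : 0 < 2), mul_left_comm,
      Nat.mul_div_cancel_left _ (by norm_num : 0 < 2)]
  refine ⟨∑ k ∈ Finset.range n, z ^ k * c ^ (n - k) * (q k : B), ?_⟩
  rw [add_comm c z, add_pow, Finset.sum_range_succ, Finset.sum_range_succ', Finset.sum_range_succ',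
    Finset.sum_range_succ']
  have hs : ∑ k ∈ Finset.range n, z ^ (k + 1 + 1 + 1) * c ^ (n + 3 - (k + 1 + 1 + 1)) *
      ((n + 3).choose (k + 1 + 1 + 1) : B)
      = ((n + 3 : ℕ) : B) * z ^ 3 * ∑ k ∈ Finset.range n, z ^ k * c ^ (n - k) * (q k : B) := by
    rw [Finset.mul_sum]
    refine Finset.sum_congr rfl fun k hk => ?_
    have h3 : (n + 3).choose (k + 1 + 1 + 1) = (n + 3) * q k := hq k (Finset.mem_range.1 hk)
    have h4 : n + 3 - (k + 1 + 1 + 1) = n - k := by omega
    rw [h3, h4, Nat.cast_mul]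
    ring
  rw [hs]
  have e1 : n + 3 - (0 + 1 + 1) = n + 3 - 2 := by omega
  have e2 : n + 3 - (0 + 1) = n + 3 - 1 := by omega
  rw [e1, e2]
  have e3 : (n + 3).choose (0 + 1 + 1) = (n + 3) * ((n + 3 - 1) / 2) := hc2
  have e4 : (n + 3).choose (0 + 1) = n + 3 := Nat.choose_one_right _
  rw [e3, e4]
  simp only [Nat.sub_zero, Nat.sub_self, Nat.choose_self, Nat.choose_zero_right, pow_zero,
    Nat.cast_one, Nat.cast_mul]
  ring

end Pool.Agent.H945R2.D
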