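import Pool.Agent.H945R2.D.Props
import Pool.Agent.H918R2.Quad.Reg2

/-!
Task RA (helper409): regularity from one partial derivative (after `Pool.Agent.H918R2.Quad.F2`).
-/

set_option autoImplicit false

namespace Pool.Agent.H945R2.D

open Pool.Agent.H918R2.Quad MvPolynomial

namespace RAaux

section maps

/-- reduce the coefficients modulo the maximal ideal -/
noncomputable def A1 (R : Type) [CommRing R] [IsDomain R] [IsDiscreteValuationRing R] (J : Type) :
    MvPolynomial (Option J) R →+* MvPolynomial (Option J) (IsLocalRing.ResidueField R) :=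
  MvPolynomial.map (IsLocalRing.residue R)

/-- kill the variable `none` -/
noncomputable def A2 (K : Type) [CommRing K] (J : Type) :
    MvPolynomial (Option J) K →+* MvPolynomial J K :=
  MvPolynomial.eval₂Hom C (fun o : Option J => o.elim 0 X)

noncomputable def TH (R : Type) [CommRing R] [IsDomain R] [IsDiscreteValuationRing R] (J : Type) :
    MvPolynomial (Option J) R →+* MvPolynomial J (IsLocalRing.ResidueField R) :=
  (A2 _ J).comp (A1 R J)

variable {R : Type} [CommRing R] [IsDomain R] [IsDiscreteValuationRing R] {J : Type}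

theorem A1_surj : Function.Surjective (A1 R J) := by
  apply MvPolynomial.map_surjective
  exact IsLocalRing.residue_surjective

theorem A2_surj (K : Type) [CommRing K] : Function.Surjective (A2 K J) := by
  intro p
  refine ⟨rename some p, ?_⟩
  rw [A2, MvPolynomial.coe_eval₂Hom, MvPolynomial.eval₂_rename]
  have : (fun o : Option J => (o.elim 0 X : MvPolynomial J K)) ∘ some = X := rfl
  rw [this, MvPolynomial.eval₂_eta]

theorem TH_surj : Function.Surjective (TH R J) := (A2_surj _).comp A1_surj

theorem TH_none : TH R J (X none) = 0 := by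
  simp [TH, A1, A2]

theorem TH_some (j : J) : TH R J (X (some j)) = X j := by
  simp [TH, A1, A2]

theorem TH_C (p : R) : TH R J (C p) = C (IsLocalRing.residue R p) := by
  simp [TH, A1, A2]

theorem TH_pderiv (i : J) (E : MvPolynomial (Option J) R) :
    TH R J (pderiv (some i) E) = pderiv i (TH R J E) := by
  classical
  induction E using MvPolynomial.induction_on with
  | C a => rw [pderiv_C, TH_C, pderiv_C, map_zero]
  | add p q hp hq => rw [map_add, map_add, map_add, map_add, hp, hq]
  | mul_X p o hp =>
    rw [pderiv_mul, map_add, map_mul, map_mul, map_mul, pderiv_mul, hp]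
    cases o with
    | none =>
      rw [TH_none, pderiv_X_of_ne (by simp), map_zero, map_zero]
    | some j =>
      rw [TH_some]
      by_cases hj : j = i
      · subst hj
        rw [pderiv_X_self, pderiv_X_self, map_one]
      · rw [pderiv_X_of_ne hj, pderiv_X_of_ne (fun h => hj (Option.some.inj h)), map_zero]

theorem ker_TH (π : R) (hπ : Irreducible π) :
    RingHom.ker (TH R J) ≤ Ideal.span {X none, C π} := by
  set I : Ideal (MvPolynomial (Option J) R) := Ideal.span {X none, C π} with hI
  set mk := Ideal.Quotient.mk I with hmk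
  set r0 : R →+* (MvPolynomial (Option J) R ⧸ I) := mk.comp C with hr0
  have hr0m : ∀ a ∈ IsLocalRing.maximalIdeal R, r0 a = 0 := by
    intro a ha
    rw [hπ.maximalIdeal_eq, Ideal.mem_span_singleton] at ha
    obtain ⟨c, rfl⟩ := ha
    rw [map_mul]
    have : r0 π = 0 := by
      simp only [hr0, RingHom.comp_apply, hmk]
      rw [Ideal.Quotient.eq_zero_iff_mem, hI]
      exact Ideal.subset_span (by simp)
    rw [this, zero_mul]
  set r1 : IsLocalRing.ResidueField R →+* (MvPolynomial (Option J) R ⧸ I) :=
    Ideal.Quotient.lift (IsLocalRing.maximalIdeal R) r0 hr0m with hr1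
  have hr1c : r1.comp (IsLocalRing.residue R) = r0 := by
    ext a
    rfl
  set r3 : MvPolynomial J (IsLocalRing.ResidueField R) →+* (MvPolynomial (Option J) R ⧸ I) :=
    MvPolynomial.eval₂Hom r1 (fun j => mk (X (some j))) with hr3
  have hcomp : r3.comp (TH R J) = mk := by
    apply MvPolynomial.ringHom_ext
    · intro a
      simp only [RingHom.comp_apply, TH_C, hr3, MvPolynomial.coe_eval₂Hom, MvPolynomial.eval₂_C]
      rw [← RingHom.comp_apply, hr1c]
      rfl
    · intro o
      cases o with
      | none =>
        simp only [RingHom.comp_apply, TH_none, map_zero]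
        symm
        rw [hmk, Ideal.Quotient.eq_zero_iff_mem, hI]
        exact Ideal.subset_span (by simp)
      | some j =>
        simp only [RingHom.comp_apply, TH_some, hr3, MvPolynomial.coe_eval₂Hom,
          MvPolynomial.eval₂_X]
  intro p hp
  rw [RingHom.mem_ker] at hp
  have h1 : mk p = 0 := by
    rw [← hcomp, RingHom.comp_apply, hp, map_zero]
  rwa [hmk, Ideal.Quotient.eq_zero_iff_mem] at h1

theorem height_ker (π : R) (hπ : Irreducible π) :
    (2 : ℕ∞) ≤ (RingHom.ker (TH R J)).height := by
  have p1 : (RingHom.ker (A1 R J)).IsPrime := RingHom.ker_isPrime _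
  have p2 : (RingHom.ker (TH R J)).IsPrime := RingHom.ker_isPrime _
  have p0 : (⊥ : Ideal (MvPolynomial (Option J) R)).IsPrime := Ideal.isPrime_bot
  have hres : IsLocalRing.residue R π = 0 := by
    rw [IsLocalRing.residue_eq_zero_iff, hπ.maximalIdeal_eq]
    exact Ideal.mem_span_singleton_self π
  have h01 : (⊥ : Ideal (MvPolynomial (Option J) R)) < RingHom.ker (A1 R J) := by
    rw [bot_lt_iff_ne_bot]
    intro h
    have hm : C π ∈ RingHom.ker (A1 R J) := by
      rw [RingHom.mem_ker]
      simp [A1, hres]
    rw [h, Ideal.mem_bot] at hm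
    simp at hm
    exact hπ.ne_zero hm
  have h12 : RingHom.ker (A1 R J) < RingHom.ker (TH R J) := by
    refine lt_of_le_of_ne ?_ ?_
    · intro p hp
      rw [RingHom.mem_ker] at hp ⊢
      rw [TH, RingHom.comp_apply, hp, map_zero]
    · intro h
      have hm : (X none : MvPolynomial (Option J) R) ∈ RingHom.ker (TH R J) := by
        rw [RingHom.mem_ker, TH_none]
      rw [← h, RingHom.mem_ker] at hm
      simp [A1] at hm
  have e1 := Ideal.height_add_one_le_of_lt_of_isPrime h01
  have e2 := Ideal.height_add_one_le_of_lt_of_isPrime h12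
  have e0 : (1 : ℕ∞) ≤ (RingHom.ker (A1 R J)).height := le_trans (by simp) e1
  refine le_trans ?_ e2
  calc (2 : ℕ∞) = 1 + 1 := by norm_num
    _ ≤ _ := by gcongr

end maps

end RAaux

open RAaux in
theorem RA_ok : S_RA := by
  intro R A σ _ _ _ _ _ π hπ pr hpr h E hE q _ hσ i hi
  classical
  set E1 : MvPolynomial (Option σ) R := C π - X none * h with hE1
  have hpr1 : pr E1 = 0 := by
    rw [← RingHom.mem_ker, hE]; exact Ideal.subset_span (by simp)
  have hpr2 : pr E = 0 := by
    rw [← RingHom.mem_ker, hE]; exact Ideal.subset_span (by simp)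
  have hpi : pr (C π) = pr (X none) * pr h := by
    have := hpr1
    rw [hE1, map_sub, sub_eq_zero, map_mul] at this
    exact this
  have hspan : ∀ x ∈ RingHom.ker (TH R σ), pr x ∈ Ideal.span {pr (X none)} := by
    intro x hx
    have h1 := ker_TH π hπ hx
    have h2 : Ideal.span {X none, C π} ≤ (Ideal.span {pr (X none)}).comap pr := by
      rw [Ideal.span_le]
      rintro y (rfl | rfl)
      · exact Ideal.mem_span_singleton_self _
      · rw [SetLike.mem_coe, Ideal.mem_comap, hpi]
        exact Ideal.mul_mem_right _ _ (Ideal.mem_span_singleton_self _)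
    exact h2 h1
  have hker : RingHom.ker (TH R σ) ≤ q.comap pr := by
    intro x hx
    rw [Ideal.mem_comap]
    have h1 := hspan x hx
    have h2 : Ideal.span {pr (X none)} ≤ q := by
      rw [Ideal.span_le]
      rintro y rfl
      exact hσ
    exact h2 h1
  have hmp : ((q.comap pr).map (TH R σ)).IsPrime :=
    Ideal.map_isPrime_of_surjective TH_surj hker
  have hcomap : ((q.comap pr).map (TH R σ)).comap (TH R σ) = q.comap pr := by
    rw [Ideal.comap_map_of_surjective (TH R σ) TH_surj]
    exact sup_eq_left.2 (by
      intro x hx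
      exact hker (by simpa using hx))
  refine reg_crit_one pr hpr {E1, E} ?_ q (TH R σ) TH_surj hker {X none} ?_ ?_ E hpr2 ?_ ?_
  · rw [hE]
    congr 1
    simp
  · intro x hx
    rw [Finset.mem_singleton] at hx
    rw [hx]
    exact hσ
  · intro x hx
    refine ⟨1, ?_, ?_⟩
    · rw [map_one]
      intro h
      exact Ideal.IsPrime.ne_top ‹_› ((Ideal.eq_top_iff_one q).2 h)
    · rw [one_mul, Finset.coe_singleton, Set.image_singleton]
      exact hspan x hx
  · intro c hc hcE
    have hD : ∀ x ∈ ((q.comap pr).map (TH R σ)) ^ 2,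
        pderiv i x ∈ (q.comap pr).map (TH R σ) := by
      intro x hx
      rw [pow_two] at hx
      refine Submodule.mul_induction_on hx ?_ ?_
      · intro y hy z hz
        rw [pderiv_mul]
        exact Ideal.add_mem _ (Ideal.mul_mem_left _ _ hz) (Ideal.mul_mem_right _ _ hy)
      · intro y z hy hz
        rw [map_add]
        exact Ideal.add_mem _ hy hz
    have h1 := hD _ hcE
    rw [pderiv_mul] at h1
    have hTE : TH R σ E ∈ (q.comap pr).map (TH R σ) := by
      apply Ideal.mem_map_of_mem
      rw [Ideal.mem_comap, hpr2]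
      exact q.zero_mem
    have h2 : c * pderiv i (TH R σ E) ∈ (q.comap pr).map (TH R σ) := by
      have h3 := Ideal.sub_mem _ h1 (Ideal.mul_mem_left _ (pderiv i c) hTE)
      rwa [add_sub_cancel_left] at h3
    have h3 := (hmp.mem_or_mem h2).resolve_left hc
    rw [← TH_pderiv, ← Ideal.mem_comap, hcomap, Ideal.mem_comap] at h3
    exact hi h3
  · have h3 := height_ker (J := σ) π hπ
    have hc : ({X none} : Finset (MvPolynomial (Option σ) R)).card +
        ({E1, E} : Finset (MvPolynomial (Option σ) R)).card ≤ 3 := by
      have := Finset.card_le_two (a := E1) (b := E)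
      rw [Finset.card_singleton]
      omega
    calc _ ≤ ((3 : ℕ) : ℕ∞) := by exact_mod_cast hc
      _ = 2 + 1 := by norm_num
      _ ≤ _ := by gcongr

end Pool.Agent.H945R2.D
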