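import Pool.Agent.H945R2.D.Props

/-! Task RL: regularity from a linear term. -/

set_option autoImplicit false

namespace Pool.Agent.H945R2.D

open Pool.Agent.H918R2.Quad MvPolynomial

namespace RLaux

variable {R τ : Type} [CommRing R] [IsDomain R] [IsDiscreteValuationRing R]

/-- values of the variables -/
noncomputable def vv (B : Type) [CommRing B] : Option (Option τ) → MvPolynomial Unit B
  | none => 0
  | some none => X ()
  | some (some _) => 0

noncomputable def th (R τ : Type) [CommRing R] [IsDomain R] [IsDiscreteValuationRing R] :
    MvPolynomial (Option (Option τ)) R →+* MvPolynomial Unit (IsLocalRing.ResidueField R) :=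
  eval₂Hom (C.comp (IsLocalRing.residue R)) (vv _)

theorem th_C (r : R) : th R τ (C r) = C (IsLocalRing.residue R r) := by simp [th]

theorem th_none : th R τ (X none) = 0 := by simp [th, vv]

theorem th_some_none : th R τ (X (some none)) = X () := by simp [th, vv]

theorem th_some_some (k : τ) : th R τ (X (some (some k))) = 0 := by simp [th, vv]

theorem th_surj : Function.Surjective (th R τ) := by
  intro p
  induction p using MvPolynomial.induction_on with
  | C a =>
    obtain ⟨r, hr⟩ := IsLocalRing.residue_surjective a
    exact ⟨C r, by rw [th_C, hr]⟩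
  | add p q hp hq =>
    obtain ⟨x, rfl⟩ := hp
    obtain ⟨y, rfl⟩ := hq
    exact ⟨x + y, map_add _ _ _⟩
  | mul_X p i hp =>
    obtain ⟨x, rfl⟩ := hp
    exact ⟨x * X (some none), by rw [map_mul, th_some_none]⟩

theorem ker_le {π : R} (hπ : Irreducible π) (I : Ideal (MvPolynomial (Option (Option τ)) R))
    (h1 : C π ∈ I) (h2 : X none ∈ I) (h3 : ∀ k, X (some (some k)) ∈ I) :
    RingHom.ker (th R τ) ≤ I := by
  intro p hp
  rw [RingHom.mem_ker] at hp
  set ψ : MvPolynomial (Option (Option τ)) R →+* MvPolynomial Unit R := eval₂Hom C (vv _) with hψ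
  set s : MvPolynomial Unit R →+* MvPolynomial (Option (Option τ)) R :=
    eval₂Hom C (fun _ => X (some none)) with hs
  have e1 : ((Ideal.Quotient.mk I).comp s).comp ψ = Ideal.Quotient.mk I := by
    apply MvPolynomial.ringHom_ext
    · intro r
      simp [hψ, hs]
    · intro i
      match i with
      | none =>
        have : Ideal.Quotient.mk I (X none) = 0 := Ideal.Quotient.eq_zero_iff_mem.2 h2
        simp [hψ, vv, this]
      | some none => simp [hψ, hs, vv]
      | some (some k) =>
        have : Ideal.Quotient.mk I (X (some (some k))) = 0 :=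
          Ideal.Quotient.eq_zero_iff_mem.2 (h3 k)
        simp [hψ, vv, this]
  have e2 : (MvPolynomial.map (IsLocalRing.residue R)).comp ψ = th R τ := by
    apply MvPolynomial.ringHom_ext
    · intro r
      simp [hψ, th_C]
    · intro i
      match i with
      | none => simp [hψ, vv, th_none]
      | some none => simp [hψ, vv, th_some_none]
      | some (some k) => simp [hψ, vv, th_some_some]
  have e3 : s (ψ p) ∈ I := by
    have : ψ p ∈ RingHom.ker (MvPolynomial.map (σ := Unit) (IsLocalRing.residue R)) := by
      rw [RingHom.mem_ker, ← RingHom.comp_apply, e2, hp]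
    rw [MvPolynomial.ker_map, IsLocalRing.ker_residue, hπ.maximalIdeal_eq, Ideal.map_span,
      Set.image_singleton, Ideal.mem_span_singleton'] at this
    obtain ⟨w, hw⟩ := this
    rw [← hw, map_mul]
    apply Ideal.mul_mem_left
    have : s (C π) = C π := by simp [hs]
    rw [this]
    exact h1
  rw [← Ideal.Quotient.eq_zero_iff_mem, ← e1, RingHom.comp_apply, RingHom.comp_apply,
    Ideal.Quotient.eq_zero_iff_mem]
  exact e3

end RLaux

open RLaux in
theorem RL_ok (hHT : S_HT) : S_RL := by
  classical
  intro R A τ _ _ _ _ _ π hπ pr hpr h v μ hk q _ hq1 hq2 hq3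
  -- relations
  have r1 : pr (C π) = pr (X none) * pr h := by
    have : C π - X none * h ∈ RingHom.ker pr := by
      rw [hk]; exact Ideal.subset_span (by simp)
    rw [RingHom.mem_ker, map_sub, sub_eq_zero] at this
    rw [this, map_mul]
  have r2 : pr (X none) * pr v = - ∑ k, pr (X (some (some k))) * pr (μ k) := by
    have : X none * v + ∑ k, X (some (some k)) * μ k ∈ RingHom.ker pr := by
      rw [hk]; exact Ideal.subset_span (by simp)
    rw [RingHom.mem_ker, map_add, map_mul, map_sum] at this
    rw [eq_neg_iff_add_eq_zero, ← this]
    simp only [map_mul]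
  set a : Finset (MvPolynomial (Option (Option τ)) R) :=
    Finset.univ.image (fun k : τ => X (some (some k))) with ha
  set S : Finset (MvPolynomial (Option (Option τ)) R) :=
    {C π - X none * h, X none * v + ∑ k, X (some (some k)) * μ k} with hS
  have memspan : ∀ k : τ, pr (X (some (some k))) ∈ Ideal.span (pr '' (a : Set _)) := by
    intro k
    apply Ideal.subset_span
    exact ⟨_, by simp [ha], rfl⟩
  have r3 : pr (X none) * pr v ∈ Ideal.span (pr '' (a : Set _)) := by
    rw [r2]
    apply neg_mem
    exact Ideal.sum_mem _ (fun k _ => Ideal.mul_mem_right _ _ (memspan k))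
  refine reg_crit pr hpr S (by rw [hk, hS]; simp) q (th R τ) th_surj ?_ a ?_ ?_ ?_
  · apply ker_le hπ
    · rw [Ideal.mem_comap, r1]; exact Ideal.mul_mem_right _ _ hq1
    · exact hq1
    · exact hq2
  · intro x hx
    rw [ha, Finset.mem_image] at hx
    obtain ⟨k, -, rfl⟩ := hx
    exact hq2 k
  · let I : Ideal (MvPolynomial (Option (Option τ)) R) :=
      { carrier := {x | pr (v * x) ∈ Ideal.span (pr '' (a : Set _))}
        zero_mem' := by
          rw [Set.mem_ofPred_eq, mul_zero, map_zero]; exact zero_mem _
        add_mem' := by
          intro x y hx hy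
          rw [Set.mem_ofPred_eq] at hx hy ⊢
          rw [mul_add, map_add]; exact add_mem hx hy
        smul_mem' := by
          intro c x hx
          rw [Set.mem_ofPred_eq] at hx ⊢
          have : v * (c • x) = c * (v * x) := by rw [smul_eq_mul]; ring
          rw [this, map_mul]
          exact Ideal.mul_mem_left _ _ hx }
    have hI : ∀ x, x ∈ I ↔ pr (v * x) ∈ Ideal.span (pr '' (a : Set _)) := by
      intro x
      show x ∈ {x | pr (v * x) ∈ Ideal.span (pr '' (a : Set _))} ↔ _
      rw [Set.mem_ofPred_eq]
    have hle : RingHom.ker (th R τ) ≤ I := by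
      apply ker_le hπ
      · rw [hI, map_mul, r1]
        have : pr v * (pr (X none) * pr h) = pr h * (pr (X none) * pr v) := by ring
        rw [this]
        exact Ideal.mul_mem_left _ _ r3
      · rw [hI, map_mul, mul_comm]
        exact r3
      · intro k
        rw [hI, map_mul]
        exact Ideal.mul_mem_left _ _ (memspan k)
    intro x hx
    exact ⟨v, hq3, (hI x).1 (hle hx)⟩
  · set T : Finset (Option (Option τ)) :=
      insert none (Finset.univ.image (fun k : τ => some (some k))) with hT
    have hTc : T.card = Fintype.card τ + 1 := by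
      rw [hT, Finset.card_insert_of_notMem (by simp), Finset.card_image_of_injective]
      · rfl
      · intro x y hxy
        simpa using hxy
    have key := hHT π hπ T (RingHom.ker (th R τ)) (by
        rw [RingHom.mem_ker, th_C]
        have : IsLocalRing.residue R π = 0 := by
          rw [IsLocalRing.residue_eq_zero_iff, hπ.maximalIdeal_eq]
          exact Ideal.mem_span_singleton_self π
        rw [this, map_zero]) (by
        intro k hk
        rw [hT, Finset.mem_insert, Finset.mem_image] at hk
        rw [RingHom.mem_ker]
        rcases hk with rfl | ⟨j, -, rfl⟩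
        · exact th_none
        · exact th_some_some j)
    refine le_trans ?_ key
    rw [hTc]
    have c1 : a.card ≤ Fintype.card τ := Finset.card_image_le
    have c2 : S.card ≤ 2 := Finset.card_le_two
    exact_mod_cast (by omega : a.card + S.card ≤ Fintype.card τ + 1 + 1)

end Pool.Agent.H945R2.D
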