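import Pool.Agent.H945R2.D.Props

/-! SC1 (helper541): homogeneity of the factors. -/

set_option autoImplicit false

open scoped Pointwise

namespace Pool.Agent.H945R2.D

open Pool.Agent.H918R2.Quad MvPolynomial

namespace SC1aux

variable {F ι : Type} [Field F]

theorem mem_pow (t : ι → F) (l : F) (n : ℕ) (y : F) :
    y ∈ Set.range (fun i => l * t i) ^ n ↔ ∃ y' ∈ Set.range t ^ n, y = l ^ n * y' := by
  induction n generalizing y with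
  | zero => simp
  | succ n ih =>
    rw [pow_succ, Set.mem_mul]
    constructor
    · rintro ⟨u, hu, v, ⟨i, rfl⟩, rfl⟩
      obtain ⟨u', hu', rfl⟩ := (ih u).1 hu
      refine ⟨u' * t i, ?_, ?_⟩
      · rw [pow_succ]
        exact Set.mul_mem_mul hu' ⟨i, rfl⟩
      · simp only
        ring
    · rintro ⟨y', hy', rfl⟩
      rw [pow_succ, Set.mem_mul] at hy'
      obtain ⟨u, hu, v, ⟨i, rfl⟩, rfl⟩ := hy'
      refine ⟨l ^ n * u, (ih _).2 ⟨u, hu, rfl⟩, l * t i, ⟨i, rfl⟩, ?_⟩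
      ring

theorem sum_mul' [Fintype ι] (t : ι → F) (l : F) : ∑ i, l * t i = l * ∑ i, t i :=
  (Finset.mul_sum _ _ _).symm

end SC1aux

open SC1aux

theorem SC1_ok : S_SC1 := by
  intro F ι _ _ p hp t l i₀ c β j
  refine ⟨?_, ?_, ?_, ?_, ?_⟩
  · ext h
    simp only [Set.mem_range, Set.mem_image, pow_one]
    constructor
    · rintro ⟨i, rfl⟩
      exact ⟨t i, ⟨i, rfl⟩, rfl⟩
    · rintro ⟨_, ⟨i, rfl⟩, rfl⟩
      exact ⟨i, rfl⟩
  · ext h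
    unfold If
    rw [Set.mem_image]
    constructor
    · rintro (⟨y, hy, rfl⟩ | rfl)
      · obtain ⟨y', hy', rfl⟩ := (mem_pow t l j y).1 hy
        exact ⟨(p : F) * y', Or.inl ⟨y', hy', rfl⟩, by ring⟩
      · refine ⟨(∑ i, t i) ^ j, Or.inr rfl, ?_⟩
        rw [sum_mul', mul_pow]
    · rintro ⟨_, (⟨y, hy, rfl⟩ | rfl), rfl⟩
      · exact Or.inl ⟨l ^ j * y, (mem_pow t l j _).2 ⟨y, hy, rfl⟩, by ring⟩
      · refine Or.inr ?_
        rw [sum_mul', mul_pow]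
  · ext h
    unfold K0
    rw [Set.mem_image]
    constructor
    · rintro (⟨i, rfl⟩ | rfl | ⟨i, rfl⟩)
      · exact ⟨(p : F) ^ 2 * t i, Or.inl ⟨i, rfl⟩, by ring⟩
      · refine ⟨(∑ i, t i) + (p : F) * β * t i₀, Or.inr (Or.inl rfl), ?_⟩
        rw [sum_mul']
        ring
      · exact ⟨(p : F) * (t i - (c i : F) * t i₀), Or.inr (Or.inr ⟨i, rfl⟩), by ring⟩
    · rintro ⟨_, (⟨i, rfl⟩ | rfl | ⟨i, rfl⟩), rfl⟩
      · exact Or.inl ⟨i, by ring⟩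
      · refine Or.inr (Or.inl ?_)
        rw [sum_mul']
        ring
      · exact Or.inr (Or.inr ⟨i, by ring⟩)
  · ext h
    unfold Kj
    rw [Set.mem_image]
    constructor
    · rintro (⟨y, hy, rfl⟩ | rfl | ⟨i, y, hy, rfl⟩)
      · obtain ⟨y', hy', rfl⟩ := (mem_pow t l _ y).1 hy
        exact ⟨(p : F) ^ 2 * y', Or.inl ⟨y', hy', rfl⟩, by ring⟩
      · refine ⟨(∑ i, t i) ^ (2 * j + 1), Or.inr (Or.inl rfl), ?_⟩
        rw [sum_mul', mul_pow]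
      · obtain ⟨y', hy', rfl⟩ := (mem_pow t l _ y).1 hy
        refine ⟨(p : F) * (∑ i, t i) ^ j * (t i - (c i : F) * t i₀) * y',
          Or.inr (Or.inr ⟨i, y', hy', rfl⟩), ?_⟩
        rw [sum_mul', mul_pow]
        ring
    · rintro ⟨_, (⟨y, hy, rfl⟩ | rfl | ⟨i, y, hy, rfl⟩), rfl⟩
      · exact Or.inl ⟨l ^ (2 * j + 1) * y, (mem_pow t l _ _).2 ⟨y, hy, rfl⟩, by ring⟩
      · refine Or.inr (Or.inl ?_)
        rw [sum_mul', mul_pow]
      · refine Or.inr (Or.inr ⟨i, l ^ j * y, (mem_pow t l _ _).2 ⟨y, hy, rfl⟩, ?_⟩)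
        rw [sum_mul', mul_pow]
        ring
  · obtain ⟨k, rfl⟩ : ∃ k, p = k + 1 := ⟨p - 1, by omega⟩
    ext h
    unfold Kl
    simp only [Nat.add_sub_cancel]
    rw [Set.mem_image]
    constructor
    · rintro (⟨y, hy, rfl⟩ | ⟨y, hy, rfl⟩ | ⟨i, rfl⟩ | ⟨i, y, hy, rfl⟩)
      · obtain ⟨y', hy', rfl⟩ := (mem_pow t l _ y).1 hy
        exact ⟨((k + 1 : ℕ) : F) ^ 2 * y', Or.inl ⟨y', hy', rfl⟩, by ring⟩
      · obtain ⟨y', hy', rfl⟩ := (mem_pow t l _ y).1 hy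
        refine ⟨((k + 1 : ℕ) : F) * (∑ i, t i) * y', Or.inr (Or.inl ⟨y', hy', rfl⟩), ?_⟩
        rw [sum_mul']
        ring
      · refine ⟨(((k + 1 : ℕ) : F) * t i₀ ^ k + (∑ i, t i) ^ k) * t i,
          Or.inr (Or.inr (Or.inl ⟨i, rfl⟩)), ?_⟩
        rw [sum_mul', mul_pow, mul_pow]
        ring
      · obtain ⟨y', hy', rfl⟩ := (mem_pow t l _ y).1 hy
        exact ⟨((k + 1 : ℕ) : F) * (t i - (c i : F) * t i₀) * y',
          Or.inr (Or.inr (Or.inr ⟨i, y', hy', rfl⟩)), by ring⟩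
    · rintro ⟨_, (⟨y, hy, rfl⟩ | ⟨y, hy, rfl⟩ | ⟨i, rfl⟩ | ⟨i, y, hy, rfl⟩), rfl⟩
      · exact Or.inl ⟨l ^ (k + 1) * y, (mem_pow t l _ _).2 ⟨y, hy, rfl⟩, by ring⟩
      · refine Or.inr (Or.inl ⟨l ^ k * y, (mem_pow t l _ _).2 ⟨y, hy, rfl⟩, ?_⟩)
        rw [sum_mul']
        ring
      · refine Or.inr (Or.inr (Or.inl ⟨i, ?_⟩))
        rw [sum_mul', mul_pow, mul_pow]
        ring
      · exact Or.inr (Or.inr (Or.inr ⟨i, l ^ k * y, (mem_pow t l _ _).2 ⟨y, hy, rfl⟩, by ring⟩))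

end Pool.Agent.H945R2.D
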