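import Pool.Agent.H945R2.D.Props

/-! Task SC2: invariance under scaling. -/

set_option autoImplicit false

namespace Pool.Agent.H945R2.D

theorem SC2_ok : S_SC2 := by
  intro R F
  intro _ _ _ 𝒪 𝒲 l hl Φ
  refine ⟨?_, ?_, ?_⟩
  · rintro ⟨g, ⟨g', hg', rfl⟩, hg0, h⟩
    refine ⟨g', hg', right_ne_zero_of_mul hg0, fun x hx => ?_⟩
    have h1 := h (l * x) ⟨x, hx, rfl⟩
    simpa only [mul_div_mul_left _ _ hl] using h1
  · rintro ⟨m, hm, h1, h, hh, h2⟩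
    refine ⟨l * m, mul_ne_zero hl hm, ?_, l * h, ⟨h, hh, rfl⟩, ?_⟩
    · rintro _ ⟨x, hx, rfl⟩
      simpa only [mul_div_mul_left _ _ hl] using h1 x hx
    · rwa [mul_div_mul_left _ _ hl]
  · intro κ _ z
    rintro ⟨m, hm, h1, h2⟩
    refine ⟨l * m, mul_ne_zero hl hm, ?_, ?_⟩
    · rintro _ ⟨x, hx, rfl⟩
      obtain ⟨w, hw, h3⟩ := h1 x hx
      refine ⟨w, hw, ?_⟩
      show l * x = _
      rw [h3, mul_assoc]
    · intro k
      obtain ⟨h, hh, o, ho, h3⟩ := h2 k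
      refine ⟨l * h, ⟨h, hh, rfl⟩, o, ho, ?_⟩
      rw [mul_assoc, h3, mul_assoc]

end Pool.Agent.H945R2.D
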