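import Pool.Agent.H945R2.D.Props

set_option autoImplicit false

namespace Pool.Agent.H945R2.D

open Pool.Agent.H918R2.Quad MvPolynomial

theorem SUMT_ok : S_SUMT := by
  intro ι B _ _ _ s d hsd c u l
  have key : ∀ f : ι → B, ∑ i, f i = f s + f d + ∑ k : Rest s d, f k := by
    intro f
    rw [← Finset.add_sum_erase Finset.univ f (Finset.mem_univ s),
      ← Finset.add_sum_erase (Finset.univ.erase s) f
        (Finset.mem_erase.2 ⟨fun h => hsd h.symm, Finset.mem_univ d⟩), ← add_assoc]
    congr 1
    exact Finset.sum_subtype _ (fun x => by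
      simp only [Finset.mem_erase, Finset.mem_univ, and_true]
      exact and_comm) f
  refine ⟨?_, key⟩
  rw [key]
  have h1 : Tc s d c u l s = 1 := by
    unfold Tc; rw [dif_pos rfl]
  have h2 : Tc s d c u l d = l - 1 - ∑ k : Rest s d, (c k + u k) := by
    unfold Tc; rw [dif_neg (fun h => hsd h.symm), dif_pos rfl]
  have h3 : ∀ k : Rest s d, Tc s d c u l k = c k + u k := by
    intro k
    unfold Tc
    rw [dif_neg k.2.1, dif_neg k.2.2]
  rw [h1, h2, Finset.sum_congr rfl (fun k _ => h3 k)]
  ring

end Pool.Agent.H945R2.D
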