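import Pool.Agent.H945R2.D.Props

set_option autoImplicit false

open scoped Pointwise

namespace Pool.Agent.H945R2.D

open Pool.Agent.H918R2.Quad MvPolynomial

namespace TAY1aux

theorem exists_kappa {R : Type} [CommRing R] (p : ℕ) (hp : p.Prime) (co : R)
    (h1 : (p : R) ∣ co - 1) (c : ℕ) (hc1 : 1 ≤ c) (hc2 : c < p) :
    ∃ κ : R, co * (c : R) ^ (p - 1) = 1 + p * κ := by
  haveI := Fact.mk hp
  obtain ⟨r, hr⟩ := h1
  have hcop : IsCoprime (c : ℤ) (p : ℤ) := by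
    rw [Nat.isCoprime_iff_coprime]
    exact (Nat.coprime_of_lt_prime (by omega) hc2 hp).symm
  have h2 : (c : ℤ) ^ (p - 1) ≡ 1 [ZMOD p] := Int.ModEq.pow_card_sub_one_eq_one hp hcop
  obtain ⟨m, hm⟩ := (Int.modEq_iff_dvd.mp h2.symm)
  have h3 : (c : R) ^ (p - 1) = 1 + p * (m : R) := by
    have h4 : (((c : ℤ) ^ (p - 1) - 1 : ℤ) : R) = (((p : ℤ) * m : ℤ) : R) := by rw [hm]
    push_cast at h4
    linear_combination h4
  refine ⟨r + (m : R) + p * r * m, ?_⟩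
  rw [h3]
  linear_combination (1 + (p : R) * m) * hr

theorem exists_kappas {R ι : Type} [CommRing R] [Fintype ι] {p : ℕ} {co : ι → R}
    {g : MvPolynomial ι R} (hco : Coef p co g) {i₀ : ι} {c : ι → ℕ} {β : R}
    (hsp : Special p g i₀ c β) : ∃ κ : ι → R, ∀ i, co i * (c i : R) ^ (p - 1) = 1 + p * κ i := by
  have h := fun i => exists_kappa p hco.prime (co i) (hco.one i) (c i) (hsp.pos i) (hsp.lt i)
  choose κ hκ using h
  exact ⟨κ, hκ⟩

end TAY1aux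

open TAY1aux in
theorem TAY1_ok (hE : S_EXACT) (hH : S_HOM) : S_TAY1 := by
  intro R ι _ _ _ p co g hco i₀ c β hsp B _ _ J η hη
  obtain ⟨κ, hκ⟩ := exists_kappas hco hsp
  obtain ⟨σ, hσ⟩ := hsp.sum
  obtain ⟨ψ, ψ₀, h⟩ := hE p hco.prime hco.odd hco.ne co g hco.rel c β hsp.val σ hσ κ hκ η
    (B := B)
  have hp3 : 3 ≤ p := by
    have := hco.prime.two_le
    have := hco.odd
    omega
  set K : Ideal B := Ideal.span {(p : B)} * J ⊔ J ^ 2 with hK
  have hJ2 : J ^ 2 ≤ K := le_sup_right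
  have hpJ : ∀ x ∈ J, (p : B) * x ∈ K := fun x hx =>
    Ideal.mem_sup_left (Ideal.mul_mem_mul (Ideal.mem_span_singleton_self _) hx)
  have hsumη : ∑ i, η i ∈ J := J.sum_mem (fun i _ => hη i)
  have hsq : ∀ x ∈ J, x ^ 2 ∈ K := fun x hx => hJ2 (Ideal.pow_mem_pow hx 2)
  have t1 : (((p - 1) / 2 : ℕ) : B) * ∑ i, algebraMap R B (co i) * (c i : B) ^ (p - 2) * η i ^ 2
      ∈ K :=
    K.mul_mem_left _ (K.sum_mem (fun i _ => K.mul_mem_left _ (hsq _ (hη i))))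
  have t2 : (p : B) * ∑ i, algebraMap R B (κ i) * η i ∈ K :=
    hpJ _ (J.sum_mem (fun i _ => J.mul_mem_left _ (hη i)))
  have t3 : (p : B) ^ (p - 1) * (σ : B) ^ (p - 1) * ∑ i, η i ∈ K := by
    have h1 : (p : B) ^ (p - 1) = p * (p : B) ^ (p - 2) := by
      rw [← pow_succ']
      congr 1
      omega
    rw [h1]
    have h2 := hpJ _ (J.mul_mem_left ((p : B) ^ (p - 2) * (σ : B) ^ (p - 1)) hsumη)
    convert h2 using 1
    ring
  have t4 : (((p - 1) / 2 : ℕ) : B) * (p : B) ^ (p - 2) * (σ : B) ^ (p - 2) * (∑ i, η i) ^ 2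
      ∈ K := K.mul_mem_left _ (hsq _ hsumη)
  have t5 : ∑ i, algebraMap R B (co i) * η i ^ 3 * ψ i ∈ K := by
    refine K.sum_mem (fun i _ => ?_)
    have h1 := K.mul_mem_left (algebraMap R B (co i) * η i * ψ i) (hsq _ (hη i))
    convert h1 using 1
    ring
  have t6 : (∑ i, η i) ^ 3 * ψ₀ ∈ K := by
    have h1 := K.mul_mem_left ((∑ i, η i) * ψ₀) (hsq _ hsumη)
    convert h1 using 1
    ring
  have t7 : aeval η g ∈ K := by
    apply hJ2
    exact Ideal.pow_le_pow_right (by omega : 2 ≤ p) (hH p hco.ne co g hco.rel J η hη)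
  have hfin := K.add_mem (K.sub_mem (K.add_mem (K.sub_mem (K.sub_mem (K.add_mem t1 t2) t3) t4)
    t5) t6) t7
  convert hfin using 1
  rw [h]
  ring

end Pool.Agent.H945R2.D
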