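import Pool.Agent.H945R2.D.Props

set_option autoImplicit false

open scoped Pointwise

namespace Pool.Agent.H945R2.D

open Pool.Agent.H918R2.Quad MvPolynomial

theorem TAY2_ok (hE : S_EXACT) (hH : S_HOM) : S_TAY2 := by
  intro R ι _ _ _ p co g hco i₀ c β hsp κ hκ B _ _ ε ρ η hερ
  obtain ⟨σ, hσ⟩ := hsp.sum
  obtain ⟨ψ, ψ₀, h⟩ := hE p hco.prime hco.odd hco.ne co g hco.rel c β hsp.val σ hσ κ hκ
    (fun i => ε * η i) (B := B)
  have hp3 : 3 ≤ p := by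
    have := hco.prime.two_le
    have := hco.odd
    omega
  obtain ⟨n, rfl⟩ : ∃ n, p = n + 3 := ⟨p - 3, by omega⟩
  have hg : aeval (fun i => ε * η i) g ∈ (Ideal.span {ε}) ^ (n + 3) :=
    hH (n + 3) hco.ne co g hco.rel (Ideal.span {ε}) (fun i => ε * η i)
      (fun i => Ideal.mem_span_singleton.mpr (Dvd.intro _ rfl))
  rw [Ideal.span_singleton_pow, Ideal.mem_span_singleton] at hg
  obtain ⟨w, hw⟩ := hg
  have e1 : n + 3 - 1 = n + 2 := by omega
  have e2 : n + 3 - 2 = n + 1 := by omega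
  simp only [e1, e2] at h ⊢
  set K : ℕ := (n + 2) / 2 with hK
  refine ⟨- (ε ^ n * ρ ^ (n + 2) * (σ : B) ^ (n + 2) * ∑ i, η i)
    - (K : B) * (ε ^ n * ρ ^ (n + 1)) * (σ : B) ^ (n + 1) * (∑ i, η i) ^ 2
    + ∑ i, algebraMap R B (co i) * η i ^ 3 * ψ i - (∑ i, η i) ^ 3 * ψ₀ + ε ^ n * w, ?_⟩
  rw [h, hw]
  have s1 : ∑ i, ε * η i = ε * ∑ i, η i := by rw [Finset.mul_sum]
  have s2 : ∑ i, algebraMap R B (co i) * (c i : B) ^ (n + 1) * (ε * η i) ^ 2
      = ε ^ 2 * ∑ i, algebraMap R B (co i) * (c i : B) ^ (n + 1) * η i ^ 2 := by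
    rw [Finset.mul_sum]
    exact Finset.sum_congr rfl (fun i _ => by ring)
  have s3 : ∑ i, algebraMap R B (κ i) * (ε * η i) = ε * ∑ i, algebraMap R B (κ i) * η i := by
    rw [Finset.mul_sum]
    exact Finset.sum_congr rfl (fun i _ => by ring)
  have s4 : ∑ i, algebraMap R B (co i) * (ε * η i) ^ 3 * ψ i
      = ε ^ 3 * ∑ i, algebraMap R B (co i) * η i ^ 3 * ψ i := by
    rw [Finset.mul_sum]
    exact Finset.sum_congr rfl (fun i _ => by ring)
  rw [s1, s2, s3, s4]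
  generalize hS1 : ∑ i, ((c i : B) + ε * η i) = S1
  generalize hS2 : ∑ i, algebraMap R B (co i) * (c i : B) ^ (n + 1) * η i ^ 2 = S2
  generalize hS3 : ∑ i, algebraMap R B (κ i) * η i = S3
  generalize hS4 : ∑ i, algebraMap R B (co i) * η i ^ 3 * ψ i = S4
  generalize hS5 : ∑ i, η i = S5
  have hpp : ((n + 3 : ℕ) : B) = ε * ρ := hερ
  rw [hpp]
  ring

end Pool.Agent.H945R2.D
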