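import Pool.Agent.H945R2.D.Props

/-! TJ: the table for the factor `K_j`. -/

set_option autoImplicit false

open scoped Pointwise

namespace Pool.Agent.H945R2.D

open Pool.Agent.H918R2.Quad MvPolynomial

namespace TJaux

theorem pow_mem_W {R F ι : Type} [CommRing R] [Field F] [Algebra R F]
    (𝒲 : Subalgebra R F) (t : ι → F) (ht : ∀ i, t i ∈ 𝒲) (n : ℕ) :
    ∀ y ∈ Set.range t ^ n, y ∈ 𝒲 := by
  induction n with
  | zero =>
    intro y hy
    rw [pow_zero, Set.mem_one] at hy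
    rw [hy]
    exact 𝒲.one_mem
  | succ n ih =>
    intro y hy
    rw [pow_succ, Set.mem_mul] at hy
    obtain ⟨y1, h1, y2, ⟨i, rfl⟩, rfl⟩ := hy
    exact 𝒲.mul_mem (ih y1 h1) (ht i)

theorem one_mem_pow {F ι : Type} [Field F] (t : ι → F) (s : ι) (hs : t s = 1) (n : ℕ) :
    (1 : F) ∈ Set.range t ^ n := by
  have : (1 : F) ^ n ∈ Set.range t ^ n := Set.pow_mem_pow ⟨s, hs⟩
  rwa [one_pow] at this

end TJaux

open TJaux in
theorem TJ_ok : S_TJ := by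
  intro R F ι _ _ _ _ 𝒲 𝒪 p j t s a b hc i₀ c j' hcase
  obtain ⟨loc, hW, ht, hs, ha, hb, ha0, hb0, haU, hL, hp, hj⟩ := hc
  have hz : ∀ i, t i - (c i : F) * t i₀ ∈ 𝒲 := fun i =>
    𝒲.sub_mem (ht i) (𝒲.mul_mem (𝒲.natCast_mem (c i)) (ht i₀))
  have hy := pow_mem_W 𝒲 t ht
  have h1 := one_mem_pow t s hs
  unfold Kj
  rcases lt_trichotomy j' j with hlt | heq | hgt
  · obtain ⟨k, rfl⟩ : ∃ k, j = j' + 1 + k := ⟨j - (j' + 1), by omega⟩
    have hm : (a * b) ^ (2 * j' + 1) ≠ 0 := pow_ne_zero _ (mul_ne_zero ha0 hb0)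
    refine ⟨(a * b) ^ (2 * j' + 1), hm, ?_, ?_⟩
    · rintro h (⟨y, hyy, rfl⟩ | rfl | ⟨i, y, hyy, rfl⟩)
      · have e : (p : F) ^ 2 * y / (a * b) ^ (2 * j' + 1) = a ^ (2 * k + 3) * b ^ (2 * k + 1) * y := by
          rw [div_eq_iff hm, hp]; ring
        rw [e]
        exact 𝒲.mul_mem (𝒲.mul_mem (𝒲.pow_mem ha _) (𝒲.pow_mem hb _)) (hy _ y hyy)
      · rw [hL, div_self hm]; exact 𝒲.one_mem
      · have e : (p : F) * (∑ i, t i) ^ j' * (t i - (c i : F) * t i₀) * y / (a * b) ^ (2 * j' + 1)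
            = a ^ (k + 1) * b ^ k * (t i - (c i : F) * t i₀) * y := by
          rw [div_eq_iff hm, hp, hL]; ring
        rw [e]
        exact 𝒲.mul_mem (𝒲.mul_mem (𝒲.mul_mem (𝒲.pow_mem ha _) (𝒲.pow_mem hb _)) (hz i))
          (hy _ y hyy)
    · refine ⟨(∑ i, t i) ^ (2 * j' + 1), Or.inr (Or.inl rfl), ?_⟩
      rw [hL, div_self hm]
      exact U_one
  · subst heq
    have hm : a ^ (2 * j' + 1) * b ^ (2 * j') ≠ 0 :=
      mul_ne_zero (pow_ne_zero _ ha0) (pow_ne_zero _ hb0)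
    have e2 : (∑ i, t i) ^ (2 * j' + 1) / (a ^ (2 * j' + 1) * b ^ (2 * j')) = b := by
      rw [div_eq_iff hm, hL]; ring
    have e3 : ∀ i, ∀ y : F, (p : F) * (∑ i, t i) ^ j' * (t i - (c i : F) * t i₀) * y
        / (a ^ (2 * j' + 1) * b ^ (2 * j')) = (t i - (c i : F) * t i₀) * y := by
      intro i y
      rw [div_eq_iff hm, hp, hL]; ring
    refine ⟨a ^ (2 * j' + 1) * b ^ (2 * j'), hm, ?_, ?_⟩
    · rintro h (⟨y, hyy, rfl⟩ | rfl | ⟨i, y, hyy, rfl⟩)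
      · have e : (p : F) ^ 2 * y / (a ^ (2 * j' + 1) * b ^ (2 * j')) = a * y := by
          rw [div_eq_iff hm, hp]; ring
        rw [e]
        exact 𝒲.mul_mem ha (hy _ y hyy)
      · rw [e2]; exact hb
      · rw [e3]
        exact 𝒲.mul_mem (hz i) (hy _ y hyy)
    · rcases hcase with h | h | ⟨i, h⟩
      · exact absurd rfl h
      · exact ⟨(∑ i, t i) ^ (2 * j' + 1), Or.inr (Or.inl rfl), by rw [e2]; exact h⟩
      · refine ⟨(p : F) * (∑ i, t i) ^ j' * (t i - (c i : F) * t i₀) * 1,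
          Or.inr (Or.inr ⟨i, 1, h1 _, rfl⟩), ?_⟩
        rw [e3, mul_one]
        exact h
  · obtain ⟨k, rfl⟩ : ∃ k, j' = j + 1 + k := ⟨j' - (j + 1), by omega⟩
    have hp0 : (p : F) ≠ 0 := by
      rw [hp]; exact mul_ne_zero (pow_ne_zero _ ha0) (pow_ne_zero _ hb0)
    have hm : (p : F) ^ 2 ≠ 0 := pow_ne_zero _ hp0
    refine ⟨(p : F) ^ 2, hm, ?_, ?_⟩
    · rintro h (⟨y, hyy, rfl⟩ | rfl | ⟨i, y, hyy, rfl⟩)
      · rw [mul_div_cancel_left₀ _ hm]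
        exact hy _ y hyy
      · have e : (∑ i, t i) ^ (2 * (j + 1 + k) + 1) / (p : F) ^ 2
            = a ^ (2 * k + 1) * b ^ (2 * k + 3) := by
          rw [div_eq_iff hm, hp, hL]; ring
        rw [e]
        exact 𝒲.mul_mem (𝒲.pow_mem ha _) (𝒲.pow_mem hb _)
      · have e : (p : F) * (∑ i, t i) ^ (j + 1 + k) * (t i - (c i : F) * t i₀) * y / (p : F) ^ 2
            = a ^ k * b ^ (k + 1) * (t i - (c i : F) * t i₀) * y := by
          rw [div_eq_iff hm, hp, hL]; ring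
        rw [e]
        exact 𝒲.mul_mem (𝒲.mul_mem (𝒲.mul_mem (𝒲.pow_mem ha _) (𝒲.pow_mem hb _)) (hz i))
          (hy _ y hyy)
    · refine ⟨(p : F) ^ 2 * 1, Or.inl ⟨1, h1 _, rfl⟩, ?_⟩
      rw [mul_one, div_self hm]
      exact U_one

end Pool.Agent.H945R2.D
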