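import Pool.Agent.H945R2.D.Props

/-! Tasks X0, XJ, XL: the exceptional tables (MP_4d1008_ag). -/

set_option autoImplicit false

open scoped Pointwise

namespace Pool.Agent.H945R2.D

open Pool.Agent.H918R2.Quad MvPolynomial

namespace X0aux

variable {R F ι : Type} [CommRing R] [Field F] [Algebra R F] [Fintype ι] [DecidableEq ι]
  {𝒲 : Subalgebra R F} {𝒪 : Subring F} {p j : ℕ} {t : ι → F} {i₀ d : ι} {a b : F}

omit [Algebra R F] [Fintype ι] in
theorem sum_idx [Fintype ι] (f : Idx i₀ d → F) :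
    ∑ k, f k = f none + (f (some none) + ∑ k : Rest i₀ d, f (some (some k))) := by
  rw [Fintype.sum_option, Fintype.sum_option]

omit [DecidableEq ι] in
theorem range_pow_mem (hC : Ctx 𝒲 𝒪 p j t i₀ a b) (n : ℕ) :
    ∀ y ∈ Set.range t ^ n, y ∈ 𝒲 := by
  induction n with
  | zero =>
    intro y hy
    rw [pow_zero, Set.mem_one] at hy
    rw [hy]; exact 𝒲.one_mem
  | succ n ih =>
    intro y hy
    rw [pow_succ, Set.mem_mul] at hy
    obtain ⟨u, hu, v, ⟨i, rfl⟩, rfl⟩ := hy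
    exact 𝒲.mul_mem (ih u hu) (hC.ht i)

omit [DecidableEq ι] in
theorem one_mem_pow (hC : Ctx 𝒲 𝒪 p j t i₀ a b) (n : ℕ) : (1 : F) ∈ Set.range t ^ n := by
  induction n with
  | zero => rw [pow_zero]; exact Set.mem_one.2 rfl
  | succ n ih =>
    rw [pow_succ, Set.mem_mul]
    exact ⟨1, ih, 1, ⟨i₀, hC.hs⟩, one_mul 1⟩

/-- the differences `t_i - c_i t_{i₀}` are combinations of `z` without the coordinate `b`. -/
theorem lin (hS : S_SUMT) (hC : Ctx 𝒲 𝒪 p j t i₀ a b) (hd : i₀ ≠ d) (c : ι → ℕ)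
    (hc : p ∣ ∑ i, c i) (hc0 : c i₀ = 1) (B : F) (i : ι) :
    ∃ w : Idx i₀ d → F, (∀ k, w k ∈ 𝒲) ∧
      t i - (c i : F) * t i₀ = ∑ k, w k * zI (s := i₀) (d := d) a B t c k := by
  by_cases h1 : i = i₀
  · subst h1
    refine ⟨fun _ => 0, fun _ => 𝒲.zero_mem, ?_⟩
    rw [hc0]
    simp
  · by_cases h2 : i = d
    · subst h2
      obtain ⟨σ, hσ⟩ := hc
      refine ⟨fun k => k.elim (b - a ^ j * b ^ j * (σ : F)) (fun k' => k'.elim 0 (fun _ => -1)),
        ?_, ?_⟩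
      · intro k
        rcases k with _ | _ | k
        · exact 𝒲.sub_mem hC.hb (𝒲.mul_mem (𝒲.mul_mem (𝒲.pow_mem hC.ha _) (𝒲.pow_mem hC.hb _))
            (natCast_mem 𝒲 σ))
        · exact 𝒲.zero_mem
        · exact 𝒲.neg_mem 𝒲.one_mem
      · rw [sum_idx]
        have e1 := (hS (B := F) i₀ i hd (fun _ => 0) (fun _ => 0) 0).2 t
        have e2 := (hS (B := F) i₀ i hd (fun _ => 0) (fun _ => 0) 0).2 (fun i => (c i : F))
        have e3 : (∑ i, (c i : F)) = a ^ (j + 1) * b ^ j * (σ : F) := by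
          rw [← hC.hp]
          have := congrArg (fun n : ℕ => (n : F)) hσ
          push_cast at this
          exact this
        rw [hC.hL, hC.hs] at e1
        rw [e3] at e2
        simp only [hc0, Nat.cast_one] at e2
        simp only [zI, Option.elim, hC.hs, zero_mul, zero_add, neg_mul, one_mul,
          Finset.sum_neg_distrib, Finset.sum_sub_distrib, mul_one]
        have e4 : (b - a ^ j * b ^ j * (σ : F)) * a = a * b - a ^ (j + 1) * b ^ j * (σ : F) := by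
          ring
        rw [e4, e1, e2]
        ring
    · refine ⟨Pi.single (some (some ⟨i, h1, h2⟩)) 1, ?_, ?_⟩
      · intro k
        by_cases hk : k = some (some ⟨i, h1, h2⟩)
        · subst hk; rw [Pi.single_eq_same]; exact 𝒲.one_mem
        · rw [Pi.single_eq_of_ne hk]; exact 𝒲.zero_mem
      · rw [Finset.sum_eq_single (some (some ⟨i, h1, h2⟩))]
        · simp [zI, hC.hs]
        · intro k _ hk
          rw [Pi.single_eq_of_ne hk, zero_mul]
        · intro h; exact absurd (Finset.mem_univ _) h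

theorem lin_mul (hS : S_SUMT) (hC : Ctx 𝒲 𝒪 p j t i₀ a b) (hd : i₀ ≠ d) (c : ι → ℕ)
    (hc : p ∣ ∑ i, c i) (hc0 : c i₀ = 1) (B : F) (i : ι) (y : F) (hy : y ∈ 𝒲) :
    ∃ w : Idx i₀ d → F, (∀ k, w k ∈ 𝒲) ∧
      (t i - (c i : F) * t i₀) * y = ∑ k, w k * zI (s := i₀) (d := d) a B t c k := by
  obtain ⟨w, hw, he⟩ := lin hS hC hd c hc hc0 B i
  refine ⟨fun k => w k * y, fun k => 𝒲.mul_mem (hw k) hy, ?_⟩
  rw [he, Finset.sum_mul]
  exact Finset.sum_congr rfl fun k _ => by ring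

omit [DecidableEq ι] in
theorem in_a [DecidableEq ι] (c : ι → ℕ) (B : F) (y : F) (hy : y ∈ 𝒲) :
    ∃ w : Idx i₀ d → F, (∀ k, w k ∈ 𝒲) ∧
      y * a = ∑ k, w k * zI (s := i₀) (d := d) a B t c k := by
  refine ⟨fun k => k.elim y (fun _ => 0), ?_, ?_⟩
  · rintro (_ | k)
    · exact hy
    · exact 𝒲.zero_mem
  · rw [sum_idx]
    simp [zI]

omit [DecidableEq ι] in
theorem in_b [DecidableEq ι] (c : ι → ℕ) (B : F) (y : F) (hy : y ∈ 𝒲) :
    ∃ w : Idx i₀ d → F, (∀ k, w k ∈ 𝒲) ∧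
      y * B = ∑ k, w k * zI (s := i₀) (d := d) a B t c k := by
  refine ⟨fun k => k.elim 0 (fun k' => k'.elim y (fun _ => 0)), ?_, ?_⟩
  · rintro (_ | _ | k)
    · exact 𝒲.zero_mem
    · exact hy
    · exact 𝒲.zero_mem
  · rw [sum_idx]
    simp [zI]

end X0aux

open X0aux

theorem X0_ok (hS : S_SUMT) : S_X0 := by
  intro R F ι _ _ _ _ _ 𝒲 𝒪 p t i₀ d a b hC hd c hc hc0 β hβ
  have hp : (p : F) = a := by have := hC.hp; simpa using this
  refine ⟨a, hC.ha0, ?_, ?_⟩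
  · rintro h (⟨i, rfl⟩ | rfl | ⟨i, rfl⟩)
    · obtain ⟨w, hw, he⟩ := in_a (i₀ := i₀) (d := d) (a := a) (t := t) c (b + β) (t i) (hC.ht i)
      refine ⟨w, hw, ?_⟩
      rw [← he, hp]; ring
    · obtain ⟨w, hw, he⟩ := in_b (𝒲 := 𝒲) (i₀ := i₀) (d := d) (a := a) (t := t) c (b + β) 1
        𝒲.one_mem
      refine ⟨w, hw, ?_⟩
      rw [← he, hp, hC.hL, hC.hs]; ring
    · obtain ⟨w, hw, he⟩ := lin hS hC hd c hc hc0 (b + β) i
      refine ⟨w, hw, ?_⟩
      rw [← he, hp]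
  · rintro (_ | _ | k)
    · refine ⟨(p : F) ^ 2 * t i₀, Or.inl ⟨i₀, rfl⟩, 1, 𝒪.one_mem, ?_⟩
      simp only [zI, Option.elim]
      rw [hp, hC.hs]; ring
    · refine ⟨(∑ i, t i) + (p : F) * β * t i₀, Or.inr (Or.inl rfl), 1, 𝒪.one_mem, ?_⟩
      simp only [zI, Option.elim]
      rw [hp, hC.hs, hC.hL]; ring
    · refine ⟨(p : F) * (t k - (c k : F) * t i₀), Or.inr (Or.inr ⟨k, rfl⟩), 1, 𝒪.one_mem, ?_⟩
      simp only [zI, Option.elim]
      rw [hp, hC.hs]; ring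

end Pool.Agent.H945R2.D
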