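import Pool.Agent.H945R2.D.X0

/-! Task XJ: exceptional table for `K_j` (MP_4d1008_ag). -/

set_option autoImplicit false

open scoped Pointwise

namespace Pool.Agent.H945R2.D

open Pool.Agent.H918R2.Quad MvPolynomial X0aux

theorem XJ_ok (hS : S_SUMT) : S_XJ := by
  intro R F ι _ _ _ _ _ 𝒲 𝒪 p j t i₀ d a b hC hd c hc hc0
  have hp := hC.hp
  refine ⟨a ^ (2 * j + 1) * b ^ (2 * j),
    mul_ne_zero (pow_ne_zero _ hC.ha0) (pow_ne_zero _ hC.hb0), ?_, ?_⟩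
  · rintro h (⟨y, hy, rfl⟩ | rfl | ⟨i, y, hy, rfl⟩)
    · obtain ⟨w, hw, he⟩ := in_a (i₀ := i₀) (d := d) (a := a) (t := t) c b y
        (range_pow_mem hC _ y hy)
      refine ⟨w, hw, ?_⟩
      rw [← he, hp]; ring
    · obtain ⟨w, hw, he⟩ := in_b (𝒲 := 𝒲) (i₀ := i₀) (d := d) (a := a) (t := t) c b 1
        𝒲.one_mem
      refine ⟨w, hw, ?_⟩
      rw [← he, hC.hL]; ring
    · obtain ⟨w, hw, he⟩ := lin_mul hS hC hd c hc hc0 b i y (range_pow_mem hC _ y hy)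
      refine ⟨w, hw, ?_⟩
      rw [← he, hp, hC.hL]; ring
  · rintro (_ | _ | k)
    · refine ⟨(p : F) ^ 2 * 1, Or.inl ⟨1, one_mem_pow hC _, rfl⟩, 1, 𝒪.one_mem, ?_⟩
      simp only [zI, Option.elim]
      rw [hp]; ring
    · refine ⟨(∑ i, t i) ^ (2 * j + 1), Or.inr (Or.inl rfl), 1, 𝒪.one_mem, ?_⟩
      simp only [zI, Option.elim]
      rw [hC.hL]; ring
    · refine ⟨(p : F) * (∑ i, t i) ^ j * (t k - (c k : F) * t i₀) * 1,
        Or.inr (Or.inr ⟨k, 1, one_mem_pow hC _, rfl⟩), 1, 𝒪.one_mem, ?_⟩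
      simp only [zI, Option.elim]
      rw [hp, hC.hs, hC.hL]; ring

end Pool.Agent.H945R2.D
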