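import Pool.Agent.H945R2.D.X0

/-! Task XL: exceptional table for `K_{p-1}` (MP_4d1008_ag). -/

set_option autoImplicit false

open scoped Pointwise

namespace Pool.Agent.H945R2.D

open Pool.Agent.H918R2.Quad MvPolynomial X0aux

theorem XL_ok (hS : S_SUMT) : S_XL := by
  intro R F ι _ _ _ _ _ 𝒲 𝒪 p j t i₀ d a b hC hd hj hU c hc hc0
  subst hj
  have hp := hC.hp
  have hp1 : j + 2 - 1 = j + 1 := rfl
  obtain ⟨q, hq⟩ : ∃ q : F, q = ((j + 2 : ℕ) : F) := ⟨_, rfl⟩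
  rw [← hq] at hp
  have hq0 : q ≠ 0 := by
    rw [hp]; exact mul_ne_zero (pow_ne_zero _ hC.ha0) (pow_ne_zero _ hC.hb0)
  have hLb : (a * b) ^ (j + 1) = q * b := by rw [hp]; ring
  refine ⟨q, hq0, ?_, ?_⟩
  · rintro h (⟨y, hy, rfl⟩ | ⟨y, hy, rfl⟩ | ⟨i, rfl⟩ | ⟨i, y, hy, rfl⟩)
    · obtain ⟨w, hw, he⟩ := in_a (i₀ := i₀) (d := d) (a := a) (t := t) c (b + 1)
        (a ^ j * b ^ j * y) (𝒲.mul_mem (𝒲.mul_mem (𝒲.pow_mem hC.ha _) (𝒲.pow_mem hC.hb _))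
          (range_pow_mem hC _ y hy))
      refine ⟨w, hw, ?_⟩
      rw [← he, ← hq]
      have : a ^ j * b ^ j * y * a = q * y := by rw [hp]; ring
      rw [this]; ring
    · obtain ⟨w, hw, he⟩ := in_a (i₀ := i₀) (d := d) (a := a) (t := t) c (b + 1)
        (b * y) (𝒲.mul_mem hC.hb (range_pow_mem hC _ y hy))
      refine ⟨w, hw, ?_⟩
      rw [← he, ← hq, hC.hL]; ring
    · obtain ⟨w, hw, he⟩ := in_b (𝒲 := 𝒲) (i₀ := i₀) (d := d) (a := a) (t := t) c (b + 1) (t i)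
        (hC.ht i)
      refine ⟨w, hw, ?_⟩
      rw [← he, ← hq, hC.hL, hC.hs, hp1, hLb]; ring
    · obtain ⟨w, hw, he⟩ := lin_mul hS hC hd c hc hc0 (b + 1) i y (range_pow_mem hC _ y hy)
      refine ⟨w, hw, ?_⟩
      rw [← he, ← hq]; ring
  · rintro (_ | _ | k)
    · refine ⟨((j + 2 : ℕ) : F) * (∑ i, t i) * 1, Or.inr (Or.inl ⟨1, one_mem_pow hC _, rfl⟩), b⁻¹,
        hU.2.2, ?_⟩
      simp only [zI, Option.elim]
      rw [← hq, hC.hL, mul_one]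
      field_simp [hC.hb0]
    · refine ⟨(((j + 2 : ℕ) : F) * t i₀ ^ (j + 2 - 1) + (∑ i, t i) ^ (j + 2 - 1)) * t i₀,
        Or.inr (Or.inr (Or.inl ⟨i₀, rfl⟩)), 1, 𝒪.one_mem, ?_⟩
      simp only [zI, Option.elim]
      rw [← hq, hC.hs, hC.hL, hp1, hLb]; ring
    · refine ⟨((j + 2 : ℕ) : F) * (t k - (c k : F) * t i₀) * 1,
        Or.inr (Or.inr (Or.inr ⟨k, 1, one_mem_pow hC _, rfl⟩)), 1, 𝒪.one_mem, ?_⟩
      simp only [zI, Option.elim]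
      rw [← hq, hC.hs]; ring

end Pool.Agent.H945R2.D
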