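import Pool.Agent.H945R2.D.FINAL
import Pool.Agent.H945R2.D.LOC
import Pool.Agent.H945R2.D.IRR
import Pool.Agent.H945R2.D.FLD
import Pool.Agent.H945R2.D.GLO
import Pool.Agent.H945R2.D.ARI
import Pool.Agent.H945R2.D.GOOD
import Pool.Agent.H945R2.D.BAD
import Pool.Agent.H945R2.D.GD1
import Pool.Agent.H945R2.D.GD2
import Pool.Agent.H945R2.D.FAM
import Pool.Agent.H945R2.D.FIN
import Pool.Agent.H945R2.D.DEG
import Pool.Agent.H945R2.D.CH1
import Pool.Agent.H945R2.D.CH2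
import Pool.Agent.H945R2.D.CH3
import Pool.Agent.H945R2.D.FAB
import Pool.Agent.H945R2.D.PRE
import Pool.Agent.H945R2.D.FRC
import Pool.Agent.H945R2.D.XL
import Pool.Agent.H945R2.D.XJ
import Pool.Agent.H945R2.D.X0
import Pool.Agent.H945R2.D.TL
import Pool.Agent.H945R2.D.TJ
import Pool.Agent.H945R2.D.T0
import Pool.Agent.H945R2.D.TI
import Pool.Agent.H945R2.D.SC1
import Pool.Agent.H945R2.D.SC2
import Pool.Agent.H945R2.D.BL
import Pool.Agent.H945R2.D.PRA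
import Pool.Agent.H945R2.D.MAS
import Pool.Agent.H945R2.D.CL
import Pool.Agent.H945R2.D.ND
import Pool.Agent.H945R2.D.EXPB
import Pool.Agent.H945R2.D.EXPJ
import Pool.Agent.H945R2.D.EXP0
import Pool.Agent.H945R2.D.EXPL
import Pool.Agent.H945R2.D.SUMT
import Pool.Agent.H945R2.D.TAY1
import Pool.Agent.H945R2.D.TAY2
import Pool.Agent.H945R2.D.EXACT
import Pool.Agent.H945R2.D.HOM
import Pool.Agent.H945R2.D.PB
import Pool.Agent.H945R2.D.GEX
import Pool.Agent.H945R2.D.BLR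
import Pool.Agent.H945R2.D.RL
import Pool.Agent.H945R2.D.RA
import Pool.Agent.H945R2.D.HT

/-! Regular models of diagonal hypersurfaces of odd prime degree: everything together. -/

set_option autoImplicit false

namespace Pool.Agent.H945R2.D

theorem exact' : S_EXACT := EXACT_ok PB_ok
theorem tay1' : S_TAY1 := TAY1_ok exact' HOM_ok
theorem tay2' : S_TAY2 := TAY2_ok exact' HOM_ok

theorem loc' : S_LOC :=
  LOC_ok CL_ok MAS_ok PRA_ok BL1_ok BL2_ok SC1_ok SC2_ok TI_ok T0_ok TJ_ok TL_ok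
    (X0_ok SUMT_ok) (XJ_ok SUMT_ok) (XL_ok SUMT_ok) SUMT_ok
    (CH1_ok RA_ok SUMT_ok PRE_ok (FAB_ok FRC_ok) FRC_ok)
    (CH2_ok (RL_ok HT_ok) (EXPL_ok tay1' SUMT_ok) SUMT_ok PRE_ok (FAB_ok FRC_ok) FRC_ok)
    (CH3_ok (BLR_ok RA_ok) ND_ok (EXP0_ok tay2' SUMT_ok) (EXPJ_ok tay2' SUMT_ok)
      (EXPB_ok tay2' SUMT_ok) SUMT_ok PRE_ok (FAB_ok FRC_ok) FRC_ok)

theorem glo' : S_GLO :=
  GLO_ok (BAD_ok loc' DEG_ok FIN_ok FAM_ok GEX_ok) (GOOD_ok GD1_ok (GD2_ok HT_ok)) ARI_ok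

end Pool.Agent.H945R2.D
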