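import Pool.Agent.H945R2.D.Props

/-! BLR. Regularity of the blow-up of an ordinary double point. -/

set_option autoImplicit false

namespace Pool.Agent.H945R2.D

open Pool.Agent.H918R2.Quad MvPolynomial

namespace BLRaux

variable {R κ : Type} [CommRing R] [Fintype κ] [DecidableEq κ]

theorem pderiv_tauI (k₀ : κ) (k' : {k : κ // k ≠ k₀}) (k : κ) :
    pderiv (some k') (tauI (R := R) k₀ k) = if k = k' then 1 else 0 := by
  unfold tauI
  split_ifs with h1 h2 h2
  · exact absurd (h2.symm.trans h1) k'.2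
  · simp
  · subst h2
    simp
  · rw [pderiv_X_of_ne]
    intro h3
    exact h2 (by simpa using congrArg (fun z : Option {k : κ // k ≠ k₀} =>
      z.elim k₀ (fun w => (w : κ))) h3)

theorem pderiv_E (Q : κ → κ → R) (k₀ : κ) (k' : {k : κ // k ≠ k₀})
    (h' : MvPolynomial (Option {k : κ // k ≠ k₀}) R) :
    pderiv (some k') (∑ k, ∑ l, C (Q k l) * tauI k₀ k * tauI k₀ l + X none * h') =
      (∑ k, C (Q k k' + Q k' k) * tauI k₀ k) + X none * pderiv (some k') h' := by
  have e1 : pderiv (some k') (X none * h') = X none * pderiv (some k') h' := by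
    rw [Derivation.leibniz, pderiv_X_of_ne (by simp)]
    simp [smul_eq_mul]
  rw [map_add, e1, map_sum]
  congr 1
  have e2 : ∀ k, pderiv (some k') (∑ l, C (Q k l) * tauI k₀ k * tauI (R := R) k₀ l) =
      ∑ l, (C (Q k l) * tauI k₀ k * (if l = k' then 1 else 0) +
        C (Q k l) * tauI k₀ l * (if k = k' then 1 else 0)) := by
    intro k
    rw [map_sum]
    refine Finset.sum_congr rfl fun l _ => ?_
    rw [Derivation.leibniz, Derivation.leibniz, pderiv_C, pderiv_tauI, pderiv_tauI]
    simp only [smul_eq_mul]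
    ring
  simp only [e2, Finset.sum_add_distrib]
  have e3 : ∑ k, ∑ l, C (Q k l) * tauI k₀ k * (if l = k' then 1 else 0) =
      ∑ k, C (Q k k') * tauI (R := R) k₀ k := by
    refine Finset.sum_congr rfl fun k _ => ?_
    simp
  have e4 : ∑ k, ∑ l, C (Q k l) * tauI k₀ l * (if k = k' then 1 else 0) =
      ∑ l, C (Q k' l) * tauI (R := R) k₀ l := by
    rw [Finset.sum_comm]
    refine Finset.sum_congr rfl fun l _ => ?_
    simp
  rw [e3, e4, ← Finset.sum_add_distrib]
  refine Finset.sum_congr rfl fun k _ => ?_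
  rw [C_add]
  ring

end BLRaux

open BLRaux

theorem BLR_ok (hRA : S_RA) : S_BLR := by
  intro R A κ _ _ _ _ _ _ π hπ Q hQ k₀ pr hpr h h' hker q _ hX
  by_cases hc : ∃ k' : {k : κ // k ≠ k₀}, pr (pderiv (some k')
      (∑ k, ∑ l, C (Q k l) * tauI k₀ k * tauI k₀ l + X none * h')) ∉ q
  · obtain ⟨k', hk'⟩ := hc
    exact hRA π hπ pr hpr h _ hker q hX k' hk'
  · exfalso
    push Not at hc
    have hE : pr (∑ k, ∑ l, C (Q k l) * tauI k₀ k * tauI k₀ l + X none * h') = 0 := by
      rw [← RingHom.mem_ker, hker]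
      exact Ideal.subset_span (by simp)
    have hπE : pr (C π - X none * h) = 0 := by
      rw [← RingHom.mem_ker, hker]
      exact Ideal.subset_span (by simp)
    have hπq : pr (C π) ∈ q := by
      have : pr (C π) = pr (X none) * pr h := by
        rw [map_sub, map_mul, sub_eq_zero] at hπE
        exact hπE
      rw [this]
      exact q.mul_mem_right _ hX
    let f : R →+* A := pr.comp C
    let v : κ → A := fun k => pr (tauI k₀ k)
    have hG : ∀ k' : {k : κ // k ≠ k₀}, (∑ k, f (Q k k' + Q k' k) * v k) ∈ q := by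
      intro k'
      have h1 := hc k'
      rw [pderiv_E, map_add, map_mul, map_sum] at h1
      have h2 : (∑ k, pr (C (Q k k' + Q k' k) * tauI k₀ k)) ∈ q :=
        (Ideal.add_mem_iff_left _ (q.mul_mem_right _ hX)).1 h1
      simpa [f, v, map_mul] using h2
    have hF : (∑ i, ∑ j, f (Q i j) * v i * v j) ∈ q := by
      have h1 : pr (∑ k, ∑ l, C (Q k l) * tauI k₀ k * tauI k₀ l) + pr (X none * h') ∈ q := by
        rw [← map_add, hE]
        exact q.zero_mem
      have h2 := (Ideal.add_mem_iff_left _ (by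
        rw [map_mul]
        exact q.mul_mem_right _ hX)).1 h1
      simpa [f, v, map_mul, map_sum] using h2
    have hv0 : v k₀ = 1 := by
      simp [v, tauI]
    have euler : ∑ k', (∑ k, f (Q k k' + Q k' k) * v k) * v k' =
        2 * ∑ i, ∑ j, f (Q i j) * v i * v j := by
      have e1 : ∀ k', (∑ k, f (Q k k' + Q k' k) * v k) * v k' =
          ∑ k, f (Q k k') * v k * v k' + ∑ k, f (Q k' k) * v k' * v k := by
        intro k'
        rw [Finset.sum_mul, ← Finset.sum_add_distrib]
        refine Finset.sum_congr rfl fun k _ => ?_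
        rw [map_add]
        ring
      simp only [e1, Finset.sum_add_distrib]
      rw [Finset.sum_comm, two_mul]
    have hG0 : (∑ k, f (Q k k₀ + Q k₀ k) * v k) ∈ q := by
      have e2 : ∑ k', (∑ k, f (Q k k' + Q k' k) * v k) * v k' =
          (∑ k, f (Q k k₀ + Q k₀ k) * v k) * v k₀ +
            ∑ k' ∈ Finset.univ.erase k₀, (∑ k, f (Q k k' + Q k' k) * v k) * v k' :=
        (Finset.add_sum_erase _ _ (Finset.mem_univ k₀)).symm
      have e3 : (∑ k' ∈ Finset.univ.erase k₀, (∑ k, f (Q k k' + Q k' k) * v k) * v k') ∈ q := by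
        refine q.sum_mem fun k' hk' => q.mul_mem_right _ ?_
        exact hG ⟨k', Finset.ne_of_mem_erase hk'⟩
      have e4 : (∑ k', (∑ k, f (Q k k' + Q k' k) * v k) * v k') ∈ q := by
        rw [euler]
        exact q.mul_mem_left _ hF
      rw [e2, hv0, mul_one] at e4
      exact (Ideal.add_mem_iff_left _ e3).1 e4
    have key := hQ A f q hπq v hF (fun j => by
      by_cases hj : j = k₀
      · rw [hj]; exact hG0
      · exact hG ⟨j, hj⟩) k₀
    rw [hv0] at key
    exact Ideal.IsPrime.ne_top inferInstance ((Ideal.eq_top_iff_one q).2 key)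

end Pool.Agent.H945R2.D
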