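import Pool.Agent.H945R2.D.Props

/-! CH2: regularity at the regular points over a special point. -/

set_option autoImplicit false

open scoped Pointwise

namespace Pool.Agent.H945R2.D

open Pool.Agent.H918R2.Quad MvPolynomial

namespace CH2aux

theorem map_Tc {ι B B' : Type} [Fintype ι] [DecidableEq ι] [CommRing B] [CommRing B']
    (f : B →+* B') (s d : ι) (c : ι → B) (u : Rest s d → B) (l : B) (i : ι) :
    f (Tc s d c u l i) = Tc s d (fun i => f (c i)) (fun k => f (u k)) (f l) i := by
  unfold Tc
  split_ifs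
  · simp
  · simp
  · simp

theorem Tc_s {ι B : Type} [Fintype ι] [DecidableEq ι] [CommRing B]
    (s d : ι) (c : ι → B) (u : Rest s d → B) (l : B) : Tc s d c u l s = 1 := by
  simp [Tc]

theorem Tc_rest {ι B : Type} [Fintype ι] [DecidableEq ι] [CommRing B]
    (s d : ι) (c : ι → B) (u : Rest s d → B) (l : B) (k : Rest s d) :
    Tc s d c u l k.1 = c k.1 + u k := by
  unfold Tc
  rw [dif_neg k.2.1, dif_neg k.2.2]

theorem Tc_d {ι B : Type} [Fintype ι] [DecidableEq ι] [CommRing B]
    (s d : ι) (h : s ≠ d) (c : ι → B) (u : Rest s d → B) (l : B) :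
    Tc s d c u l d = l - 1 - ∑ k : Rest s d, (c k + u k) := by
  unfold Tc
  rw [dif_neg h.symm, dif_pos rfl]

/-- the coordinates `Tc` reproduce the point. -/
theorem Tc_eq (hS : S_SUMT) {ι B : Type} [Fintype ι] [DecidableEq ι] [CommRing B]
    (s d : ι) (h : s ≠ d) (c t : ι → B) (u : Rest s d → B) (l : B) (hs : t s = 1)
    (hu : ∀ k, u k = t k - c k) (hl : ∑ i, t i = l) (i : ι) : Tc s d c u l i = t i := by
  by_cases h1 : i = s
  · rw [h1, Tc_s, hs]
  · by_cases h2 : i = d
    · rw [h2, Tc_d s d h]
      have h3 := (hS s d h c u l).2 t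
      rw [hl, hs] at h3
      have h4 : ∑ k : Rest s d, (c k + u k) = ∑ k : Rest s d, t k := by
        apply Finset.sum_congr rfl
        intro k _
        rw [hu]; ring
      rw [h4, h3]; ring
    · have := Tc_rest s d c u l ⟨i, h1, h2⟩
      simp only at this
      rw [this, hu]
      ring

theorem map_v0 {B B' : Type} [CommRing B] [CommRing B'] (f : B →+* B') (p j : ℕ) (b β : B) :
    f (v0 p j b β) = v0 p j (f b) (f β) := by
  unfold v0
  split_ifs <;> simp

end CH2aux

open CH2aux

theorem CH2_ok (hRL : S_RL) (hE : S_EXPL) (hS : S_SUMT) (hP : S_PRE) (hFAB : S_FAB)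
    (hFRC : S_FRC) : S_CH2 := by
  intro R F ι _ _ _ _ _ _ _ 𝒪 p j co g t i₀ d a b hD hid c β hsp hj2 hlocOf hsing hv0
  set z : Idx i₀ d → F := zI a b t c with hz
  -- the polynomial ring
  let W : Type := MvPolynomial (Idx i₀ d) R
  let a' : W := X none
  let b' : W := X (some none)
  let u : Rest i₀ d → W := fun k => X (some (some k))
  let T : ι → W := Tc i₀ d (fun i => (c i : W)) u (a' * b')
  let eW : W →ₐ[R] F := aeval z
  have heX : ∀ k, eW (X k) = z k := fun k => aeval_X _ k
  have hea : eW a' = a := heX none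
  have heb : eW b' = b := heX (some none)
  have heu : ∀ k, eW (u k) = t k - (c k : F) := fun k => heX (some (some k))
  have heT : ∀ i, eW (T i) = t i := by
    intro i
    have h1 := map_Tc (eW : W →+* F) i₀ d (fun i => (c i : W)) u (a' * b') i
    have h2 : eW (T i) = Tc i₀ d (fun i => eW (c i : W)) (fun k => eW (u k))
      (eW (a' * b')) i := h1
    rw [h2]
    apply Tc_eq hS i₀ d hid
    · exact hD.hs
    · intro k
      rw [heu, map_natCast]
    · rw [map_mul, hea, heb]; exact hD.hL
  have hTs : T i₀ = 1 := Tc_s _ _ _ _ _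
  have hTsum : ∑ i, T i = a' * b' := (hS i₀ d hid _ _ _).1
  -- the first relation
  let h : W := a' ^ j * b' ^ j
  let R1 : W := C (p : R) - X none * h
  have hR1 : R1 = (p : W) - a' ^ (j + 1) * b' ^ j := by
    show C (p : R) - X none * (X none ^ j * b' ^ j) = _
    rw [map_natCast]
    show (p : W) - X none * (X none ^ j * b' ^ j) = (p : W) - X none ^ (j + 1) * b' ^ j
    ring
  have heR1 : eW R1 = 0 := by
    rw [hR1, map_sub, map_natCast, map_mul, map_pow, map_pow, hea, heb, ← hD.hp, sub_self]
  -- the quotient by the first relation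
  obtain ⟨B, iB1, iB2, mk, hmks, hmkk, hmk⟩ := exists_quot (R := R) (Ideal.span {R1} : Ideal W)
  have hmkR1 : (p : B) = mk a' ^ (j + 1) * mk b' ^ j := by
    have h1 : mk R1 = 0 := (hmk R1).2 (Ideal.subset_span rfl)
    rw [hR1, map_sub, map_natCast, map_mul, map_pow, map_pow] at h1
    exact sub_eq_zero.1 h1
  obtain ⟨vB, μB, hexp, hvB⟩ := hE p co g hD.coef i₀ c β hsp d hid (mk a') (mk b')
    (fun k => mk (u k)) j hj2 hmkR1
  obtain ⟨v, rfl⟩ := hmks vB
  choose μ hμ using fun k => hmks (μB k)
  let E : W := X none * v + ∑ k, X (some (some k)) * μ k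
  have hmT : mk (aeval T g) = aeval (Tc i₀ d (fun i => (c i : B))
      (fun k => mk (u k)) (mk a' * mk b')) g := by
    have h1 : mk (aeval T g) = (mk.comp (aeval T)) g := rfl
    have h2 : mk.comp (aeval T) = aeval (Tc i₀ d (fun i => (c i : B))
      (fun k => mk (u k)) (mk a' * mk b')) := by
      apply MvPolynomial.algHom_ext
      intro i
      rw [AlgHom.comp_apply, aeval_X, aeval_X]
      have h3 := map_Tc (mk : W →+* B) i₀ d (fun i => (c i : W)) u (a' * b') i
      have h4 : mk (T i) = Tc i₀ d (fun i => mk (c i : W)) (fun k => mk (u k))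
        (mk (a' * b')) i := h3
      rw [h4]
      simp only [map_mul, map_natCast]
    rw [h1, h2]
  have hmE : mk (aeval T g + a' ^ (p - 1 - j) * b' ^ (p - j) - E) = 0 := by
    have e1 : mk (a' ^ (p - 1 - j) * b' ^ (p - j)) = mk a' ^ (p - 1 - j) * mk b' ^ (p - j) := by
      rw [map_mul, map_pow, map_pow]
    rw [map_sub, map_add, hmT, e1, hexp, sub_eq_zero]
    show _ = mk (X none * v + ∑ k, X (some (some k)) * μ k)
    rw [map_add, map_sum, map_mul]
    congr 1
    apply Finset.sum_congr rfl
    intro k _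
    rw [map_mul, hμ]
  obtain ⟨r, hr⟩ := Ideal.mem_span_singleton'.1 ((hmk _).1 hmE)
  have hE0 : eW E = 0 := by
    have h2 : E = aeval T g + a' ^ (p - 1 - j) * b' ^ (p - j) - r * R1 := by
      rw [hr]; ring
    rw [h2, map_sub, map_add, map_mul, map_mul, heR1, mul_zero, sub_zero, map_pow, map_pow, hea,
      heb]
    have h3 : eW (aeval T g) = aeval t g := by
      have h4 : eW (aeval T g) = (eW.comp (aeval T)) g := rfl
      rw [h4]
      congr 1
      apply MvPolynomial.algHom_ext
      intro i
      rw [AlgHom.comp_apply, aeval_X, aeval_X, heT]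
    rw [h3]
    exact hD.hG
  obtain ⟨A, iA1, iA2, pr, hprs, hprk, hpr⟩ := exists_quot (R := R) (Ideal.span {R1, E} : Ideal W)
  have hprR1 : pr R1 = 0 := (hpr R1).2 (Ideal.subset_span (by simp))
  have hprE : pr E = 0 := (hpr E).2 (Ideal.subset_span (by simp))
  have hker : ∀ w, pr w = 0 → eW w = 0 := by
    intro w hw
    have h1 := (hpr w).1 hw
    obtain ⟨x, y, hxy⟩ := Ideal.mem_span_pair.1 h1
    rw [← hxy, map_add, map_mul, map_mul, heR1, hE0]
    simp
  -- the range
  have hrange : (Algebra.adjoin R ({a, b} ∪ Set.range t)) = eW.range := by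
    show _ = (aeval z).range
    rw [← Algebra.adjoin_range_eq_range_aeval]
    have hnat : ∀ (S : Subalgebra R F) (n : ℕ), (n : F) ∈ S := fun S n => natCast_mem S n
    have hzin : ∀ k : Idx i₀ d, z k ∈ Algebra.adjoin R (Set.range z) :=
      fun k => Algebra.subset_adjoin ⟨k, rfl⟩
    have hrest : ∀ k : Rest i₀ d, t k ∈ Algebra.adjoin R (Set.range z) := by
      intro k
      have h1 : t k = z (some (some k)) + (c k : F) := by
        show t k = (t k - (c k : F)) + (c k : F)
        ring
      rw [h1]
      exact add_mem (hzin _) (hnat _ _)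
    apply le_antisymm
    · apply Algebra.adjoin_le
      rintro y (hy | ⟨i, rfl⟩)
      · rcases hy with rfl | rfl
        · exact hzin none
        · exact hzin (some none)
      · by_cases h1 : i = i₀
        · rw [h1, hD.hs]; exact one_mem _
        · by_cases h2 : i = d
          · have h3 := (hS (ι := ι) (B := F) i₀ d hid (fun _ => 0) (fun _ => 0) 0).2 t
            rw [hD.hL, hD.hs] at h3
            have h4 : t i = z none * z (some none) - 1 - ∑ k : Rest i₀ d, t k := by
              show t i = a * b - 1 - ∑ k : Rest i₀ d, t k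
              rw [h2, h3]; ring
            rw [h4]
            exact sub_mem (sub_mem (mul_mem (hzin _) (hzin _)) (one_mem _))
              (sum_mem fun k _ => hrest k)
          · exact hrest ⟨i, h1, h2⟩
    · apply Algebra.adjoin_le
      rintro y ⟨o, rfl⟩
      rcases o with _ | (_ | k)
      · exact Algebra.subset_adjoin (Or.inl (Or.inl rfl))
      · exact Algebra.subset_adjoin (Or.inl (Or.inr rfl))
      · show t k - (c k : F) ∈ _
        exact sub_mem (Algebra.subset_adjoin (Or.inr ⟨k.1, rfl⟩)) (hnat _ _)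
  have hlocOf' : IsLocOf 𝒪 (eW.range : Set F) := by
    rw [← hrange]; exact hlocOf
  have hW : ∀ w, eW w ∈ 𝒪 := fun w => hlocOf'.1 _ ⟨w, rfl⟩
  have hprp : pr (p : W) = pr (a' ^ (j + 1) * b' ^ j) := by
    rw [hR1, map_sub] at hprR1
    exact sub_eq_zero.1 hprR1
  have hprG : pr (aeval T g + a' ^ (p - 1 - j) * b' ^ (p - j)) = 0 := by
    have h2 : aeval T g + a' ^ (p - 1 - j) * b' ^ (p - j) = E + r * R1 := by
      rw [hr]; ring
    rw [h2, map_add, map_mul, hprE, hprR1]
    simp
  -- `v` is a unit
  have hvU : U 𝒪 (eW v) := by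
    let P : Ideal W := primeOf hD.loc (eW : W →+* F) hW
    have hPmem : ∀ w : W, w ∈ P ↔ ¬ U 𝒪 (eW w) := fun w =>
      mem_primeOf hD.loc (eW : W →+* F) hW w
    have hle : Ideal.span ({a'} ∪ Set.range u) ≤ P := by
      rw [Ideal.span_le]
      rintro w (hw | ⟨k, rfl⟩)
      · rw [Set.mem_singleton_iff] at hw
        show w ∈ P
        rw [hPmem, hw, hea]; exact hD.haU
      · show u k ∈ P
        rw [hPmem, heu]; exact hsing k
    have hmap : Ideal.span ({mk a'} ∪ Set.range (fun k => mk (u k))) =
        Ideal.map (mk : W →+* B) (Ideal.span ({a'} ∪ Set.range u)) := by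
      rw [Ideal.map_span, Set.image_union, Set.image_singleton, ← Set.range_comp]
      rfl
    rw [hmap] at hvB
    obtain ⟨w, hw, hw2⟩ := (Ideal.mem_map_iff_of_surjective (mk : W →+* B) hmks).1 hvB
    have h1 : mk (v - v0 p j b' (algebraMap R W β) - w) = 0 := by
      have h2 : mk (v0 p j b' (algebraMap R W β)) = v0 p j (mk b') (algebraMap R B β) := by
        have := map_v0 (mk : W →+* B) p j b' (algebraMap R W β)
        have h3 : mk (algebraMap R W β) = algebraMap R B β := mk.commutes β
        rw [← h3]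
        exact this
      rw [map_sub, map_sub, h2, sub_eq_zero]
      exact hw2.symm
    obtain ⟨r', hr'⟩ := Ideal.mem_span_singleton'.1 ((hmk _).1 h1)
    have h4 : eW v = v0 p j b (algebraMap R F β) + eW w := by
      have h5 : v = v0 p j b' (algebraMap R W β) + w + r' * R1 := by
        rw [hr']; ring
      have h6 : eW (v0 p j b' (algebraMap R W β)) = v0 p j b (algebraMap R F β) := by
        have := map_v0 (eW : W →+* F) p j b' (algebraMap R W β)
        have h3 : eW (algebraMap R W β) = algebraMap R F β := eW.commutes β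
        rw [← heb, ← h3]
        exact this
      conv_lhs => rw [h5]
      rw [map_add, map_add, map_mul, heR1, mul_zero, add_zero, h6]
    have h7 : v0 p j b (algebraMap R F β) = eW v + eW (-w) := by
      rw [h4, map_neg]; ring
    have h8 : U 𝒪 (eW v + eW (-w)) := by rw [← h7]; exact hv0
    rcases hD.loc _ _ (hW v) (hW (-w)) h8 with h9 | h9
    · exact h9
    · exact absurd h9 ((hPmem (-w)).1 (P.neg_mem (hle hw)))
  refine hP 𝒪 p j co g t i₀ a b hD pr hprs eW hker hW hlocOf' T a' b' heT hea heb hTs
    (by rw [hTsum]) hprp hprG ?_ ?_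
  · -- fractions
    obtain ⟨hFa, hFb, hFT⟩ := hFAB 𝒪 p j co g t i₀ a b hD pr eW hker T a' b' heT hea heb hTs
      (by rw [hTsum]) hprp
    obtain ⟨f1, f2, f3, f4, f5, f6, f7⟩ := hFRC pr eW hker (fun i : {i : ι // i ≠ i₀} => T i)
    apply f7 (Set.range X) MvPolynomial.adjoin_range_X
    rintro w ⟨o, rfl⟩
    rcases o with _ | (_ | k)
    · exact hFa
    · exact hFb
    · have h1 : (X (some (some k)) : W) = T k.1 + algebraMap R W (-(c k.1 : R)) := by
        have h2 : T k.1 = (c k.1 : W) + X (some (some k)) := Tc_rest _ _ _ _ _ k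
        rw [h2, map_neg, map_natCast]; ring
      rw [h1]
      exact f3 _ _ (hFT _) (f1 _)
  · intro q _ hq
    have h1 : pr (X none) ∈ q := by
      rw [hq]
      show ¬ U 𝒪 (eW a')
      rw [hea]; exact hD.haU
    have h2 : ∀ k : Rest i₀ d, pr (X (some (some k))) ∈ q := by
      intro k
      rw [hq]
      show ¬ U 𝒪 (eW (u k))
      rw [heu]; exact hsing k
    have h3 : pr v ∉ q := by
      rw [hq]
      exact not_not.2 hvU
    exact hRL (p : R) hD.irr (pr : W →+* A) hprs h v μ hprk q h1 h2 h3

end Pool.Agent.H945R2.D
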