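import Pool.Agent.H918R2.Quad.Final

/-! Definitions for the models of diagonal hypersurfaces of odd prime degree (MP_4d1008_ag). -/

set_option autoImplicit false

open scoped Pointwise

namespace Pool.Agent.H945R2.D

open Pool.Agent.H918R2.Quad MvPolynomial

section factors

variable {F : Type} [Field F] {ι : Type} [Fintype ι]

/-- The factor `I_j`. -/
def If (p : ℕ) (x : ι → F) (j : ℕ) : Set F :=
  {h | (∃ y ∈ Set.range x ^ j, h = (p : F) * y) ∨ h = (∑ i, x i) ^ j}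

/-- The factor `K_0` of the point `c`. -/
def K0 (p : ℕ) (x : ι → F) (i₀ : ι) (c : ι → ℕ) (β : F) : Set F :=
  {h | (∃ i, h = (p : F) ^ 2 * x i) ∨ h = (∑ i, x i) + (p : F) * β * x i₀ ∨
    ∃ i, h = (p : F) * (x i - (c i : F) * x i₀)}

/-- The factor `K_j`, `1 ≤ j ≤ p - 2`, of the point `c`. -/
def Kj (p : ℕ) (x : ι → F) (i₀ : ι) (c : ι → ℕ) (j : ℕ) : Set F :=
  {h | (∃ y ∈ Set.range x ^ (2 * j + 1), h = (p : F) ^ 2 * y) ∨ h = (∑ i, x i) ^ (2 * j + 1) ∨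
    ∃ i, ∃ y ∈ Set.range x ^ j, h = (p : F) * (∑ i, x i) ^ j * (x i - (c i : F) * x i₀) * y}

/-- The factor `K_{p-1}` of the point `c`. -/
def Kl (p : ℕ) (x : ι → F) (i₀ : ι) (c : ι → ℕ) : Set F :=
  {h | (∃ y ∈ Set.range x ^ p, h = (p : F) ^ 2 * y) ∨
    (∃ y ∈ Set.range x ^ (p - 1), h = (p : F) * (∑ i, x i) * y) ∨
    (∃ i, h = ((p : F) * x i₀ ^ (p - 1) + (∑ i, x i) ^ (p - 1)) * x i) ∨
    ∃ i, ∃ y ∈ Set.range x ^ (p - 1), h = (p : F) * (x i - (c i : F) * x i₀) * y}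

/-- The ideal generated by `Φ` is principal at `𝒪`. -/
def Pr (𝒪 : Subring F) (Φ : Set F) : Prop := ∃ g ∈ Φ, g ≠ 0 ∧ ∀ h ∈ Φ, h / g ∈ 𝒪

variable {R : Type} [CommRing R] [Algebra R F]

/-- `Φ` is principal already over the subalgebra `𝒲` of `𝒪`. -/
def Prin (𝒲 : Subalgebra R F) (𝒪 : Subring F) (Φ : Set F) : Prop :=
  ∃ m : F, m ≠ 0 ∧ (∀ h ∈ Φ, h / m ∈ 𝒲) ∧ ∃ h ∈ Φ, U 𝒪 (h / m)

/-- `Φ` is, up to the factor `m`, the ideal generated by `z`. -/
def Exc (𝒲 : Subalgebra R F) (𝒪 : Subring F) (Φ : Set F) {κ : Type} [Fintype κ] (z : κ → F) :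
    Prop :=
  ∃ m : F, m ≠ 0 ∧ (∀ h ∈ Φ, ∃ w : κ → F, (∀ k, w k ∈ 𝒲) ∧ h = m * ∑ k, w k * z k) ∧
    ∀ k, ∃ h ∈ Φ, ∃ o ∈ 𝒪, m * z k = h * o

end factors

section poly

variable {R : Type} [CommRing R] {ι : Type} [Fintype ι]

/-- `p g = ∑ co_i X_i ^ p - (∑ X_i) ^ p`. -/
def GRel (p : ℕ) (co : ι → R) (g : MvPolynomial ι R) : Prop :=
  C (p : R) * g = ∑ i, C (co i) * X i ^ p - (∑ i, X i) ^ p

/-- The special points. -/
structure Special (p : ℕ) (g : MvPolynomial ι R) (i₀ : ι) (c : ι → ℕ) (β : R) : Prop where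
  pos : ∀ i, 1 ≤ c i
  lt : ∀ i, c i < p
  one : c i₀ = 1
  sum : p ∣ ∑ i, c i
  val : (p : R) * β = aeval (fun i => (c i : R)) g - ∑ i, (c i : R)

/-- The factors. -/
def IsFac {F : Type} [Field F] [Algebra R F] (p : ℕ) (g : MvPolynomial ι R) (x : ι → F) (i₀ : ι)
    (Φ : Set F) : Prop :=
  Φ = Set.range x ∨ (∃ j, 1 ≤ j ∧ j < p ∧ Φ = If p x j) ∨
    ∃ (c : ι → ℕ) (β : R), Special p g i₀ c β ∧
      (Φ = K0 p x i₀ c (algebraMap R F β) ∨ (∃ j, 1 ≤ j ∧ j + 2 ≤ p ∧ Φ = Kj p x i₀ c j) ∨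
        Φ = Kl p x i₀ c)

end poly

section charts

variable {ι : Type}

/-- All indices but `s` and `d`. -/
abbrev Rest (s d : ι) : Type := {i : ι // i ≠ s ∧ i ≠ d}

/-- Index type of the coordinates: `none ↦ a`, `some none ↦ b`, `some (some k) ↦ t_k`. -/
abbrev Idx (s d : ι) : Type := Option (Option (Rest s d))

variable [Fintype ι] [DecidableEq ι]

/-- The coordinates with `t_s = 1`, `t_k = c_k + u_k`, and `t_d` such that their sum is `l`. -/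
def Tc {B : Type} [CommRing B] (s d : ι) (c : ι → B) (u : Rest s d → B) (l : B) (i : ι) : B :=
  if h : i = s then 1 else if h' : i = d then l - 1 - ∑ k : Rest s d, (c k + u k)
    else c i + u ⟨i, h, h'⟩

/-- Coordinates of the chart `k₀` of a blow-up: `none` is the exceptional parameter. -/
noncomputable def tauI {R κ : Type} [CommRing R] [DecidableEq κ] (k₀ : κ) (k : κ) :
    MvPolynomial (Option {k : κ // k ≠ k₀}) R :=
  if h : k = k₀ then 1 else X (some ⟨k, h⟩)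

/-- The quadratic form `q` is nondegenerate over every extension of the residue field. -/
def RadI {R : Type} [CommRing R] (π : R) {κ : Type} [Fintype κ] (q : κ → κ → R) : Prop :=
  ∀ (C : Type) [CommRing C] (f : R →+* C) (Q : Ideal C) [Q.IsPrime], f π ∈ Q →
    ∀ v : κ → C, (∑ i, ∑ j, f (q i j) * v i * v j) ∈ Q →
      (∀ j, (∑ i, f (q i j + q j i) * v i) ∈ Q) → ∀ i, v i ∈ Q

end charts

end Pool.Agent.H945R2.D
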