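import Pool.Agent.H945R2.D.Props2

/-! Final assembly: regular models of diagonal hypersurfaces of odd prime degree over number
fields (MP_4d1008_ag). -/

set_option autoImplicit false

open AlgebraicGeometry CategoryTheory NumberField

namespace Pool.Agent.H945R2.D

open Pool.Agent.H918R2.Quad MvPolynomial

theorem not_mem_sq {O : Type} [CommRing O] [IsDedekindDomain O] (y : O)
    (h : Squarefree (Ideal.span {y})) (𝔭 : Ideal O) (h𝔭 : 𝔭.IsPrime) : y ∉ 𝔭 ^ 2 := by
  intro hy
  have h1 : 𝔭 * 𝔭 ∣ Ideal.span {y} := by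
    rw [Ideal.dvd_iff_le, ← pow_two, Ideal.span_singleton_le_iff_mem]
    exact hy
  have h2 := h 𝔭 h1
  rw [Ideal.isUnit_iff] at h2
  exact h𝔭.ne_top h2

theorem final (hGLO : S_GLO) (hFLD : S_FLD) {K : Type} [Field K] [NumberField K] (p : ℕ)
    (hp : p.Prime) (hp2 : p ≠ 2) (m : ℕ) (a : Fin (m + 2) → 𝓞 K)
    (hsq : Squarefree (Ideal.span {(p : 𝓞 K) * ∏ i, a i}))
    (hirr : Irreducible (C (algebraMap (𝓞 K) K (a 0)) +
      ∑ i : Fin (m + 1), C (algebraMap (𝓞 K) K (a i.succ)) * X i ^ p :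
        MvPolynomial (Fin (m + 1)) K))
    {F : Type} [Field F] (e : F ≃+* FractionRing (MvPolynomial (Fin (m + 1)) K ⧸
      Ideal.span {(C (algebraMap (𝓞 K) K (a 0)) +
        ∑ i : Fin (m + 1), C (algebraMap (𝓞 K) K (a i.succ)) * X i ^ p :
          MvPolynomial (Fin (m + 1)) K)})) :
    ∃ (X' : Scheme.{0}) (_ : IsIntegral X') (g : X' ⟶ Spec (CommRingCat.of ℤ)),
      IsProper g ∧
      (∀ x : X',
        (((Module.finrank (IsLocalRing.ResidueField (X'.presheaf.stalk x))
            (IsLocalRing.CotangentSpace (X'.presheaf.stalk x)) : ℕ∞)) : WithBot ℕ∞)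
          = ringKrullDim (X'.presheaf.stalk x)) ∧
      Nonempty (X'.functionField ≃+* F) := by
  have hOK : Function.Injective (algebraMap (𝓞 K) K) := IsFractionRing.injective (𝓞 K) K
  have hne : (p : 𝓞 K) * ∏ i, a i ≠ 0 := by
    intro h0
    rw [h0, Ideal.span_singleton_eq_bot.2 rfl] at hsq
    exact not_squarefree_zero hsq
  have ha : ∀ i, a i ≠ 0 := by
    intro i
    exact (Finset.prod_ne_zero_iff.1 (right_ne_zero_of_mul hne)) i (Finset.mem_univ i)
  have haK : ∀ i, algebraMap (𝓞 K) K (a i) ≠ 0 := by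
    intro i h0
    exact ha i (hOK (by rw [h0, map_zero]))
  obtain ⟨alg, x, b, hx0, hrel, hgen, hlin, htb⟩ := hFLD m p hp.two_le
    (fun i => algebraMap (𝓞 K) K (a i)) haK hirr e
  let _ : Algebra (𝓞 K) F := ((algebraMap K F).comp (algebraMap (𝓞 K) K)).toAlgebra
  have _ : IsScalarTower (𝓞 K) K F := IsScalarTower.of_algebraMap_eq fun _ => rfl
  have hOF : Function.Injective (algebraMap (𝓞 K) F) := by
    rw [IsScalarTower.algebraMap_eq (𝓞 K) K F]
    exact (algebraMap K F).injective.comp hOK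
  refine model_of_hasModule hOF (hGLO (K := K) (fun 𝔭 _ h => Ideal.finiteQuotientOfFreeOfNeBot 𝔭 h)
    p hp hp2 a (not_mem_sq _ hsq) x hx0 ?_ hgen hlin b htb)
  simpa only [← IsScalarTower.algebraMap_apply (𝓞 K) K F] using hrel

end Pool.Agent.H945R2.D
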