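import Pool.Agent.H945R2.D.Props

set_option autoImplicit false

open scoped Pointwise

namespace Pool.Agent.H945R2.D

open Pool.Agent.H918R2.Quad MvPolynomial

theorem PRA_ok : S_PRA := by
  intro R F _ _ _ 𝒪 hloc hR κ _ Φ f hf hfs hle k
  classical
  obtain ⟨g0, hg0, hU⟩ := exists_U_gen hloc hR (∏ k, Φ k) f hf hle hfs
  obtain ⟨g, hg, rfl⟩ := (Set.mem_fintype_prod Φ g0).1 hg0
  have hne : ∏ i, g i ≠ 0 := by
    intro h0
    exact hU.1 (by rw [h0, zero_div])
  have hgk : ∀ i, g i ≠ 0 := fun i => (Finset.prod_ne_zero_iff.1 hne) i (Finset.mem_univ i)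
  refine ⟨g k, hg k, hgk k, ?_⟩
  intro h hh
  have h1 : (∏ i, Function.update g k h i) ∈ ∏ k, Φ k := by
    rw [Set.mem_fintype_prod]
    refine ⟨Function.update g k h, ?_, rfl⟩
    intro i
    by_cases hi : i = k
    · subst hi
      simpa using hh
    · simpa [Function.update_of_ne hi] using hg i
  have h2 := hle _ h1
  have h3 : (∏ i, Function.update g k h i) = h * ∏ i ∈ Finset.univ.erase k, g i := by
    rw [← Finset.mul_prod_erase Finset.univ _ (Finset.mem_univ k)]
    congr 1
    · simp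
    · apply Finset.prod_congr rfl
      intro i hi
      rw [Function.update_of_ne (Finset.ne_of_mem_erase hi)]
  have h4 : (∏ i, g i) = g k * ∏ i ∈ Finset.univ.erase k, g i := by
    rw [← Finset.mul_prod_erase Finset.univ _ (Finset.mem_univ k)]
  have h5 : (∏ i ∈ Finset.univ.erase k, g i) ≠ 0 :=
    Finset.prod_ne_zero_iff.2 (fun i _ => hgk i)
  have h6 : h / g k = ((∏ i, Function.update g k h i) / f) * ((∏ i, g i) / f)⁻¹ := by
    rw [h3, h4]
    have := hgk k
    field_simp
  rw [h6]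
  exact 𝒪.mul_mem h2 hU.2.2

end Pool.Agent.H945R2.D
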