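import Pool.Agent.H945R2.D.Defs

/-! Statements of the tasks (MP_4d1008_ag, diagonal hypersurfaces of odd prime degree).
`R` is a discrete valuation ring in which the prime `p` is a uniformizer. -/

set_option autoImplicit false

open scoped Pointwise

namespace Pool.Agent.H945R2.D

open Pool.Agent.H918R2.Quad MvPolynomial

/-! ### Regularity lemmas -/

/-- RA. Regularity at a prime containing the exceptional parameter `X none` from one partial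
derivative. -/
def S_RA : Prop := ∀ {R A σ : Type} [CommRing R] [IsDomain R] [IsDiscreteValuationRing R]
  [Finite σ] [CommRing A] (π : R), Irreducible π →
  ∀ (pr : MvPolynomial (Option σ) R →+* A), Function.Surjective pr →
  ∀ h E : MvPolynomial (Option σ) R, RingHom.ker pr = Ideal.span {C π - X none * h, E} →
  ∀ (q : Ideal A) [q.IsPrime], pr (X none) ∈ q → ∀ i : σ, pr (pderiv (some i) E) ∉ q →
  IsRegularLocalRing (Localization.AtPrime q)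

/-- HT. The ideal `(π, X_k : k ∈ S)` has height at least `|S| + 1`. -/
def S_HT : Prop := ∀ {R σ : Type} [CommRing R] [IsDomain R] [IsDiscreteValuationRing R]
  [Finite σ] (π : R), Irreducible π → ∀ (S : Finset σ) (I : Ideal (MvPolynomial σ R)),
  C π ∈ I → (∀ k ∈ S, X k ∈ I) → ((S.card + 1 : ℕ) : ℕ∞) ≤ I.height

/-- RL. Regularity from a linear term. -/
def S_RL : Prop := ∀ {R A τ : Type} [CommRing R] [IsDomain R] [IsDiscreteValuationRing R]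
  [Fintype τ] [CommRing A] (π : R), Irreducible π →
  ∀ (pr : MvPolynomial (Option (Option τ)) R →+* A), Function.Surjective pr →
  ∀ (h v : MvPolynomial (Option (Option τ)) R) (μ : τ → MvPolynomial (Option (Option τ)) R),
  RingHom.ker pr = Ideal.span {C π - X none * h, X none * v + ∑ k, X (some (some k)) * μ k} →
  ∀ (q : Ideal A) [q.IsPrime], pr (X none) ∈ q → (∀ k, pr (X (some (some k))) ∈ q) →
  pr v ∉ q → IsRegularLocalRing (Localization.AtPrime q)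

/-- BLR. Regularity of the blow-up of an ordinary double point. -/
def S_BLR : Prop := ∀ {R A κ : Type} [CommRing R] [IsDomain R] [IsDiscreteValuationRing R]
  [Fintype κ] [DecidableEq κ] [CommRing A] (π : R), Irreducible π →
  ∀ (Q : κ → κ → R), RadI π Q → ∀ (k₀ : κ) (pr : MvPolynomial (Option {k : κ // k ≠ k₀}) R →+* A),
  Function.Surjective pr → ∀ h h' : MvPolynomial (Option {k : κ // k ≠ k₀}) R,
  RingHom.ker pr = Ideal.span {C π - X none * h,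
    ∑ k, ∑ l, C (Q k l) * tauI k₀ k * tauI k₀ l + X none * h'} →
  ∀ (q : Ideal A) [q.IsPrime], pr (X none) ∈ q → IsRegularLocalRing (Localization.AtPrime q)

/-! ### Algebra of the polynomial `g` -/

/-- GEX. Existence of `g`. -/
def S_GEX : Prop := ∀ {R ι : Type} [CommRing R] [Fintype ι] (p : ℕ) [Fact p.Prime] (co : ι → R),
  (∀ i, (p : R) ∣ co i - 1) → ∃ g : MvPolynomial ι R, GRel p co g

/-- PB. Binomial formula. -/
def S_PB : Prop := ∀ {B : Type} [CommRing B] (p : ℕ), p.Prime → p ≠ 2 → ∀ c z : B,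
  ∃ ψ : B, (c + z) ^ p = c ^ p + p * c ^ (p - 1) * z + p * ((p - 1) / 2 : ℕ) * c ^ (p - 2) * z ^ 2
    + p * z ^ 3 * ψ + z ^ p

/-- HOM. `g` is homogeneous of degree `p`. -/
def S_HOM : Prop := ∀ {R ι : Type} [CommRing R] [IsDomain R] [Fintype ι] (p : ℕ), (p : R) ≠ 0 →
  ∀ (co : ι → R) (g : MvPolynomial ι R), GRel p co g →
  ∀ {B : Type} [CommRing B] [Algebra R B] (J : Ideal B) (η : ι → B), (∀ i, η i ∈ J) →
    aeval η g ∈ J ^ p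

/-- EXACT. Exact Taylor formula at a special point (`∑ c_i = p σ`, `co_i c_i ^ (p-1) = 1 + p κ_i`). -/
def S_EXACT : Prop := ∀ {R ι : Type} [CommRing R] [IsDomain R] [Fintype ι] (p : ℕ), p.Prime →
  p ≠ 2 → (p : R) ≠ 0 → ∀ (co : ι → R) (g : MvPolynomial ι R), GRel p co g →
  ∀ (c : ι → ℕ) (β : R), (p : R) * β = aeval (fun i => (c i : R)) g - ∑ i, (c i : R) →
  ∀ σ : ℕ, ∑ i, c i = p * σ → ∀ κ : ι → R, (∀ i, co i * (c i : R) ^ (p - 1) = 1 + p * κ i) →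
  ∀ {B : Type} [CommRing B] [Algebra R B] (η : ι → B), ∃ (ψ : ι → B) (ψ₀ : B),
    aeval (fun i => (c i : B) + η i) g = p * algebraMap R B β + ∑ i, ((c i : B) + η i) +
      ((p - 1) / 2 : ℕ) * ∑ i, algebraMap R B (co i) * (c i : B) ^ (p - 2) * η i ^ 2 +
      p * ∑ i, algebraMap R B (κ i) * η i - (p : B) ^ (p - 1) * (σ : B) ^ (p - 1) * ∑ i, η i -
      ((p - 1) / 2 : ℕ) * (p : B) ^ (p - 2) * (σ : B) ^ (p - 2) * (∑ i, η i) ^ 2 +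
      ∑ i, algebraMap R B (co i) * η i ^ 3 * ψ i - (∑ i, η i) ^ 3 * ψ₀ + aeval η g

/-- Hypotheses on the coefficients and the polynomial. -/
structure Coef {R ι : Type} [CommRing R] [Fintype ι] (p : ℕ) (co : ι → R) (g : MvPolynomial ι R) :
    Prop where
  prime : p.Prime
  odd : p ≠ 2
  ne : (p : R) ≠ 0
  one : ∀ i, (p : R) ∣ co i - 1
  rel : GRel p co g

/-- TAY1. First order Taylor formula with respect to an ideal. -/
def S_TAY1 : Prop := ∀ {R ι : Type} [CommRing R] [IsDomain R] [Fintype ι] (p : ℕ)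
  (co : ι → R) (g : MvPolynomial ι R), Coef p co g → ∀ (i₀ : ι) (c : ι → ℕ) (β : R),
  Special p g i₀ c β → ∀ {B : Type} [CommRing B] [Algebra R B] (J : Ideal B) (η : ι → B),
  (∀ i, η i ∈ J) → aeval (fun i => (c i : B) + η i) g - (p * algebraMap R B β +
    ∑ i, ((c i : B) + η i)) ∈ Ideal.span {(p : B)} * J ⊔ J ^ 2

/-- TAY2. Second order Taylor formula in the direction of an exceptional parameter dividing `p`. -/
def S_TAY2 : Prop := ∀ {R ι : Type} [CommRing R] [IsDomain R] [Fintype ι] (p : ℕ)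
  (co : ι → R) (g : MvPolynomial ι R), Coef p co g → ∀ (i₀ : ι) (c : ι → ℕ) (β : R),
  Special p g i₀ c β → ∀ κ : ι → R, (∀ i, co i * (c i : R) ^ (p - 1) = 1 + p * κ i) →
  ∀ {B : Type} [CommRing B] [Algebra R B] (ε ρ : B) (η : ι → B), (p : B) = ε * ρ →
  ∃ h : B, aeval (fun i => (c i : B) + ε * η i) g = p * algebraMap R B β +
    ∑ i, ((c i : B) + ε * η i) + ε ^ 2 * (((p - 1) / 2 : ℕ) *
      ∑ i, algebraMap R B (co i) * (c i : B) ^ (p - 2) * η i ^ 2 +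
        ρ * ∑ i, algebraMap R B (κ i) * η i + ε * h)

/-- SUMT. The coordinates `Tc` sum to `l`. -/
def S_SUMT : Prop := ∀ {ι B : Type} [Fintype ι] [DecidableEq ι] [CommRing B] (s d : ι), s ≠ d →
  ∀ (c : ι → B) (u : Rest s d → B) (l : B),
  (∑ i, Tc s d c u l i = l) ∧ ∀ f : ι → B, ∑ i, f i = f s + f d + ∑ k : Rest s d, f k

/-- The value of the parameter deciding regularity. -/
def v0 {B : Type} [CommRing B] (p j : ℕ) (b β : B) : B :=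
  if j = 0 then b + β else if j + 2 = p then b + b ^ 2 else b

/-- EXPL. First order expansion of the third relation. -/
def S_EXPL : Prop := ∀ {R ι : Type} [CommRing R] [IsDomain R] [Fintype ι] [DecidableEq ι] (p : ℕ)
  (co : ι → R) (g : MvPolynomial ι R), Coef p co g → ∀ (i₀ : ι) (c : ι → ℕ) (β : R),
  Special p g i₀ c β → ∀ d : ι, i₀ ≠ d → ∀ {B : Type} [CommRing B] [Algebra R B] (a b : B)
    (u : Rest i₀ d → B) (j : ℕ), j + 2 ≤ p → (p : B) = a ^ (j + 1) * b ^ j →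
  ∃ (v : B) (μ : Rest i₀ d → B),
    aeval (Tc i₀ d (fun i => (c i : B)) u (a * b)) g + a ^ (p - 1 - j) * b ^ (p - j) =
      a * v + ∑ k, u k * μ k ∧
    v - v0 p j b (algebraMap R B β) ∈ Ideal.span ({a} ∪ Set.range u)

/-- The three kinds of singular points: `b₀` is the shift of the coordinate `b`. -/
def Kind {R : Type} [CommRing R] (p j : ℕ) (β b₀ : R) : Prop :=
  (j = 0 ∧ b₀ = β) ∨ (1 ≤ j ∧ j + 2 ≤ p ∧ b₀ = 0) ∨ (j + 2 = p ∧ b₀ = 1)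

/-- The quadratic part: `α (v γ + lα α + ∑ l_k y_k) + κ (∑ w_k y_k ^ 2 + w_d (∑ y_k) ^ 2)`. -/
def Phi {R B ι : Type} [CommRing R] [CommRing B] [Algebra R B] [Fintype ι] [DecidableEq ι] (p : ℕ)
    (co : ι → R) (c : ι → ℕ) (i₀ d : ι) (v lα : R) (l : Rest i₀ d → R) (Y : Idx i₀ d → B) : B :=
  Y none * (algebraMap R B v * Y (some none) + algebraMap R B lα * Y none +
      ∑ k, algebraMap R B (l k) * Y (some (some k))) +
    ((p - 1) / 2 : ℕ) * (∑ k : Rest i₀ d, algebraMap R B (co k) * (c k : B) ^ (p - 2) *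
        Y (some (some k)) ^ 2 +
      algebraMap R B (co d) * (c d : B) ^ (p - 2) * (∑ k : Rest i₀ d, Y (some (some k))) ^ 2)

/-- The conclusion of the second order expansion. -/
def ExpConcl {R ι : Type} [CommRing R] [Fintype ι] [DecidableEq ι] (p : ℕ)
    (co : ι → R) (g : MvPolynomial ι R) (c : ι → ℕ) (i₀ d : ι) (j : ℕ) (b₀ : R) (v lα : R)
    (l : Rest i₀ d → R) : Prop :=
  ∀ {B : Type} [CommRing B] [Algebra R B] (ε : B) (Y : Idx i₀ d → B),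
    (p : B) = (ε * Y none) ^ (j + 1) * (ε * Y (some none) - algebraMap R B b₀) ^ j →
    ∃ h : B, aeval (Tc i₀ d (fun i => (c i : B)) (fun k => ε * Y (some (some k)))
        ((ε * Y none) * (ε * Y (some none) - algebraMap R B b₀))) g +
        (ε * Y none) ^ (p - 1 - j) * (ε * Y (some none) - algebraMap R B b₀) ^ (p - j) =
      ε ^ 2 * (Phi p co c i₀ d v lα l Y + ε * h)

/-- EXP0. -/
def S_EXP0 : Prop := ∀ {R ι : Type} [CommRing R] [IsDomain R] [Fintype ι] [DecidableEq ι] (p : ℕ)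
  (co : ι → R) (g : MvPolynomial ι R), Coef p co g → ∀ (i₀ : ι) (c : ι → ℕ) (β : R),
  Special p g i₀ c β → ∀ d : ι, i₀ ≠ d → ∃ (lα : R) (l : Rest i₀ d → R),
    ExpConcl p co g c i₀ d 0 β 1 lα l

/-- EXPJ. -/
def S_EXPJ : Prop := ∀ {R ι : Type} [CommRing R] [IsDomain R] [Fintype ι] [DecidableEq ι] (p : ℕ)
  (co : ι → R) (g : MvPolynomial ι R), Coef p co g → ∀ (i₀ : ι) (c : ι → ℕ) (β : R),
  Special p g i₀ c β → ∀ d : ι, i₀ ≠ d → ∀ j : ℕ, 1 ≤ j → j + 2 ≤ p →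
    ExpConcl p co g c i₀ d j 0 1 0 (fun _ => 0)

/-- EXPB. -/
def S_EXPB : Prop := ∀ {R ι : Type} [CommRing R] [IsDomain R] [Fintype ι] [DecidableEq ι] (p : ℕ)
  (co : ι → R) (g : MvPolynomial ι R), Coef p co g → ∀ (i₀ : ι) (c : ι → ℕ) (β : R),
  Special p g i₀ c β → ∀ d : ι, i₀ ≠ d → ∃ (lα : R) (l : Rest i₀ d → R),
    ExpConcl p co g c i₀ d (p - 2) 1 (-1) lα l

/-- ND. The quadratic part is nondegenerate. -/
def S_ND : Prop := ∀ {R ι : Type} [CommRing R] [IsDomain R] [Fintype ι] [DecidableEq ι] (p : ℕ)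
  (co : ι → R) (g : MvPolynomial ι R), Coef p co g → ∀ (i₀ : ι) (c : ι → ℕ) (β : R),
  Special p g i₀ c β → ∀ d : ι, i₀ ≠ d → ∀ (v lα : R) (l : Rest i₀ d → R), IsUnit v →
    ∃ Q : Idx i₀ d → Idx i₀ d → R, RadI (p : R) Q ∧
      ∀ {B : Type} [CommRing B] [Algebra R B] (Y : Idx i₀ d → B),
        Phi p co c i₀ d v lα l Y = ∑ k, ∑ k', algebraMap R B (Q k k') * Y k * Y k'

/-! ### Local subrings -/

/-- CL. Classification of the local subrings. -/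
def S_CL : Prop := ∀ {F : Type} [Field F] (𝒪 : Subring F), IsLoc 𝒪 → ∀ p : ℕ, 1 ≤ p →
  ∀ π L G : F, π ≠ 0 → L ≠ 0 → π ∈ 𝒪 → L ∈ 𝒪 → G ∈ 𝒪 → ¬ U 𝒪 π → L ^ p = -(π * G) →
  (∀ j, 1 ≤ j → j < p → π / L ^ j ∈ 𝒪 ∨ L ^ j / π ∈ 𝒪) →
  ∃ (j : ℕ) (a b : F), j < p ∧ a ∈ 𝒪 ∧ b ∈ 𝒪 ∧ ¬ U 𝒪 a ∧ L = a * b ∧ π = a ^ (j + 1) * b ^ j ∧
    G + a ^ (p - 1 - j) * b ^ (p - j) = 0

/-- MAS. If all factors are principal over `𝒲`, then `𝒪` is a localization of `𝒲`. -/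
def S_MAS : Prop := ∀ {R F : Type} [CommRing R] [Field F] [Algebra R F] (𝒪 : Subring F),
  IsLoc 𝒪 → (∀ r : R, algebraMap R F r ∈ 𝒪) → ∀ 𝒲 : Subalgebra R F, (∀ w ∈ 𝒲, w ∈ 𝒪) →
  ∀ {κ : Type} [Fintype κ] (Φ : κ → Set F) (f : F), f ≠ 0 →
  f ∈ Submodule.span R (∏ k, Φ k) → (∀ g ∈ ∏ k, Φ k, g / f ∈ 𝒪) →
  IsLocOf 𝒪 (chart R (Submodule.span R (∏ k, Φ k)) f) → (∀ k, Prin 𝒲 𝒪 (Φ k)) → IsLocOf 𝒪 𝒲

/-- PRA. All factors are principal at `𝒪`. -/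
def S_PRA : Prop := ∀ {R F : Type} [CommRing R] [Field F] [Algebra R F] (𝒪 : Subring F),
  IsLoc 𝒪 → (∀ r : R, algebraMap R F r ∈ 𝒪) →
  ∀ {κ : Type} [Fintype κ] (Φ : κ → Set F) (f : F), f ≠ 0 →
  f ∈ Submodule.span R (∏ k, Φ k) → (∀ g ∈ ∏ k, Φ k, g / f ∈ 𝒪) → ∀ k, Pr 𝒪 (Φ k)

/-- BL1. The chart of the blow-up. -/
def S_BL1 : Prop := ∀ {R F : Type} [CommRing R] [Field F] [Algebra R F] (𝒪 : Subring F),
  IsLoc 𝒪 → ∀ 𝒲 : Subalgebra R F, (∀ w ∈ 𝒲, w ∈ 𝒪) → ∀ {κ : Type} [Fintype κ] (Φ : Set F)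
    (z : κ → F), (∀ k, z k ∈ 𝒪) → Pr 𝒪 Φ → Exc 𝒲 𝒪 Φ z → ∃ k₀, z k₀ ≠ 0 ∧ ∀ k, z k / z k₀ ∈ 𝒪

/-- BL2. Principal in the chart of the blow-up. -/
def S_BL2 : Prop := ∀ {R F : Type} [CommRing R] [Field F] [Algebra R F] (𝒪 : Subring F)
  (𝒲 𝒲' : Subalgebra R F), (∀ w ∈ 𝒲', w ∈ 𝒪) → 𝒲 ≤ 𝒲' → ∀ {κ : Type} [Fintype κ] (Φ : Set F)
    (z : κ → F) (k₀ : κ), z k₀ ≠ 0 → (∀ k, z k / z k₀ ∈ 𝒲') → Exc 𝒲 𝒪 Φ z → Prin 𝒲' 𝒪 Φ

/-- SC1. Homogeneity of the factors. -/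
def S_SC1 : Prop := ∀ {F ι : Type} [Field F] [Fintype ι] (p : ℕ), 1 ≤ p → ∀ (t : ι → F) (l : F)
  (i₀ : ι) (c : ι → ℕ) (β : F) (j : ℕ),
  Set.range (fun i => l * t i) = (fun h => l ^ 1 * h) '' Set.range t ∧
  If p (fun i => l * t i) j = (fun h => l ^ j * h) '' If p t j ∧
  K0 p (fun i => l * t i) i₀ c β = (fun h => l ^ 1 * h) '' K0 p t i₀ c β ∧
  Kj p (fun i => l * t i) i₀ c j = (fun h => l ^ (2 * j + 1) * h) '' Kj p t i₀ c j ∧
  Kl p (fun i => l * t i) i₀ c = (fun h => l ^ p * h) '' Kl p t i₀ c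

/-- SC2. Invariance under scaling. -/
def S_SC2 : Prop := ∀ {R F : Type} [CommRing R] [Field F] [Algebra R F] (𝒪 : Subring F)
  (𝒲 : Subalgebra R F) (l : F), l ≠ 0 → ∀ Φ : Set F,
  (Pr 𝒪 ((fun h => l * h) '' Φ) → Pr 𝒪 Φ) ∧ (Prin 𝒲 𝒪 Φ → Prin 𝒲 𝒪 ((fun h => l * h) '' Φ)) ∧
  ∀ {κ : Type} [Fintype κ] (z : κ → F), Exc 𝒲 𝒪 Φ z → Exc 𝒲 𝒪 ((fun h => l * h) '' Φ) z

/-- The situation in the tables. -/
structure Ctx {R F ι : Type} [CommRing R] [Field F] [Algebra R F] [Fintype ι]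
    (𝒲 : Subalgebra R F) (𝒪 : Subring F) (p j : ℕ) (t : ι → F) (s : ι) (a b : F) : Prop where
  loc : IsLoc 𝒪
  hW : ∀ w ∈ 𝒲, w ∈ 𝒪
  ht : ∀ i, t i ∈ 𝒲
  hs : t s = 1
  ha : a ∈ 𝒲
  hb : b ∈ 𝒲
  ha0 : a ≠ 0
  hb0 : b ≠ 0
  haU : ¬ U 𝒪 a
  hL : ∑ i, t i = a * b
  hp : (p : F) = a ^ (j + 1) * b ^ j
  hj : j < p

/-- TI. -/
def S_TI : Prop := ∀ {R F ι : Type} [CommRing R] [Field F] [Algebra R F] [Fintype ι]
  (𝒲 : Subalgebra R F) (𝒪 : Subring F) (p j : ℕ) (t : ι → F) (s : ι) (a b : F),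
  Ctx 𝒲 𝒪 p j t s a b → Prin 𝒲 𝒪 (Set.range t) ∧ ∀ j', Prin 𝒲 𝒪 (If p t j')

/-- T0. -/
def S_T0 : Prop := ∀ {R F ι : Type} [CommRing R] [Field F] [Algebra R F] [Fintype ι]
  (𝒲 : Subalgebra R F) (𝒪 : Subring F) (p j : ℕ) (t : ι → F) (s : ι) (a b : F),
  Ctx 𝒲 𝒪 p j t s a b → ∀ (i₀ : ι) (c : ι → ℕ) (β : F), β ∈ 𝒲 →
  (1 ≤ j ∨ U 𝒪 (b + β * t i₀) ∨ ∃ i, U 𝒪 (t i - (c i : F) * t i₀)) → Prin 𝒲 𝒪 (K0 p t i₀ c β)

/-- TJ. -/
def S_TJ : Prop := ∀ {R F ι : Type} [CommRing R] [Field F] [Algebra R F] [Fintype ι]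
  (𝒲 : Subalgebra R F) (𝒪 : Subring F) (p j : ℕ) (t : ι → F) (s : ι) (a b : F),
  Ctx 𝒲 𝒪 p j t s a b → ∀ (i₀ : ι) (c : ι → ℕ) (j' : ℕ),
  (j' ≠ j ∨ U 𝒪 b ∨ ∃ i, U 𝒪 (t i - (c i : F) * t i₀)) → Prin 𝒲 𝒪 (Kj p t i₀ c j')

/-- TL. -/
def S_TL : Prop := ∀ {R F ι : Type} [CommRing R] [Field F] [Algebra R F] [Fintype ι]
  (𝒲 : Subalgebra R F) (𝒪 : Subring F) (p j : ℕ) (t : ι → F) (s : ι) (a b : F),
  Ctx 𝒲 𝒪 p j t s a b → 2 ≤ p → ∀ (i₀ : ι) (c : ι → ℕ),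
  (j + 2 ≠ p ∨ U 𝒪 (t i₀ ^ (p - 1) + b) ∨ ∃ i, U 𝒪 (t i - (c i : F) * t i₀)) →
  Prin 𝒲 𝒪 (Kl p t i₀ c)

/-- The coordinates at a singular point. -/
def zI {F ι : Type} [Field F] {s d : ι} (a b : F) (t : ι → F) (c : ι → ℕ) : Idx s d → F :=
  fun k => k.elim a (fun k' => k'.elim b (fun i => t i - (c i : F)))

/-- X0. -/
def S_X0 : Prop := ∀ {R F ι : Type} [CommRing R] [Field F] [Algebra R F] [Fintype ι]
  [DecidableEq ι] (𝒲 : Subalgebra R F) (𝒪 : Subring F) (p : ℕ) (t : ι → F) (i₀ d : ι) (a b : F),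
  Ctx 𝒲 𝒪 p 0 t i₀ a b → i₀ ≠ d → ∀ c : ι → ℕ, p ∣ ∑ i, c i → c i₀ = 1 → ∀ β : F, β ∈ 𝒲 →
  Exc 𝒲 𝒪 (K0 p t i₀ c β) (zI (s := i₀) (d := d) a (b + β) t c)

/-- XJ. -/
def S_XJ : Prop := ∀ {R F ι : Type} [CommRing R] [Field F] [Algebra R F] [Fintype ι]
  [DecidableEq ι] (𝒲 : Subalgebra R F) (𝒪 : Subring F) (p j : ℕ) (t : ι → F) (i₀ d : ι)
  (a b : F), Ctx 𝒲 𝒪 p j t i₀ a b → i₀ ≠ d → ∀ c : ι → ℕ, p ∣ ∑ i, c i → c i₀ = 1 →
  Exc 𝒲 𝒪 (Kj p t i₀ c j) (zI (s := i₀) (d := d) a b t c)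

/-- XL. -/
def S_XL : Prop := ∀ {R F ι : Type} [CommRing R] [Field F] [Algebra R F] [Fintype ι]
  [DecidableEq ι] (𝒲 : Subalgebra R F) (𝒪 : Subring F) (p j : ℕ) (t : ι → F) (i₀ d : ι)
  (a b : F), Ctx 𝒲 𝒪 p j t i₀ a b → i₀ ≠ d → j + 2 = p → U 𝒪 b → ∀ c : ι → ℕ, p ∣ ∑ i, c i →
  c i₀ = 1 → Exc 𝒲 𝒪 (Kl p t i₀ c) (zI (s := i₀) (d := d) a (b + 1) t c)

/-! ### Presentations -/

/-- `w` is a fraction of polynomials in `y`. -/
def Frc {R F W A ρ : Type} [CommRing R] [Field F] [Algebra R F] [CommRing W] [Algebra R W]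
    [CommRing A] [Algebra R A] (pr : W →ₐ[R] A) (eW : W →ₐ[R] F) (y : ρ → W) (w : W) : Prop :=
  ∃ P P' : MvPolynomial ρ R, eW (aeval y P') ≠ 0 ∧ pr (aeval y P' * w) = pr (aeval y P)

/-- FRC. Closure properties. -/
def S_FRC : Prop := ∀ {R F W A ρ : Type} [CommRing R] [Field F] [Algebra R F] [CommRing W]
  [Algebra R W] [CommRing A] [Algebra R A] (pr : W →ₐ[R] A) (eW : W →ₐ[R] F),
  (∀ w, pr w = 0 → eW w = 0) → ∀ y : ρ → W,
  (∀ r : R, Frc pr eW y (algebraMap R W r)) ∧ (∀ i, Frc pr eW y (y i)) ∧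
  (∀ w w', Frc pr eW y w → Frc pr eW y w' → Frc pr eW y (w + w')) ∧
  (∀ w w', Frc pr eW y w → Frc pr eW y w' → Frc pr eW y (w * w')) ∧
  (∀ w w', pr w = pr w' → Frc pr eW y w → Frc pr eW y w') ∧
  (∀ w w', eW w ≠ 0 → Frc pr eW y w → Frc pr eW y (w * w') → Frc pr eW y w') ∧
  ∀ S : Set W, Algebra.adjoin R S = ⊤ → (∀ w ∈ S, Frc pr eW y w) → ∀ w, Frc pr eW y w

/-- The data of a chart: `t_s = 1`, `∑ t_i = a b`, `p = a ^ (j+1) b ^ j`,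
`g(t) + a ^ (p-1-j) b ^ (p-j) = 0`. -/
structure Data {R F ι : Type} [CommRing R] [Field F] [Algebra R F] [Fintype ι]
    (𝒪 : Subring F) (p j : ℕ) (co : ι → R) (g : MvPolynomial ι R) (t : ι → F) (s : ι) (a b : F) :
    Prop where
  loc : IsLoc 𝒪
  hR : ∀ r : R, algebraMap R F r ∈ 𝒪
  coef : Coef p co g
  irr : Irreducible (p : R)
  hs : t s = 1
  ht : ∀ i, t i ∈ 𝒪
  ha : a ∈ 𝒪
  hb : b ∈ 𝒪
  ha0 : a ≠ 0
  hb0 : b ≠ 0
  haU : ¬ U 𝒪 a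
  hj : j < p
  hL : ∑ i, t i = a * b
  hp : (p : F) = a ^ (j + 1) * b ^ j
  hG : aeval t g + a ^ (p - 1 - j) * b ^ (p - j) = 0
  hind : ∃ j₀ : {i : ι // i ≠ s},
    AlgebraicIndependent R (fun i : {i : {i : ι // i ≠ s} // i ≠ j₀} => t i)

/-- PRE. Regularity from a presentation of a chart. -/
def S_PRE : Prop := ∀ {R F ι W A : Type} [CommRing R] [IsDomain R] [IsDiscreteValuationRing R]
  [Field F] [Algebra R F] [Fintype ι] [DecidableEq ι] [CommRing W] [Algebra R W] [CommRing A]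
  [Algebra R A] (𝒪 : Subring F) (p j : ℕ) (co : ι → R) (g : MvPolynomial ι R) (t : ι → F) (s : ι)
  (a b : F), Data 𝒪 p j co g t s a b → ∀ (pr : W →ₐ[R] A), Function.Surjective pr →
  ∀ eW : W →ₐ[R] F, (∀ w, pr w = 0 → eW w = 0) → (∀ w, eW w ∈ 𝒪) →
  IsLocOf 𝒪 (eW.range : Set F) → ∀ (T : ι → W) (a' b' : W), (∀ i, eW (T i) = t i) → eW a' = a →
  eW b' = b → T s = 1 → pr (∑ i, T i) = pr (a' * b') → pr (p : W) = pr (a' ^ (j + 1) * b' ^ j) →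
  pr (aeval T g + a' ^ (p - 1 - j) * b' ^ (p - j)) = 0 →
  (∀ w, Frc pr eW (fun i : {i : ι // i ≠ s} => T i) w) →
  (∀ (q : Ideal A) [q.IsPrime], (∀ w, pr w ∈ q ↔ ¬ U 𝒪 (eW w)) →
    IsRegularLocalRing (Localization.AtPrime q)) → IsRegularLocalRing 𝒪

/-- FAB. The parameters `a`, `b` are fractions of polynomials in the coordinates. -/
def S_FAB : Prop := ∀ {R F ι W A : Type} [CommRing R]
  [Field F] [Algebra R F] [Fintype ι] [DecidableEq ι] [CommRing W] [Algebra R W] [CommRing A]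
  [Algebra R A] (𝒪 : Subring F) (p j : ℕ) (co : ι → R) (g : MvPolynomial ι R) (t : ι → F) (s : ι)
  (a b : F), Data 𝒪 p j co g t s a b → ∀ (pr : W →ₐ[R] A) (eW : W →ₐ[R] F),
  (∀ w, pr w = 0 → eW w = 0) → ∀ (T : ι → W) (a' b' : W), (∀ i, eW (T i) = t i) → eW a' = a →
  eW b' = b → T s = 1 → pr (∑ i, T i) = pr (a' * b') → pr (p : W) = pr (a' ^ (j + 1) * b' ^ j) →
  Frc pr eW (fun i : {i : ι // i ≠ s} => T i) a' ∧ Frc pr eW (fun i : {i : ι // i ≠ s} => T i) b' ∧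
    ∀ i, Frc pr eW (fun i : {i : ι // i ≠ s} => T i) (T i)

/-- CH1. Regularity at the points which are regular on the fibre, and in the last chart. -/
def S_CH1 : Prop := ∀ {R F ι : Type} [CommRing R] [IsDomain R] [IsDiscreteValuationRing R]
  [Field F] [Algebra R F] [Fintype ι] [DecidableEq ι] (𝒪 : Subring F) (p j : ℕ) (co : ι → R)
  (g : MvPolynomial ι R) (t : ι → F) (s d : ι) (a b : F), Data 𝒪 p j co g t s a b → s ≠ d →
  IsLocOf 𝒪 (Algebra.adjoin R ({a, b} ∪ Set.range t) : Set F) →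
  (j + 1 = p ∨ ∃ i, i ≠ s ∧ i ≠ d ∧ U 𝒪 (t i ^ (p - 1) - t d ^ (p - 1))) → IsRegularLocalRing 𝒪

/-- CH2. Regularity at the regular points over a special point. -/
def S_CH2 : Prop := ∀ {R F ι : Type} [CommRing R] [IsDomain R] [IsDiscreteValuationRing R]
  [Field F] [Algebra R F] [Fintype ι] [DecidableEq ι] (𝒪 : Subring F) (p j : ℕ) (co : ι → R)
  (g : MvPolynomial ι R) (t : ι → F) (i₀ d : ι) (a b : F), Data 𝒪 p j co g t i₀ a b → i₀ ≠ d →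
  ∀ (c : ι → ℕ) (β : R), Special p g i₀ c β → j + 2 ≤ p →
  IsLocOf 𝒪 (Algebra.adjoin R ({a, b} ∪ Set.range t) : Set F) →
  (∀ i, ¬ U 𝒪 (t i - (c i : F))) → U 𝒪 (v0 p j b (algebraMap R F β)) → IsRegularLocalRing 𝒪

/-- CH3. Regularity of the blow-up at the singular points. -/
def S_CH3 : Prop := ∀ {R F ι : Type} [CommRing R] [IsDomain R] [IsDiscreteValuationRing R]
  [Field F] [Algebra R F] [Fintype ι] [DecidableEq ι] (𝒪 : Subring F) (p j : ℕ) (co : ι → R)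
  (g : MvPolynomial ι R) (t : ι → F) (i₀ d : ι) (a b : F), Data 𝒪 p j co g t i₀ a b → i₀ ≠ d →
  ∀ (c : ι → ℕ) (β b₀ : R), Special p g i₀ c β → Kind p j β b₀ → ∀ k₀ : Idx i₀ d,
  (zI a (b + algebraMap R F b₀) t c : Idx i₀ d → F) k₀ ≠ 0 →
  (∀ k, (zI a (b + algebraMap R F b₀) t c : Idx i₀ d → F) k / zI a (b + algebraMap R F b₀) t c k₀ ∈ 𝒪) →
  ¬ U 𝒪 ((zI a (b + algebraMap R F b₀) t c : Idx i₀ d → F) k₀) →
  IsLocOf 𝒪 (Algebra.adjoin R (insert ((zI a (b + algebraMap R F b₀) t c : Idx i₀ d → F) k₀)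
    (Set.range (fun k => (zI a (b + algebraMap R F b₀) t c : Idx i₀ d → F) k /
      zI a (b + algebraMap R F b₀) t c k₀))) : Set F) → IsRegularLocalRing 𝒪

/-- The local situation. -/
structure LocData {R F ι : Type} [CommRing R] [Field F] [Algebra R F] [Fintype ι]
    (𝒪 : Subring F) (p : ℕ) (co : ι → R) (g : MvPolynomial ι R) (x : ι → F) : Prop where
  loc : IsLoc 𝒪
  hR : ∀ r : R, algebraMap R F r ∈ 𝒪
  coef : Coef p co g
  irr : Irreducible (p : R)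
  pU : ¬ U 𝒪 (p : F)
  p0 : (p : F) ≠ 0
  card : 2 ≤ Fintype.card ι
  rel : ∑ i, algebraMap R F (co i) * x i ^ p = 0
  sum : ∑ i, x i ≠ 0
  hind : ∀ s, x s ≠ 0 → ∃ j₀ : {i : ι // i ≠ s},
    AlgebraicIndependent R (fun i : {i : {i : ι // i ≠ s} // i ≠ j₀} => x i / x s)

/-- LOC. Local rings of the model at the primes above `p`. -/
def S_LOC : Prop := ∀ {R F ι κ : Type} [CommRing R] [IsDomain R] [IsDiscreteValuationRing R]
  [Field F] [Algebra R F] [Fintype ι] [DecidableEq ι] [Fintype κ] (𝒪 : Subring F) (p : ℕ)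
  (co : ι → R) (g : MvPolynomial ι R) (x : ι → F) (i₀ : ι), LocData 𝒪 p co g x →
  ∀ Φ : κ → Set F, Set.range Φ = {S | IsFac p g x i₀ S} → ∀ f : F, f ≠ 0 →
  f ∈ Submodule.span R (∏ k, Φ k) → (∀ h ∈ ∏ k, Φ k, h / f ∈ 𝒪) →
  IsLocOf 𝒪 (chart R (Submodule.span R (∏ k, Φ k)) f) → IsRegularLocalRing 𝒪

end Pool.Agent.H945R2.D
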