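import Pool.Agent.H945R2.D.Props

/-! Statements of the tasks, second part: the family of factors, good primes, global model. -/

set_option autoImplicit false

open scoped Pointwise

namespace Pool.Agent.H945R2.D

open Pool.Agent.H918R2.Quad MvPolynomial

/-- `S` spans a submodule commensurable with the forms of degree `d`. -/
def HasDeg (R : Type) {F ι : Type} [CommRing R] [Field F] [Algebra R F] (p : ℕ) (x : ι → F)
    (S : Set F) (d : ℕ) : Prop :=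
  (∀ h ∈ S, h ∈ Submodule.span R (Set.range x ^ d)) ∧
    ∃ k : ℕ, ∀ y ∈ Set.range x ^ d, (p : F) ^ k * y ∈ Submodule.span R S

/-- DEG. -/
def S_DEG : Prop := ∀ {R F ι : Type} [CommRing R] [Field F] [Algebra R F] [Fintype ι]
  [DecidableEq ι] (p : ℕ), 1 ≤ p → ∀ (g : MvPolynomial ι R) (x : ι → F) (i₀ : ι) (S : Set F),
  IsFac p g x i₀ S → ∃ d, HasDeg R p x S d

/-- FIN. -/
def S_FIN : Prop := ∀ {R F ι : Type} [CommRing R] [IsDomain R] [Field F] [Algebra R F] [Fintype ι]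
  [DecidableEq ι] (p : ℕ), (p : R) ≠ 0 → ∀ (g : MvPolynomial ι R) (x : ι → F) (i₀ : ι),
  {S | IsFac p g x i₀ S}.Finite

/-- FAM. -/
def S_FAM : Prop := ∀ {R F ι : Type} [CommRing R] [Field F] [Algebra R F] [Fintype ι]
  [DecidableEq ι] (p : ℕ) (x : ι → F) (𝒮 : Set (Set F)), 𝒮.Finite → Set.range x ∈ 𝒮 →
  (∀ S ∈ 𝒮, ∃ d, HasDeg R p x S d) → ∃ D₀ : ℕ, ∀ D, D₀ ≤ D →
    ∃ (κ : Type) (_ : Fintype κ) (Φ : κ → Set F), Set.range Φ = 𝒮 ∧ HasDeg R p x (∏ k, Φ k) D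

/-- GD1. Good primes. -/
def S_GD1 : Prop := ∀ {R F ι : Type} [CommRing R] [IsDomain R] [IsRegularRing R] [Field F]
  [Algebra R F] [Fintype ι] [DecidableEq ι] (𝒪 : Subring F), IsLoc 𝒪 →
  (∀ r : R, algebraMap R F r ∈ 𝒪) → ∀ p : ℕ, IsUnit (p : R) → p.Prime → ∀ a : ι → R,
  (∀ i, IsUnit (a i)) → ∀ x : ι → F, ∑ i, algebraMap R F (a i) * x i ^ p = 0 →
  (∀ s, x s ≠ 0 → ∃ j₀ : {i : ι // i ≠ s},
    AlgebraicIndependent R (fun i : {i : {i : ι // i ≠ s} // i ≠ j₀} => x i / x s)) →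
  ∀ D : ℕ, 1 ≤ D → ∀ f : F, f ≠ 0 → f ∈ Submodule.span R (Set.range x ^ D) →
  (∀ h ∈ Set.range x ^ D, h / f ∈ 𝒪) →
  IsLocOf 𝒪 (chart R (Submodule.span R (Set.range x ^ D)) f) → IsRegularLocalRing 𝒪

/-- GD2. Primes dividing one coefficient exactly once. -/
def S_GD2 : Prop := ∀ {R F ι : Type} [CommRing R] [IsDomain R] [IsDiscreteValuationRing R]
  [Field F] [Algebra R F] [Fintype ι] [DecidableEq ι] (𝒪 : Subring F), IsLoc 𝒪 →
  (∀ r : R, algebraMap R F r ∈ 𝒪) → ∀ p : ℕ, IsUnit (p : R) → p.Prime → ∀ (a : ι → R) (i₁ : ι),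
  Irreducible (a i₁) → ¬ U 𝒪 (algebraMap R F (a i₁)) → (∀ i, i ≠ i₁ → IsUnit (a i)) →
  ∀ x : ι → F, ∑ i, algebraMap R F (a i) * x i ^ p = 0 →
  (∀ s, x s ≠ 0 → ∃ j₀ : {i : ι // i ≠ s},
    AlgebraicIndependent R (fun i : {i : {i : ι // i ≠ s} // i ≠ j₀} => x i / x s)) →
  ∀ D : ℕ, 1 ≤ D → ∀ f : F, f ≠ 0 → f ∈ Submodule.span R (Set.range x ^ D) →
  (∀ h ∈ Set.range x ^ D, h / f ∈ 𝒪) →
  IsLocOf 𝒪 (chart R (Submodule.span R (Set.range x ^ D)) f) → IsRegularLocalRing 𝒪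

/-- BAD. The local modules at the primes above `p`. -/
def S_BAD : Prop := ∀ {O R K F : Type} [CommRing O] [IsDomain O] [CommRing R] [IsDomain R]
  [Field K] [Field F] [Algebra O R] [Algebra R K] [Algebra O F] [Algebra R F] [Algebra K F]
  [IsScalarTower O R F] [IsScalarTower R K F] (𝔭 : Ideal O) [𝔭.IsPrime]
  [IsLocalization.AtPrime R 𝔭] [IsDiscreteValuationRing R]
  [Finite (IsLocalRing.ResidueField R)] [CharZero K] [IsFractionRing R K] {m : ℕ} (p : ℕ),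
  p.Prime → p ≠ 2 → Irreducible (p : R) → ∀ a : Fin (m + 2) → O,
  (∀ i, IsUnit (algebraMap O R (a i))) → ∀ x : Fin (m + 2) → F, x 0 = 1 →
  ∑ i, algebraMap O F (a i) * x i ^ p = 0 →
  IntermediateField.adjoin K (Set.range x) = ⊤ → LinearIndependent K x →
  ∀ b : Fin m → F, IsTranscendenceBasis K b → ∃ D₀ : ℕ, ∀ D, D₀ ≤ D →
  ∃ P : Submodule O F, (∀ y ∈ P, ∃ s, s ∉ 𝔭 ∧ s • y ∈ Submodule.span O (Set.range x ^ D)) ∧
    (∃ k : ℕ, ∀ c ∈ 𝔭 ^ k, ∀ y ∈ Submodule.span O (Set.range x ^ D), c • y ∈ P) ∧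
    ∀ M : Submodule O F, M ≤ P → (∀ y ∈ P, ∃ s, s ∉ 𝔭 ∧ s • y ∈ M) → RegAt 𝔭 M

/-- GOOD. Regularity at the other primes. -/
def S_GOOD : Prop := ∀ {O R K F : Type} [CommRing O] [CommRing R] [IsDomain R]
  [Field K] [Field F] [Algebra O R] [Algebra R K] [Algebra O F] [Algebra R F] [Algebra K F]
  [IsScalarTower O R F] [IsScalarTower R K F] (𝔭 : Ideal O) [𝔭.IsPrime]
  [IsLocalization.AtPrime R 𝔭] [IsRegularRing R], Function.Injective (algebraMap R K) →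
  ∀ {m : ℕ} (p : ℕ), p.Prime → IsUnit (p : R) → ∀ a : Fin (m + 2) → O,
  ((∀ i, IsUnit (algebraMap O R (a i))) ∨ (IsDiscreteValuationRing R ∧
    ∃ i₁, Irreducible (algebraMap O R (a i₁)) ∧ ∀ i, i ≠ i₁ → IsUnit (algebraMap O R (a i)))) →
  ∀ x : Fin (m + 2) → F, x 0 = 1 → ∑ i, algebraMap O F (a i) * x i ^ p = 0 →
  IntermediateField.adjoin K (Set.range x) = ⊤ →
  ∀ b : Fin m → F, IsTranscendenceBasis K b → ∀ D : ℕ, 1 ≤ D → ∀ M : Submodule O F,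
  M ≤ Submodule.span O (Set.range x ^ D) →
  (∀ y ∈ Submodule.span O (Set.range x ^ D), ∃ s, s ∉ 𝔭 ∧ s • y ∈ M) → RegAt 𝔭 M

/-- ARI. Local arithmetic of the coefficients. -/
def S_ARI : Prop := ∀ {O : Type} [CommRing O] [IsDedekindDomain O] {ι : Type} [Fintype ι]
  (p : ℕ) (a : ι → O), (∀ 𝔭 : Ideal O, 𝔭.IsPrime → (p : O) * ∏ i, a i ∉ 𝔭 ^ 2) →
  ∀ (𝔭 : Ideal O) [𝔭.IsPrime] {R : Type} [CommRing R] [IsDomain R] [Algebra O R]
    [IsLocalization.AtPrime R 𝔭],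
  ((p : O) ∈ 𝔭 → 𝔭 ≠ ⊥ ∧ Irreducible (p : R) ∧ ∀ i, IsUnit (algebraMap O R (a i))) ∧
  ((p : O) ∉ 𝔭 → IsUnit (p : R) ∧ ((∀ i, IsUnit (algebraMap O R (a i))) ∨
    (IsDiscreteValuationRing R ∧ ∃ i₁, Irreducible (algebraMap O R (a i₁)) ∧
      ∀ i, i ≠ i₁ → IsUnit (algebraMap O R (a i)))))

/-- GLO. The global module. -/
def S_GLO : Prop := ∀ {O K F : Type} [CommRing O] [IsDedekindDomain O] [Field K] [Algebra O K]
  [IsFractionRing O K] [Field F] [Algebra K F] [Algebra O F] [IsScalarTower O K F] [CharZero K],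
  (∀ 𝔭 : Ideal O, 𝔭.IsPrime → 𝔭 ≠ ⊥ → Finite (O ⧸ 𝔭)) → ∀ {m : ℕ} (p : ℕ), p.Prime → p ≠ 2 →
  ∀ a : Fin (m + 2) → O, (∀ 𝔭 : Ideal O, 𝔭.IsPrime → (p : O) * ∏ i, a i ∉ 𝔭 ^ 2) →
  ∀ x : Fin (m + 2) → F, x 0 = 1 → ∑ i, algebraMap O F (a i) * x i ^ p = 0 →
  IntermediateField.adjoin K (Set.range x) = ⊤ → LinearIndependent K x →
  ∀ b : Fin m → F, IsTranscendenceBasis K b → HasModule O F

/-- FLD. The function field of a diagonal hypersurface. -/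
def S_FLD : Prop := ∀ {K : Type} [Field K] [CharZero K] (m p : ℕ), 2 ≤ p →
  ∀ a : Fin (m + 2) → K, (∀ i, a i ≠ 0) →
  Irreducible (C (a 0) + ∑ i : Fin (m + 1), C (a i.succ) * X i ^ p :
    MvPolynomial (Fin (m + 1)) K) → ∀ {F : Type} [Field F],
  (F ≃+* FractionRing (MvPolynomial (Fin (m + 1)) K ⧸
    Ideal.span {(C (a 0) + ∑ i : Fin (m + 1), C (a i.succ) * X i ^ p :
      MvPolynomial (Fin (m + 1)) K)})) →
  ∃ (_ : Algebra K F) (x : Fin (m + 2) → F) (b : Fin m → F), x 0 = 1 ∧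
    (∑ i, algebraMap K F (a i) * x i ^ p = 0) ∧
    IntermediateField.adjoin K (Set.range x) = ⊤ ∧ LinearIndependent K x ∧
    IsTranscendenceBasis K b

end Pool.Agent.H945R2.D
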